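import Pool.Agent.RS88.Elt

/-!
# RS88, module CaseB (helper98)
-/

set_option autoImplicit false

namespace Pool.Agent.RS88.CaseBS98

open MeasureTheory Filter Pool.Agent.RS88

/-- If a value is taken only at places at distance `< d`, then the image is large. -/
theorem fib98 (M : Finset ℕ) (φ : ℕ → ℕ) (d : ℕ)
    (h : ∀ m ∈ M, ∀ m' ∈ M, m + d ≤ m' → φ m ≠ φ m') : M.card ≤ d * (M.image φ).card := by
  refine Finset.card_le_mul_card_image M d fun b hb => ?_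
  obtain ⟨m1, hm1, hb1⟩ := Finset.mem_image.1 hb
  have hne : (M.filter fun a => φ a = b).Nonempty := ⟨m1, Finset.mem_filter.2 ⟨hm1, hb1⟩⟩
  have hmin := Finset.min'_mem _ hne
  set m0 := (M.filter fun a => φ a = b).min' hne with hm0
  have hsub : (M.filter fun a => φ a = b) ⊆ Finset.Ico m0 (m0 + d) := by
    intro m hm
    rw [Finset.mem_Ico]
    refine ⟨Finset.min'_le _ _ hm, ?_⟩
    by_contra hlt
    rw [Finset.mem_filter] at hm hmin
    exact h m0 hmin.1 m hm.1 (by omega) (hmin.2.trans hm.2.symm)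
  calc (M.filter fun a => φ a = b).card ≤ (Finset.Ico m0 (m0 + d)).card :=
        Finset.card_le_card hsub
    _ = d := by rw [Nat.card_Ico]; omega

theorem lin_le98 (f : ℕ) (hf : 10 ≤ f) : 80 * f ≤ 2 ^ f := by
  induction f, hf using Nat.le_induction with
  | base => norm_num
  | succ f hf ih => rw [pow_succ]; omega

/-- The core: one summand. `y = n g + R`, `k = n - m`. -/
theorem one98 {f n m y E : ℕ} (hf : 10 ≤ f) (hn : 2 ^ (320 * f) ≤ n) (hbig : 3 * n ≤ y)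
    (hR : y % n ≤ 2 ^ (15 * f)) (hm1 : 2 ^ (16 * f) / (16 * f) ≤ m) (hm2 : m ≤ 2 ^ (80 * f))
    (hlo : ((y : ℝ) / n + 1 / 5) * ((n : ℝ) - ((n - m : ℕ) : ℝ)) ≤ (y : ℝ) - E)
    (hhi : (y : ℝ) - E ≤ 1000 * f * ((n : ℝ) - ((n - m : ℕ) : ℝ))) :
    ∃ x : ℕ, 2 ^ (80 * f) < x ∧ x ≤ n - m ∧ E = (y / n - 1) * (n - m) + x := by
  have hp1 : 80 * f ≤ 2 ^ f := lin_le98 f hf
  have hpos : 0 < n := lt_of_lt_of_le (Nat.pos_of_ne_zero (by positivity)) hn
  have e1 : 2 ^ (320 * f) = 2 ^ (240 * f) * 2 ^ (80 * f) := by rw [← pow_add]; congr 1; omega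
  have e2 : 2 ^ f ≤ 2 ^ (240 * f) := Nat.pow_le_pow_right (by norm_num) (by omega)
  have e3 : 2 ^ (2 * f) ≤ 2 ^ (240 * f) := Nat.pow_le_pow_right (by norm_num) (by omega)
  have e4 : 2 ^ (2 * f) = 2 ^ f * 2 ^ f := by rw [← pow_add]; congr 1; omega
  have e5 : 1000 * f + 2 ≤ 2 ^ (240 * f) := by nlinarith
  have hmn : m ≤ n := by
    calc m ≤ 1 * 2 ^ (80 * f) := by rw [one_mul]; exact hm2
      _ ≤ 2 ^ (240 * f) * 2 ^ (80 * f) := Nat.mul_le_mul_right _ Nat.one_le_two_pow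
      _ ≤ n := e1 ▸ hn
  -- `5 R ≤ m`
  have hRm : 5 * 2 ^ (15 * f) ≤ m := by
    refine le_trans ?_ hm1
    rw [Nat.le_div_iff_mul_le (by omega)]
    have e6 : 2 ^ (16 * f) = 2 ^ (15 * f) * 2 ^ f := by rw [← pow_add]; congr 1; omega
    rw [e6]
    calc 5 * 2 ^ (15 * f) * (16 * f) = 2 ^ (15 * f) * (80 * f) := by ring
      _ ≤ 2 ^ (15 * f) * 2 ^ f := Nat.mul_le_mul_left _ hp1
  set g := y / n with hg
  set R := y % n with hRdef
  have hy : n * g + R = y := Nat.div_add_mod y n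
  have hg3 : 3 ≤ g := by
    rw [hg, Nat.le_div_iff_mul_le hpos]
    exact hbig
  obtain ⟨g', hg'⟩ : ∃ g', g = g' + 1 := ⟨g - 1, by omega⟩
  set k := n - m with hk
  have hnk : n = k + m := by omega
  have hnR : (n : ℝ) = k + m := by exact_mod_cast hnk
  have hyR : (y : ℝ) = n * g + R := by exact_mod_cast hy.symm
  have hgR : (g : ℝ) ≤ (y : ℝ) / n := by
    rw [le_div_iff₀ (by exact_mod_cast hpos), hyR]
    have : (0 : ℝ) ≤ R := Nat.cast_nonneg _
    nlinarith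
  have hm0 : (0 : ℝ) ≤ m := Nat.cast_nonneg _
  have hdiff : (n : ℝ) - (k : ℝ) = m := by rw [hnR]; ring
  rw [hdiff] at hlo hhi
  -- upper bound
  have hRmR : 5 * (R : ℝ) ≤ m := by
    have h1 : 5 * R ≤ m := le_trans (Nat.mul_le_mul_left 5 hR) hRm
    exact_mod_cast h1
  have hup : (E : ℝ) ≤ (g : ℝ) * k := by
    have h1 : ((g : ℝ) + 1 / 5) * m ≤ (y : ℝ) - E :=
      le_trans (mul_le_mul_of_nonneg_right (by linarith) hm0) hlo
    rw [hyR, hnR] at h1
    nlinarith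
  have hupN : E ≤ g * k := by exact_mod_cast hup
  -- lower bound
  have hkbig : 1000 * f * m + 2 ^ (80 * f) < k := by
    have h1 : (1000 * f + 2) * 2 ^ (80 * f) ≤ n :=
      le_trans (Nat.mul_le_mul_right _ e5) (e1 ▸ hn)
    have h2 : 1000 * f * m ≤ 1000 * f * 2 ^ (80 * f) := Nat.mul_le_mul_left _ hm2
    have h3 : 0 < 2 ^ (80 * f) := by positivity
    have h4 : (1000 * f + 2) * 2 ^ (80 * f) = 1000 * f * 2 ^ (80 * f) + 2 * 2 ^ (80 * f) := by
      ring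
    by_contra hcon
    -- strictness: use one more power
    have h5 : (1000 * f + 3) * 2 ^ (80 * f) ≤ n := by
      refine le_trans (Nat.mul_le_mul_right _ ?_) (e1 ▸ hn)
      nlinarith
    have h6 : (1000 * f + 3) * 2 ^ (80 * f) = 1000 * f * 2 ^ (80 * f) + 3 * 2 ^ (80 * f) := by
      ring
    omega
  have hlow : (g' : ℝ) * k + 2 ^ (80 * f) < (E : ℝ) := by
    have h1 : (1000 : ℝ) * f * m + 2 ^ (80 * f) < k := by exact_mod_cast hkbig
    have h2 : (g : ℝ) = g' + 1 := by exact_mod_cast hg'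
    have h3 : (0 : ℝ) ≤ R := Nat.cast_nonneg _
    have h4 : (0 : ℝ) ≤ (g : ℝ) * m := by positivity
    rw [hyR, hnR] at hhi
    nlinarith
  have hlowN : g' * k + 2 ^ (80 * f) < E := by exact_mod_cast hlow
  refine ⟨E - g' * k, by omega, ?_, ?_⟩
  · have h1 : g * k = g' * k + k := by rw [hg']; ring
    omega
  · have h1 : g - 1 = g' := by omega
    rw [h1]
    omega

theorem caseB : ∀ᶠ f : ℕ in atTop, ∀ (ω : ℕ → Bool) (n : ℕ) (M : Finset ℕ),
    2 ^ (320 * f) ≤ n → Slp f n ω → elt ω n % n ≤ 2 ^ (15 * f) →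
    (∀ m ∈ M, 2 ^ (16 * f) / (16 * f) ≤ m ∧ m ≤ 2 ^ (80 * f)) →
    (∀ m ∈ M, 2 ^ (80 * f) < res ω (n - m) ∧ res ω (n - m) ≤ n) ∧
      M.card ≤ 2 ^ (f / 8) * (M.image (fun m => res ω (n - m))).card := by
  filter_upwards [eventually_ge_atTop 10] with f hf ω n M hn hS hR hM
  have hp1 : 80 * f ≤ 2 ^ f := lin_le98 f hf
  have hpos : 0 < n := lt_of_lt_of_le (Nat.pos_of_ne_zero (by positivity)) hn
  have e80 : 2 ^ (80 * f) ≤ n :=
    le_trans (Nat.pow_le_pow_right (by norm_num) (by omega)) hn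
  have e100 : 2 ^ (80 * f) ≤ 2 ^ (100 * f) := Nat.pow_le_pow_right (by norm_num) (by omega)
  have hd : ∀ m ∈ M, 2 ^ (f / 8) ≤ m := by
    intro m hm
    refine le_trans ?_ (hM m hm).1
    rw [Nat.le_div_iff_mul_le (by omega)]
    calc 2 ^ (f / 8) * (16 * f) ≤ 2 ^ f * 2 ^ f :=
          Nat.mul_le_mul (Nat.pow_le_pow_right (by norm_num) (by omega)) (by omega)
      _ = 2 ^ (2 * f) := by rw [← pow_add]; congr 1; omega
      _ ≤ 2 ^ (16 * f) := Nat.pow_le_pow_right (by norm_num) (by omega)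
  have hx : ∀ m ∈ M, ∃ x : ℕ, 2 ^ (80 * f) < x ∧ x ≤ n - m ∧
      elt ω (n - m) = (elt ω n / n - 1) * (n - m) + x := by
    intro m hm
    have h1 := hM m hm
    have h2 := hd m hm
    have h3 : m ≤ n := h1.2.trans e80
    exact one98 hf hn hS.big hR h1.1 h1.2
      (hS.lo (n - m) n (by omega) (by omega) le_rfl)
      (hS.hi (n - m) n (by omega) (by omega) le_rfl)
  have hres : ∀ m ∈ M, 2 ^ (80 * f) < res ω (n - m) ∧ res ω (n - m) ≤ n - m ∧
      elt ω (n - m) = (elt ω n / n - 1) * (n - m) + res ω (n - m) := by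
    intro m hm
    obtain ⟨x, hx1, hx2, hx3⟩ := hx m hm
    have h1 : res ω (n - m) = x := res_eq (Nat.one_le_two_pow.trans hx1.le) hx2 hx3
    rw [h1]
    exact ⟨hx1, hx2, hx3⟩
  refine ⟨fun m hm => ⟨(hres m hm).1, (hres m hm).2.1.trans (Nat.sub_le _ _)⟩,
    fib98 M _ _ fun m hm m' hm' hmm heq => ?_⟩
  have h1 := (hM m' hm').2
  have h2 := (hM m hm).2
  have h3 := hS.lo (n - m') (n - m) (by omega) (by omega) (Nat.sub_le _ _)
  have h4 := (hres m hm).2.2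
  have h5 := (hres m' hm').2.2
  have heq' : res ω (n - m) = res ω (n - m') := heq
  rw [heq'] at h4
  set g := elt ω n / n with hg
  have hg3 : 3 ≤ g := by
    rw [hg, Nat.le_div_iff_mul_le hpos]
    exact hS.big
  have hgR : (g : ℝ) ≤ (elt ω n : ℝ) / n := by
    rw [le_div_iff₀ (by exact_mod_cast hpos)]
    exact_mod_cast Nat.div_mul_le_self (elt ω n) n
  have hlt : n - m' < n - m := by
    have : 0 < 2 ^ (f / 8) := by positivity
    omega
  have hltR : (0 : ℝ) < ((n - m : ℕ) : ℝ) - ((n - m' : ℕ) : ℝ) := by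
    have : ((n - m' : ℕ) : ℝ) < ((n - m : ℕ) : ℝ) := by exact_mod_cast hlt
    linarith
  have h4R : (elt ω (n - m) : ℝ) = ((g - 1 : ℕ) : ℝ) * ((n - m : ℕ) : ℝ) + res ω (n - m') := by
    exact_mod_cast h4
  have h5R : (elt ω (n - m') : ℝ) = ((g - 1 : ℕ) : ℝ) * ((n - m' : ℕ) : ℝ) + res ω (n - m') := by
    exact_mod_cast h5
  have hg1 : ((g - 1 : ℕ) : ℝ) = (g : ℝ) - 1 := by
    rw [Nat.cast_sub (by omega)]
    norm_num
  rw [h4R, h5R, hg1] at h3
  nlinarith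

end Pool.Agent.RS88.CaseBS98
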