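import Pool.Agent.RS88.Elt
import Pool.Agent.RS88.CaseBS98

/-!
# The residues of the large summand

Let `y = elt ω n = g n + R`, `0 ≤ R < n`, `g ≥ 3` (`Slp.big`), `ρ = y / n`, `g ≤ ρ < g + 1`, `k = n - m`,
`D = y - elt ω k`; `Slp.lo` and `Slp.hi` for `k' = n - m`, `k = n` give `(ρ + 1/5) m ≤ D ≤ 1000 f m` for `2^(f/8) ≤ m ≤ 2^(100 f)`.

`caseA` (`R > 2^(15 f)`, `m ≤ Z = 2^(5f)`): `elt ω k = y - D ≤ ρ n - ρ m = ρ k < (g+1) k` and
`elt ω k - g k = R + g m - D ≥ R - 1000 f Z > Z`; so `res ω k = elt ω k - g k` (`res_eq`), it is `> Z` and `≤ k ≤ n`.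
`caseB` (`R ≤ 2^(15 f)`, `2^(16f)/(16f) ≤ m ≤ Z = 2^(80f)`): `elt ω k ≤ g n + R - (g + 1/5) m ≤ g k` as `R ≤ m / 5`, and
`elt ω k - (g-1) k = k + R + g m - D ≥ k - 1000 f m > n/2 > Z`; so `res ω k = elt ω k - (g-1) k`.
In both cases `res ω k - res ω k' > 0` for `k' = n - m'`, `k = n - m`, `m' ≥ m + 2^(f/8)`, because
`elt ω k - elt ω k' ≥ (ρ + 1/5)(k - k') > g (k - k')`. So every value is taken at most `2^(f/8)` times on `M`
(the elements of a fibre are in an interval of length `< 2^(f/8)`, `Finset.card_le_mul_card_image`).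
-/

set_option autoImplicit false

namespace Pool.Agent.RS88

open MeasureTheory Filter

theorem caseB : ∀ᶠ f : ℕ in atTop, ∀ (ω : ℕ → Bool) (n : ℕ) (M : Finset ℕ),
    2 ^ (320 * f) ≤ n → Slp f n ω → elt ω n % n ≤ 2 ^ (15 * f) →
    (∀ m ∈ M, 2 ^ (16 * f) / (16 * f) ≤ m ∧ m ≤ 2 ^ (80 * f)) →
    (∀ m ∈ M, 2 ^ (80 * f) < res ω (n - m) ∧ res ω (n - m) ≤ n) ∧
      M.card ≤ 2 ^ (f / 8) * (M.image (fun m => res ω (n - m))).card :=
  CaseBS98.caseB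

end Pool.Agent.RS88
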