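import Pool.Agent.RS88.DepA

/-!
# Events of finitely many coordinates

`meas`: `E` is the preimage under the (measurable) restriction to `S → Bool` of a subset of a finite
discrete space. `indep`: `iIndepFun_infinitePi` (`mu = Measure.infinitePi coin`). `dep_inter`:
`E ∩ {no element in T}`: induction on `T` with `dep_false`, or the independence of the restrictions to
`S` and to `T`.
-/

set_option autoImplicit false

namespace Pool.Agent.RS88

open MeasureTheory Filter

/-- The event as a preimage under the restriction. -/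
theorem Dep_pre {S : Finset ℕ} {E : Set (ℕ → Bool)} (hE : Dep (S : Set ℕ) E) :
    ∃ A : Set (S → Bool), MeasurableSet A ∧
      E = (fun (ω : ℕ → Bool) (i : S) => ω i) ⁻¹' A := by
  refine ⟨{x | ∃ ω ∈ E, ∀ i : S, ω i = x i}, (Set.toFinite _).measurableSet, ?_⟩
  ext ω
  constructor
  · intro h
    exact ⟨ω, h, fun i => rfl⟩
  · rintro ⟨ω', h, h2⟩
    exact (hE ω' ω fun i hi => h2 ⟨i, hi⟩).mp h

theorem Dep_mul {S T : Finset ℕ} (hST : Disjoint S T) {E F : Set (ℕ → Bool)}
    (hE : Dep (S : Set ℕ) E) (hF : Dep (T : Set ℕ) F) :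
    mu.real (E ∩ F) = mu.real E * mu.real F := by
  obtain ⟨A, hA, hEA⟩ := Dep_pre hE
  obtain ⟨B, hB, hFB⟩ := Dep_pre hF
  have h1 := indep.indepFun_finset S T hST (fun i => measurable_pi_apply i)
  have h2 := h1.measure_inter_preimage_eq_mul A B hA hB
  rw [← hEA, ← hFB] at h2
  simp only [Measure.real, h2, ENNReal.toReal_mul]

theorem Dep_coord (m : ℕ) (b : Bool) : Dep (({m} : Finset ℕ) : Set ℕ) {ω | ω m = b} := by
  intro ω ω' h
  have := h m (by simp)
  simp only [Set.mem_ofPred_eq]
  rw [this]

theorem Dep_mu_false (m : ℕ) : mu.real {ω | ω m = false} = 1 - pr m := by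
  have h1 : ({ω | ω m = false} : Set (ℕ → Bool)) = {ω | ω m = true}ᶜ := by
    ext ω
    simp
  rw [h1, probReal_compl_eq_one_sub (Dep.meas (Dep_coord m true)), mu_true]

theorem dep_true {S : Finset ℕ} {E : Set (ℕ → Bool)} (hE : Dep (S : Set ℕ) E) {m : ℕ}
    (hm : m ∉ S) : mu.real (E ∩ {ω | ω m = true}) = mu.real E * pr m := by
  rw [Dep_mul (Finset.disjoint_singleton_right.mpr hm) hE (Dep_coord m true), mu_true]

theorem dep_false {S : Finset ℕ} {E : Set (ℕ → Bool)} (hE : Dep (S : Set ℕ) E) {m : ℕ}
    (hm : m ∉ S) : mu.real (E ∩ {ω | ω m = false}) = mu.real E * (1 - pr m) := by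
  rw [Dep_mul (Finset.disjoint_singleton_right.mpr hm) hE (Dep_coord m false), Dep_mu_false]

theorem dep_inter {S T : Finset ℕ} (hST : Disjoint S T) {E : Set (ℕ → Bool)}
    (hE : Dep (S : Set ℕ) E) :
    mu.real (E ∩ {ω | ∀ i ∈ T, ω i = false}) = mu.real E * ∏ i ∈ T, (1 - pr i) := by
  classical
  induction T using Finset.induction_on with
  | empty => simp
  | insert m T hm ih =>
    have hST' : Disjoint S T := Finset.disjoint_of_subset_right (Finset.subset_insert m T) hST
    have hmS : m ∉ S := fun h => Finset.disjoint_left.mp hST h (Finset.mem_insert_self m T)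
    have h1 : (E ∩ {ω | ∀ i ∈ insert m T, ω i = false}) =
        (E ∩ {ω | ∀ i ∈ T, ω i = false}) ∩ {ω | ω m = false} := by
      ext ω
      simp only [Set.mem_inter_iff, Set.mem_ofPred_eq, Finset.mem_insert, forall_eq_or_imp]
      tauto
    have h2 : Dep ((S ∪ T : Finset ℕ) : Set ℕ) (E ∩ {ω | ∀ i ∈ T, ω i = false}) := by
      intro ω ω' h
      have e1 := hE ω ω' fun i hi => h i (by
        rw [Finset.coe_union]
        exact Or.inl hi)
      have e2 : (∀ i ∈ T, ω i = false) ↔ ∀ i ∈ T, ω' i = false := by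
        refine forall₂_congr fun i hi => ?_
        rw [h i (by
          rw [Finset.coe_union]
          exact Or.inr hi)]
      simp only [Set.mem_inter_iff, Set.mem_ofPred_eq, e1, e2]
    rw [h1, dep_false h2 (by
      rw [Finset.mem_union]
      rintro (h | h)
      · exact hmS h
      · exact hm h), ih hST', Finset.prod_insert hm]
    ring

end Pool.Agent.RS88
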