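import Pool.Agent.RS88.FillB
import Pool.Agent.RS88.Dep

/-!
# The residues of the large summand miss the set with small probability

`bad_le`: if `ω` is in `Bad n L Z T` and `q = ct ω (n+1)` (`≤ n / 2`), then for `m ∈ Msq ω L Z`, `k = n - m` is
`> q` (`m ≤ Z ≤ n/4`) and `≤ ct ω (n^2)`, so by `fill_msq`, `fill_ct`, `fill_res` `ω` is in
`E q R ∩ {no element in R}`, `E q R` = the event of `fill_dep`, `R` = the image, a subset of `(Z, n]` with at least `T`
elements. For fixed `q` the events `E q R` are disjoint; `dep_inter` with `S = range (n^2) \ Icc Z n`, `T = R`, and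
`1 - pr i ≤ 1 - 1 / log n` for `3 ≤ i ≤ n`. Sum over `R` and over `q ≤ n`.

`sum_num`: with `f = Nat.log 2 n / 320`, `T = 2 ^ (f/4 - f/8) ≥ 2 ^ (f/8 - 1)`, `n < 2 ^ (320 (f+1))`:
`(n+1) (1 - 1/log n)^T ≤ (n+1) exp (-T / log n) ≤ n ^ (-2)` for large `n`.
-/

set_option autoImplicit false

namespace Pool.Agent.RS88

open MeasureTheory Filter

/-- The residues of the large summand miss the set. -/
def Bad (n L Z T : ℕ) : Set (ℕ → Bool) :=
  {ω | n < ct ω (n ^ 2) ∧ 2 * ct ω (n + 1) ≤ n ∧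
    T ≤ ((Msq ω L Z).image (fun m => res ω (n - m))).card ∧
    ∀ m ∈ Msq ω L Z, Z < res ω (n - m) ∧ res ω (n - m) ≤ n ∧ ω (res ω (n - m)) = false}

lemma cnt_sub {n L Z T : ℕ} (hZ : 4 * Z ≤ n) (h3 : 3 ≤ Z) :
    Bad n L Z T ⊆ ⋃ q ∈ Finset.range (n + 1),
      ⋃ R ∈ (Finset.Ioc Z n).powerset.filter (fun R => T ≤ R.card),
        ({ω | n < ct (fill n Z q ω) (n ^ 2) ∧
          (Msq (fill n Z q ω) L Z).image (fun m => res (fill n Z q ω) (n - m)) = R} ∩
          {ω | ∀ i ∈ R, ω i = false}) := by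
  intro ω hω
  have hZn : Z ≤ n := by omega
  obtain ⟨h1, h2, h4, h5⟩ := hω
  have hmq : ∀ m ∈ Msq ω L Z, ct ω (n + 1) < n - m ∧ n - m ≤ ct ω (n ^ 2) := by
    intro m hm
    unfold Msq at hm
    rw [Finset.mem_filter, Finset.mem_range] at hm
    omega
  have himg : (Msq (fill n Z (ct ω (n + 1)) ω) L Z).image
      (fun m => res (fill n Z (ct ω (n + 1)) ω) (n - m)) =
      (Msq ω L Z).image (fun m => res ω (n - m)) := by
    rw [fill_msq]
    apply Finset.image_congr
    intro m hm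
    exact fill_res hZn rfl (hmq m hm).1 (hmq m hm).2
  simp only [Set.mem_iUnion]
  refine ⟨ct ω (n + 1), Finset.mem_range.2 (by omega),
    (Msq ω L Z).image (fun m => res ω (n - m)), ?_, ⟨?_, himg⟩, ?_⟩
  · rw [Finset.mem_filter, Finset.mem_powerset]
    refine ⟨?_, h4⟩
    intro i hi
    obtain ⟨m, hm, rfl⟩ := Finset.mem_image.1 hi
    rw [Finset.mem_Ioc]
    exact ⟨(h5 m hm).1, (h5 m hm).2.1⟩
  · rw [fill_ct hZn rfl (by nlinarith)]
    exact h1
  · intro i hi
    obtain ⟨m, hm, rfl⟩ := Finset.mem_image.1 hi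
    exact (h5 m hm).2.2

lemma cnt_prod {n Z T : ℕ} (hZ : 4 * Z ≤ n) (h3 : 3 ≤ Z) {R : Finset ℕ}
    (hR : R ⊆ Finset.Ioc Z n) (hT : T ≤ R.card) :
    ∏ i ∈ R, (1 - pr i) ≤ (1 - 1 / Real.log n) ^ T := by
  have hn3 : (3 : ℝ) ≤ n := by exact_mod_cast (show 3 ≤ n by omega)
  have hlog : 1 ≤ Real.log n := log_three.trans (Real.log_le_log (by norm_num) hn3)
  have ha0 : 0 ≤ 1 - 1 / Real.log n := by
    rw [sub_nonneg, div_le_one (by linarith)]
    exact hlog
  have ha1 : 1 - 1 / Real.log n ≤ 1 := by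
    have : 0 ≤ 1 / Real.log n := by positivity
    linarith
  calc ∏ i ∈ R, (1 - pr i) ≤ ∏ _i ∈ R, (1 - 1 / Real.log n) := by
        apply Finset.prod_le_prod
        · intro i _
          exact sub_nonneg.2 (pr_le_one i)
        · intro i hi
          have h1 := Finset.mem_Ioc.1 (hR hi)
          have h4 : (3 : ℝ) ≤ i := by exact_mod_cast (show 3 ≤ i by omega)
          have h5 : (i : ℝ) ≤ n := by exact_mod_cast h1.2
          have h6 : 1 ≤ Real.log i := log_three.trans (Real.log_le_log (by norm_num) h4)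
          unfold pr
          rw [if_pos (by omega)]
          apply sub_le_sub_left
          exact one_div_le_one_div_of_le (by linarith) (Real.log_le_log (by linarith) h5)
    _ = (1 - 1 / Real.log n) ^ R.card := by rw [Finset.prod_const]
    _ ≤ (1 - 1 / Real.log n) ^ T := pow_le_pow_of_le_one ha0 ha1 hT

theorem bad_le {n L Z T : ℕ} (hZ : 4 * Z ≤ n) (h3 : 3 ≤ Z) :
    mu.real (Bad n L Z T) ≤ ((n : ℝ) + 1) * (1 - 1 / Real.log n) ^ T := by
  classical
  have hZn : Z ≤ n := by omega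
  have hn3 : (3 : ℝ) ≤ n := by exact_mod_cast (show 3 ≤ n by omega)
  have hlog : 1 ≤ Real.log n := log_three.trans (Real.log_le_log (by norm_num) hn3)
  have ha0 : 0 ≤ 1 - 1 / Real.log n := by
    rw [sub_nonneg, div_le_one (by linarith)]
    exact hlog
  have haT : 0 ≤ (1 - 1 / Real.log n) ^ T := pow_nonneg ha0 T
  obtain ⟨E, hE⟩ : ∃ E : ℕ → Finset ℕ → Set (ℕ → Bool), ∀ q R, E q R =
      {ω | n < ct (fill n Z q ω) (n ^ 2) ∧
        (Msq (fill n Z q ω) L Z).image (fun m => res (fill n Z q ω) (n - m)) = R} :=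
    ⟨_, fun _ _ => rfl⟩
  obtain ⟨Rs, hRs⟩ : ∃ Rs : Finset (Finset ℕ), Rs =
      (Finset.Ioc Z n).powerset.filter (fun R => T ≤ R.card) := ⟨_, rfl⟩
  have hdep : ∀ q R, Dep ((Finset.range (n ^ 2) \ Finset.Icc Z n : Finset ℕ) : Set ℕ)
      (E q R) := by
    intro q R
    rw [hE]
    exact fill_dep hZn (by omega) R
  have hsub : Bad n L Z T ⊆ ⋃ q ∈ Finset.range (n + 1), ⋃ R ∈ Rs,
      (E q R ∩ {ω | ∀ i ∈ R, ω i = false}) := by
    have h := cnt_sub (L := L) (T := T) hZ h3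
    rw [← hRs] at h
    simp only [hE]
    exact h
  have hone : ∀ q, ∀ R ∈ Rs, mu.real (E q R ∩ {ω | ∀ i ∈ R, ω i = false}) ≤
      mu.real (E q R) * (1 - 1 / Real.log n) ^ T := by
    intro q R hR
    rw [hRs, Finset.mem_filter, Finset.mem_powerset] at hR
    have hdis : Disjoint (Finset.range (n ^ 2) \ Finset.Icc Z n) R := by
      rw [Finset.disjoint_left]
      intro i hi hiR
      rw [Finset.mem_sdiff] at hi
      apply hi.2
      have := Finset.mem_Ioc.1 (hR.1 hiR)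
      rw [Finset.mem_Icc]
      omega
    rw [dep_inter hdis (hdep q R)]
    exact mul_le_mul_of_nonneg_left (cnt_prod hZ h3 hR.1 hR.2) measureReal_nonneg
  have hsum : ∀ q, ∑ R ∈ Rs, mu.real (E q R) ≤ 1 := by
    intro q
    rw [← measureReal_biUnion_finset]
    · exact measureReal_le_one
    · intro R _ R' _ hne
      rw [Function.onFun, Set.disjoint_left]
      intro ω h1 h2
      rw [hE] at h1 h2
      exact hne (h1.2.symm.trans h2.2)
    · intro R _
      exact (hdep q R).meas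
  calc mu.real (Bad n L Z T) ≤ mu.real (⋃ q ∈ Finset.range (n + 1), ⋃ R ∈ Rs,
        (E q R ∩ {ω | ∀ i ∈ R, ω i = false})) := measureReal_mono hsub (measure_ne_top _ _)
    _ ≤ ∑ q ∈ Finset.range (n + 1), mu.real (⋃ R ∈ Rs,
        (E q R ∩ {ω | ∀ i ∈ R, ω i = false})) := measureReal_biUnion_finset_le _ _
    _ ≤ ∑ q ∈ Finset.range (n + 1), (1 - 1 / Real.log n) ^ T := by
        apply Finset.sum_le_sum
        intro q _
        calc mu.real (⋃ R ∈ Rs, (E q R ∩ {ω | ∀ i ∈ R, ω i = false}))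
            ≤ ∑ R ∈ Rs, mu.real (E q R ∩ {ω | ∀ i ∈ R, ω i = false}) :=
              measureReal_biUnion_finset_le _ _
          _ ≤ ∑ R ∈ Rs, mu.real (E q R) * (1 - 1 / Real.log n) ^ T :=
              Finset.sum_le_sum (hone q)
          _ = (∑ R ∈ Rs, mu.real (E q R)) * (1 - 1 / Real.log n) ^ T := by
              rw [Finset.sum_mul]
          _ ≤ 1 * (1 - 1 / Real.log n) ^ T := mul_le_mul_of_nonneg_right (hsum q) haT
          _ = (1 - 1 / Real.log n) ^ T := one_mul _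
    _ = ((n : ℝ) + 1) * (1 - 1 / Real.log n) ^ T := by
        rw [Finset.sum_const, Finset.card_range, nsmul_eq_mul]
        push_cast
        ring

end Pool.Agent.RS88
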