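import Pool.Agent.RS88.DepA

/-!
# Concentration of the number of elements in long intervals

`hoeff`: Hoeffding's inequality (Mathlib: `ProbabilityTheory.HasSubgaussianMGF`) for the `v - u`
independent indicators of `ω m = true`, `u ≤ m < v`, with the means `pr m`; `ct ω v - ct ω u` is the
number of `m ∈ [u, v)` with `ω m = true`.
-/

set_option autoImplicit false

namespace Pool.Agent.RS88

open MeasureTheory Filter ProbabilityTheory

theorem ct_sub (ω : ℕ → Bool) {u v : ℕ} (huv : u ≤ v) :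
    (ct ω v : ℝ) - ct ω u = ∑ m ∈ Finset.Ico u v, (if ω m = true then (1 : ℝ) else 0) := by
  have h : ∀ y : ℕ, (ct ω y : ℝ) = ∑ m ∈ Finset.range y, (if ω m = true then (1 : ℝ) else 0) := by
    intro y
    unfold ct
    rw [Nat.count_eq_card_filter_range, Finset.card_filter]
    push_cast
    rfl
  rw [h, h, Finset.sum_Ico_eq_sub _ huv]

theorem hoeff (u v : ℕ) (huv : u < v) (t : ℝ) (ht : 0 ≤ t) :
    mu.real {ω | t ≤ |((ct ω v : ℝ) - ct ω u) - ∑ m ∈ Finset.Ico u v, pr m|} ≤
      2 * Real.exp (-(2 * t ^ 2 / ((v : ℝ) - u))) := by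
  set Y : ℕ → (ℕ → Bool) → ℝ := fun m ω => (if ω m = true then (1 : ℝ) else 0) - pr m with hY
  have hind : iIndepFun Y mu :=
    indep.comp (fun m (b : Bool) => (if b = true then (1 : ℝ) else 0) - pr m)
      (fun m => measurable_from_top)
  set c : NNReal := (‖(1 : ℝ) - 0‖₊ / 2) ^ 2 with hc
  have hcB : (c : ℝ) = 1 / 4 := by
    rw [hc]
    push_cast
    rw [Real.norm_eq_abs, sub_zero, abs_one]
    norm_num
  have hmset : ∀ m : ℕ, MeasurableSet {ω : ℕ → Bool | ω m = true} := fun m =>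
    measurableSet_eq_fun (measurable_pi_apply m) measurable_const
  have hsub : ∀ m, HasSubgaussianMGF (Y m) c mu := by
    intro m
    have hfun : (fun ω : ℕ → Bool => if ω m = true then (1 : ℝ) else 0) =
        ({ω : ℕ → Bool | ω m = true}).indicator (fun _ => (1 : ℝ)) := by
      funext ω
      by_cases h : ω m = true
      · rw [if_pos h, Set.indicator_of_mem (show ω ∈ {ω : ℕ → Bool | ω m = true} from h)]
      · rw [if_neg h, Set.indicator_of_notMem (show ω ∉ {ω : ℕ → Bool | ω m = true} from h)]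
    have hmeas : Measurable (fun ω : ℕ → Bool => if ω m = true then (1 : ℝ) else 0) := by
      rw [hfun]
      exact measurable_const.indicator (hmset m)
    have h1 := hasSubgaussianMGF_of_mem_Icc (μ := mu) (a := 0) (b := 1)
      (X := fun ω : ℕ → Bool => if ω m = true then (1 : ℝ) else 0) hmeas.aemeasurable
      (Eventually.of_forall fun ω => by
        by_cases h : ω m = true
        · rw [if_pos h]; exact ⟨zero_le_one, le_rfl⟩
        · rw [if_neg h]; exact ⟨le_rfl, zero_le_one⟩)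
    have h2 : mu[fun ω : ℕ → Bool => if ω m = true then (1 : ℝ) else 0] = pr m := by
      rw [hfun, integral_indicator_const _ (hmset m), smul_eq_mul, mul_one]
      exact mu_true m
    rw [h2] at h1
    exact h1
  have hind' : iIndepFun (fun m => -Y m) mu :=
    hind.comp (fun _ x => -x) (fun _ => measurable_neg)
  have hsub' : ∀ m, HasSubgaussianMGF (-Y m) c mu := fun m => (hsub m).neg
  have h1 := HasSubgaussianMGF.measure_sum_ge_le_of_iIndepFun hind (c := fun _ => c)
    (s := Finset.Ico u v) (fun i _ => hsub i) ht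
  have h2 := HasSubgaussianMGF.measure_sum_ge_le_of_iIndepFun hind' (c := fun _ => c)
    (s := Finset.Ico u v) (fun i _ => hsub' i) ht
  have huv' : (0 : ℝ) < (v : ℝ) - u := by
    have : (u : ℝ) < v := by exact_mod_cast huv
    linarith
  have hsum : ((∑ _i ∈ Finset.Ico u v, c : NNReal) : ℝ) = ((v : ℝ) - u) / 4 := by
    rw [Finset.sum_const, Nat.card_Ico, nsmul_eq_mul, NNReal.coe_mul, hcB, NNReal.coe_natCast,
      Nat.cast_sub huv.le]
    ring
  have h3 : -t ^ 2 / (2 * ((∑ _i ∈ Finset.Ico u v, c : NNReal) : ℝ)) =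
      -(2 * t ^ 2 / ((v : ℝ) - u)) := by
    rw [hsum]
    field_simp
    ring
  rw [h3] at h1 h2
  have hset : ∀ ω : ℕ → Bool, ((ct ω v : ℝ) - ct ω u) - ∑ m ∈ Finset.Ico u v, pr m =
      ∑ m ∈ Finset.Ico u v, Y m ω := by
    intro ω
    rw [ct_sub ω huv.le, ← Finset.sum_sub_distrib]
  have hsubset : {ω | t ≤ |((ct ω v : ℝ) - ct ω u) - ∑ m ∈ Finset.Ico u v, pr m|} ⊆
      {ω | t ≤ ∑ m ∈ Finset.Ico u v, Y m ω} ∪ {ω | t ≤ ∑ m ∈ Finset.Ico u v, (-Y m) ω} := by
    intro ω hω
    have h4 : t ≤ |((ct ω v : ℝ) - ct ω u) - ∑ m ∈ Finset.Ico u v, pr m| := hω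
    rw [hset ω] at h4
    rcases le_abs.1 h4 with h5 | h5
    · exact Or.inl h5
    · refine Or.inr ?_
      have h6 : ∑ m ∈ Finset.Ico u v, (-Y m) ω = -∑ m ∈ Finset.Ico u v, Y m ω := by
        rw [← Finset.sum_neg_distrib]
        rfl
      show t ≤ ∑ m ∈ Finset.Ico u v, (-Y m) ω
      rw [h6]
      exact h5
  calc mu.real {ω | t ≤ |((ct ω v : ℝ) - ct ω u) - ∑ m ∈ Finset.Ico u v, pr m|}
      ≤ mu.real ({ω | t ≤ ∑ m ∈ Finset.Ico u v, Y m ω} ∪
          {ω | t ≤ ∑ m ∈ Finset.Ico u v, (-Y m) ω}) :=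
        measureReal_mono hsubset
    _ ≤ mu.real {ω | t ≤ ∑ m ∈ Finset.Ico u v, Y m ω} +
          mu.real {ω | t ≤ ∑ m ∈ Finset.Ico u v, (-Y m) ω} :=
        measureReal_union_le _ _
    _ ≤ 2 * Real.exp (-(2 * t ^ 2 / ((v : ℝ) - u))) := by linarith

end Pool.Agent.RS88
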