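import Pool.Agent.RS88.Defs

/-!
# The elements and the counting function

All follow from `Nat.nth_mem_of_lt_card`, `Nat.count_nth`, `Nat.nth_lt_of_lt_count`, `Nat.nth_count`,
`Nat.nth_strictMonoOn` (if `k ≤ ct ω V` there are at least `k` elements).
-/

set_option autoImplicit false

namespace Pool.Agent.RS88

theorem ct_mono {ω : ℕ → Bool} {u v : ℕ} (h : u ≤ v) : ct ω u ≤ ct ω v :=
  Nat.count_monotone _ h

theorem elt_lt {ω : ℕ → Bool} {k V : ℕ} (hk : 1 ≤ k) (h : k ≤ ct ω V) : elt ω k < V := by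
  unfold elt
  apply Nat.nth_lt_of_lt_count
  unfold ct at h
  omega

theorem elt_card {ω : ℕ → Bool} {k V : ℕ} (hk : 1 ≤ k) (h : k ≤ ct ω V)
    (hf : (Set.ofPred fun m => ω m = true).Finite) : k - 1 < hf.toFinset.card := by
  have h1 : Nat.count (fun m => ω m = true) V ≤ hf.toFinset.card := Nat.count_le_card hf V
  unfold ct at h
  omega

theorem elt_mem {ω : ℕ → Bool} {k V : ℕ} (hk : 1 ≤ k) (h : k ≤ ct ω V) :
    ω (elt ω k) = true := by
  unfold elt
  exact Nat.nth_mem (p := fun m => ω m = true) (k - 1) (fun hf => elt_card hk h hf)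

theorem ct_elt {ω : ℕ → Bool} {k V : ℕ} (hk : 1 ≤ k) (h : k ≤ ct ω V) :
    ct ω (elt ω k) = k - 1 := by
  unfold elt ct
  exact Nat.count_nth (p := fun m => ω m = true) (fun hf => elt_card hk h hf)

theorem ct_elt_succ {ω : ℕ → Bool} {k V : ℕ} (hk : 1 ≤ k) (h : k ≤ ct ω V) :
    ct ω (elt ω k + 1) = k := by
  have h1 := ct_elt hk h
  have h2 := elt_mem hk h
  unfold ct at h1 ⊢
  rw [Nat.count_succ, h1, if_pos h2]
  omega

/-- `y` is at most the `k`-th element iff fewer than `k` elements are `< y`. -/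
theorem le_elt_iff {ω : ℕ → Bool} {k V y : ℕ} (hk : 1 ≤ k) (h : k ≤ ct ω V) :
    y ≤ elt ω k ↔ ct ω y < k := by
  constructor
  · intro hy
    have h1 := ct_mono (ω := ω) hy
    rw [ct_elt hk h] at h1
    omega
  · intro hy
    by_contra hcon
    push Not at hcon
    have h1 := ct_mono (ω := ω) (show elt ω k + 1 ≤ y from hcon)
    rw [ct_elt_succ hk h] at h1
    omega

theorem elt_strict {ω : ℕ → Bool} {j k V : ℕ} (hj : 1 ≤ j) (hjk : j < k) (h : k ≤ ct ω V) :
    elt ω j < elt ω k := by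
  have h1 : elt ω j + 1 ≤ elt ω k := by
    rw [le_elt_iff (by omega) h, ct_elt_succ hj (hjk.le.trans h)]
    exact hjk
  omega

/-- the residue from a representation -/
theorem res_eq {ω : ℕ → Bool} {k g x : ℕ} (hx : 1 ≤ x) (hxk : x ≤ k)
    (h : elt ω k = g * k + x) : res ω k = x := by
  unfold res
  rw [h]
  have h1 : g * k + x - 1 = (x - 1) + k * g := by
    rw [mul_comm g k]
    omega
  rw [h1, Nat.add_mul_mod_self_left, Nat.mod_eq_of_lt (by omega)]
  omega

end Pool.Agent.RS88
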