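import Pool.Agent.RS88.Defs

/-!
# The walk `W` is skip-free upwards

`W_succ`: `ct ω (y+1) = ct ω y + (if ω y then 1 else 0)`.

`trials`: for every `1 ≤ s ≤ S` let `y` be the least `y ≥ N` with `W y ≥ s ^ 2` (`V` is such a `y`);
`y > N` since `W N ≤ 0`, and `W y ≤ W (y-1) + 1 ≤ s ^ 2`. So `W y = s ^ 2`, `y ≠ V` since
`W V > S ^ 2`; the `y` of different `s` are different.

`success`: `m = ct ω y + 1`, `elt ω m = y` (`Nat.nth_count`), `W y = s ^ 2` says `y = f m + s ^ 2`, and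
`1 ≤ s ^ 2 ≤ S ^ 2 ≤ ct ω N + 1 ≤ m`; so `res ω m = (f m + s ^ 2 - 1) % m + 1 = s ^ 2`.

`card_msq`: `y ↦ ct ω y + 1` is injective on the `y` with `ω y = true`.
-/

set_option autoImplicit false

namespace Pool.Agent.RS88

open MeasureTheory Filter

theorem W_succ (ω : ℕ → Bool) (f y : ℕ) :
    W ω f (y + 1) = W ω f y + 1 - (if ω y = true then (f : ℤ) else 0) := by
  unfold W ct
  rw [Nat.count_succ]
  by_cases h : ω y = true
  · rw [if_pos h, if_pos h]
    push_cast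
    ring
  · rw [if_neg h, if_neg h]
    push_cast
    ring

theorem SkipA_first {ω : ℕ → Bool} {f N V s : ℕ} (hNV : N ≤ V) (h1 : W ω f N ≤ 0)
    (hs : 1 ≤ s) (h2 : (s : ℤ) ^ 2 < W ω f V) :
    ∃ y, N ≤ y ∧ y < V ∧ W ω f y = (s : ℤ) ^ 2 ∧
      ∀ y', N ≤ y' → y' < y → W ω f y' < (s : ℤ) ^ 2 := by
  classical
  have hex : ∃ y, N ≤ y ∧ (s : ℤ) ^ 2 ≤ W ω f y := ⟨V, hNV, h2.le⟩
  have hspec := Nat.find_spec hex
  have hmin : ∀ y', N ≤ y' → y' < Nat.find hex → W ω f y' < (s : ℤ) ^ 2 := by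
    intro y' hN hlt
    have h3 := Nat.find_min hex hlt
    by_contra hc
    exact h3 ⟨hN, not_lt.1 hc⟩
  have hs1 : (1 : ℤ) ≤ s := by exact_mod_cast hs
  have hs2 : (0 : ℤ) < (s : ℤ) ^ 2 := by positivity
  have hNy : N < Nat.find hex := by
    rcases Nat.lt_or_ge N (Nat.find hex) with h | h
    · exact h
    · exfalso
      have he : Nat.find hex = N := le_antisymm h hspec.1
      rw [he] at hspec
      linarith [hspec.2]
  obtain ⟨z, hz⟩ : ∃ z, Nat.find hex = z + 1 := ⟨Nat.find hex - 1, by omega⟩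
  rw [hz] at hspec hmin hNy
  have hW := W_succ ω f z
  have hzlt := hmin z (by omega) (by omega)
  have hf : (0 : ℤ) ≤ (if ω z = true then (f : ℤ) else 0) := by
    split_ifs
    · exact Int.natCast_nonneg f
    · exact le_rfl
  have hW2 : W ω f (z + 1) = (s : ℤ) ^ 2 := by
    apply le_antisymm
    · omega
    · exact hspec.2
  refine ⟨z + 1, hspec.1, ?_, hW2, hmin⟩
  have hle : z + 1 ≤ V := by
    rw [← hz]
    exact Nat.find_min' hex ⟨hNV, h2.le⟩
  rcases Nat.lt_or_ge (z + 1) V with h | h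
  · exact h
  · exfalso
    have he : z + 1 = V := le_antisymm hle h
    rw [he] at hW2
    linarith

open Classical in
theorem trials {ω : ℕ → Bool} {f N V S : ℕ} (hNV : N ≤ V) (h1 : W ω f N ≤ 0)
    (h2 : (S : ℤ) ^ 2 < W ω f V) :
    S ≤ ((Finset.Ico N V).filter (fun y => Tr f N S ω y)).card := by
  have hex : ∀ s : ℕ, ∃ y, 1 ≤ s → s ≤ S → (N ≤ y ∧ y < V ∧ W ω f y = (s : ℤ) ^ 2 ∧
      ∀ y', N ≤ y' → y' < y → W ω f y' < (s : ℤ) ^ 2) := by
    intro s
    by_cases hs : 1 ≤ s ∧ s ≤ S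
    · have hss : (s : ℤ) ^ 2 ≤ (S : ℤ) ^ 2 := by
        have hc : (s : ℤ) ≤ S := by exact_mod_cast hs.2
        exact pow_le_pow_left₀ (Int.natCast_nonneg s) hc 2
      obtain ⟨y, hy⟩ := SkipA_first hNV h1 hs.1 (lt_of_le_of_lt hss h2)
      exact ⟨y, fun _ _ => hy⟩
    · exact ⟨0, fun a b => absurd ⟨a, b⟩ hs⟩
  choose g hg using hex
  have hcard : (Finset.Icc 1 S).card = S := by simp
  calc S = (Finset.Icc 1 S).card := hcard.symm
    _ ≤ ((Finset.Ico N V).filter (fun y => Tr f N S ω y)).card := by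
      apply Finset.card_le_card_of_injOn g
      · intro s hs
        have hs' := Finset.mem_Icc.1 (Finset.mem_coe.1 hs)
        obtain ⟨a, b, c, d⟩ := hg s hs'.1 hs'.2
        rw [Finset.mem_coe, Finset.mem_filter, Finset.mem_Ico]
        exact ⟨⟨a, b⟩, a, s, hs'.1, hs'.2, c, d⟩
      · intro s hs s' hs' he
        have hs1 := Finset.mem_Icc.1 (Finset.mem_coe.1 hs)
        have hs2 := Finset.mem_Icc.1 (Finset.mem_coe.1 hs')
        have c := (hg s hs1.1 hs1.2).2.2.1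
        have c' := (hg s' hs2.1 hs2.2).2.2.1
        rw [he, c'] at c
        have c2 : (s' ^ 2 : ℕ) = s ^ 2 := by exact_mod_cast c
        exact (Nat.pow_left_injective (n := 2) (by norm_num) c2).symm

end Pool.Agent.RS88
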