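import Pool.Agent.RS88.FillA

/-!
# Forgetting the elements in `[Z, n]`, keeping their number

`fill n Z q ω` has the elements of `ω` outside of `[Z, n]`, and the first `q - ct ω Z` integers of `[Z, n]`.
`fill_msq`: `Msq ω L Z` depends on the elements `< Z` only. `fill_ct`: if `ct ω (n+1) = q` then
`q - ct ω Z ≤ n + 1 - Z`, so `fill` has `q` elements `≤ n`; above `n` both sets are equal. `fill_res`: the `k`-th elements
agree for `q < k` (both sets have the same counting function above `n`, and `k`-th element `> n`).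
`fill_dep`: `ct (fill ..) y`, hence the finitely many elements of `fill` below `n ^ 2`, are functions of `ω` on
`[0, n^2) \ [Z, n]`; if `n < ct (fill ..) (n^2)` the `k`-th elements, `k ≤ n`, are among them.
-/

set_option autoImplicit false

namespace Pool.Agent.RS88

open MeasureTheory Filter

theorem fillB_ct {A B : ℕ → Bool} {V : ℕ} (h : ∀ i < V, A i = B i) {y : ℕ} (hy : y ≤ V) :
    ct A y = ct B y := by
  induction y with
  | zero => simp [ct]
  | succ y ih =>
    have h1 := ih (by omega)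
    have h2 := h y (by omega)
    unfold ct at h1 ⊢
    rw [Nat.count_succ, Nat.count_succ, h1, h2]

theorem fillB_elt {A B : ℕ → Bool} {V : ℕ} (h : ∀ i < V, A i = B i) {k : ℕ} (hk : 1 ≤ k)
    (hV : k ≤ ct A V) : elt A k = elt B k := by
  have h1 := elt_lt hk hV
  have h2 := elt_mem hk hV
  have h3 := ct_elt hk hV
  have h4 : B (elt A k) = true := by rw [← h _ h1]; exact h2
  have h5 : ct B (elt A k) = k - 1 := by rw [← fillB_ct h h1.le]; exact h3
  have h6 : Nat.nth (fun m => B m = true) (ct B (elt A k)) = elt A k :=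
    Nat.nth_count (p := fun m => B m = true) h4
  rw [h5] at h6
  exact h6.symm

theorem fillB_elt' {A B : ℕ → Bool} {V : ℕ} (h : ∀ i < V, A i = B i) {k : ℕ}
    (hV : k ≤ ct A V) (h1 : 1 ≤ ct A V) : elt A k = elt B k := by
  rcases Nat.eq_zero_or_pos k with h0 | h0
  · have e1 : elt A k = elt A 1 := by subst h0; rfl
    have e2 : elt B k = elt B 1 := by subst h0; rfl
    rw [e1, e2]
    exact fillB_elt h le_rfl h1
  · exact fillB_elt h h0 hV

theorem fillB_msq {A B : ℕ → Bool} {L Z : ℕ} (h : ∀ i < Z, A i = B i) : Msq A L Z = Msq B L Z := by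
  classical
  unfold Msq
  ext m
  simp only [Finset.mem_filter]
  have hc : ct A Z = ct B Z := fillB_ct h le_rfl
  constructor
  · rintro ⟨h1, h2, h3, h4, h5⟩
    refine ⟨h1, h2, h3, hc ▸ h4, ?_⟩
    have h6 := fillB_elt h h3 h4
    unfold res at h5 ⊢
    rw [← h6]
    exact h5
  · rintro ⟨h1, h2, h3, h4, h5⟩
    have h4' : m ≤ ct A Z := by rw [hc]; exact h4
    refine ⟨h1, h2, h3, h4', ?_⟩
    have h6 := fillB_elt h h3 h4'
    unfold res at h5 ⊢
    rw [h6]
    exact h5

theorem fillB_one {A B : ℕ → Bool} {n L Z : ℕ} (hZ : Z ≤ n) (hn : 2 ≤ n)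
    (h : ∀ i < n ^ 2, A i = B i) {R : Finset ℕ}
    (hA : n < ct A (n ^ 2) ∧ (Msq A L Z).image (fun m => res A (n - m)) = R) :
    n < ct B (n ^ 2) ∧ (Msq B L Z).image (fun m => res B (n - m)) = R := by
  obtain ⟨h1, h2⟩ := hA
  have hn2 : n ≤ n ^ 2 := by nlinarith
  have hc := fillB_ct h le_rfl
  refine ⟨by rw [← hc]; exact h1, ?_⟩
  have hM : Msq A L Z = Msq B L Z := fillB_msq fun i hi => h i (by omega)
  have hr : ∀ m, res A (n - m) = res B (n - m) := by
    intro m
    unfold res
    rw [fillB_elt' h (k := n - m) (by omega) (by omega)]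
  rw [← h2, hM]
  apply Finset.image_congr
  intro m _
  exact (hr m).symm

theorem fill_dep {n Z q L : ℕ} (hZ : Z ≤ n) (hn : 2 ≤ n) (R : Finset ℕ) :
    Dep ((Finset.range (n ^ 2) \ Finset.Icc Z n : Finset ℕ) : Set ℕ)
      {ω | n < ct (fill n Z q ω) (n ^ 2) ∧
        (Msq (fill n Z q ω) L Z).image (fun m => res (fill n Z q ω) (n - m)) = R} := by
  intro ω ω' h
  have hn2 : n ≤ n ^ 2 := by nlinarith
  have hS : ∀ i, i < n ^ 2 → (i < Z ∨ n < i) → ω i = ω' i := by
    intro i h1 h2
    apply h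
    simp only [Finset.coe_sdiff, Finset.coe_range, Finset.coe_Icc, Set.mem_sdiff, Set.mem_Iio,
      Set.mem_Icc]
    omega
  have hcZ : ct ω Z = ct ω' Z :=
    fillB_ct (V := Z) (fun i hi => hS i (by omega) (Or.inl hi)) le_rfl
  have hf : ∀ i < n ^ 2, fill n Z q ω i = fill n Z q ω' i := by
    intro i hi
    unfold fill
    rw [hcZ]
    split_ifs with h1
    · exact hS i hi h1
    · rfl
  constructor
  · intro hA
    exact fillB_one hZ hn hf hA
  · intro hA
    exact fillB_one hZ hn (fun i hi => (hf i hi).symm) hA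

end Pool.Agent.RS88
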