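import Pool.Agent.RS88.Elt

/-!
# The local slope

`2 ^ (320 f) ≤ n < 2 ^ (320 (f+1))`, `ConcAt f ω`, `y = elt ω n`; `220 f ≤ log n ≤ 222 f + 222`, `log (n^2) ≤ 500 f`.

`few_many`: `n ^ 2 ≤ 2 ^ (1000 f)`. `ct ω (n^2) > n` and `2 * ct ω (n+1) ≤ n`, `ct ω (3 n) < n` (so `3 n ≤ elt ω n` by
`le_elt_iff`) by `ConcAt` for `[2^(100 f), V)` and `ct ω (2^(100 f)) ≤ 2^(100 f)`; `log (2^(100f)) ≥ 60 f`.

`ratio`: with `s = 2^(100 f)`, `h = y / 2` (natural division), `ct ω y = n - 1`,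
`n - 1 ≥ ct ω y - ct ω s ≥ (1 - 1/f²) ((h - s) / log h + (y - h) / log y)`, `log h ≤ log y - 0.69`, so
`n ≥ (1 - 1/f²) (y - s) / log y * (1 + 0.34 / log y)`, and `log y ≤ 500 f`: `n ≥ y / (log y - 0.3)`.

`window`: in an interval `[a, a + h)` with `a ≥ 0.99 y`, `a + h ≤ 2 y`, `h ≥ 2^(f/8)`, there are at most
`(1 + 1/f²) h / log a ≤ h / (log y - 0.02)` elements (`log a ≥ log y - 0.0101`, `log y ≤ 500 f`) and at least `h / (600 f)`.

`slope`: `k', k` as in `Slp.lo`, `a = elt ω k'`. First `a ≥ 0.99 y`: otherwise the interval `[0.99 y, y)` contains at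
most `2^(100 f)` elements, but it contains at least `0.01 y / (600 f)`. `[a, elt ω k)` contains exactly `k - k'` elements.
If `elt ω k - a < (y/n + 1/5)(k - k')`, then the interval `[a, a + h)`, `h = ⌈(y/n + 1/5)(k - k')⌉` contains at least
`k - k'` elements, but at most `h / (log y - 0.02) ≤ ((y/n + 1/5)(k-k') + 1) / (log y - 0.02) < k - k'` by `ratio`
(`y/n + 1/5 ≤ log y - 0.1`, `k - k' ≥ 2^(f/8)` is large). `hi`: if `elt ω k - a > 1000 f (k - k')` then `[a, a + 1000 f (k-k'))`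
contains at most `k - k'` elements, but at least `1000 f (k-k') / (600 f)`.
-/

set_option autoImplicit false

namespace Pool.Agent.RS88

open MeasureTheory Filter

theorem fm_logS (f : ℕ) : 60 * (f : ℝ) ≤ Real.log ((2 ^ (100 * f) : ℕ) : ℝ) := by
  have h2 := Real.log_two_gt_d9
  have hf : (0 : ℝ) ≤ f := Nat.cast_nonneg f
  push_cast
  rw [Real.log_pow]
  push_cast
  nlinarith

theorem fm_pow8 (f : ℕ) : 2 ^ (f / 8) ≤ 2 ^ (100 * f) :=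
  Nat.pow_le_pow_right (by norm_num) (by omega)

/-- The upper bound for the number of elements. -/
theorem fm_up {f : ℕ} (hf : 1 ≤ f) {ω : ℕ → Bool} (hC : ConcAt f ω) {v : ℕ}
    (h1 : 2 * 2 ^ (100 * f) ≤ v) (h2 : v ≤ 2 ^ (1000 * f)) :
    (ct ω v : ℝ) ≤ ((2 ^ (100 * f) : ℕ) : ℝ) + v / (30 * f) := by
  have hS0 : 0 < 2 ^ (100 * f) := by positivity
  have h8 := fm_pow8 f
  obtain ⟨-, h3⟩ := hC (2 ^ (100 * f)) v (by omega) h2 h8 (by omega)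
  have hf1 : (1 : ℝ) ≤ f := by exact_mod_cast hf
  have hlog := fm_logS f
  have hct : (ct ω (2 ^ (100 * f)) : ℝ) ≤ ((2 ^ (100 * f) : ℕ) : ℝ) := by
    have : ct ω (2 ^ (100 * f)) ≤ 2 ^ (100 * f) := Nat.count_le _
    exact_mod_cast this
  have hv : ((2 ^ (100 * f) : ℕ) : ℝ) ≤ v := by
    exact_mod_cast (show 2 ^ (100 * f) ≤ v by omega)
  have hS : (0 : ℝ) ≤ ((2 ^ (100 * f) : ℕ) : ℝ) := Nat.cast_nonneg _
  have hq : 1 + 1 / (f : ℝ) ^ 2 ≤ 2 := by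
    have : 1 / (f : ℝ) ^ 2 ≤ 1 := by
      rw [div_le_one (by positivity)]
      nlinarith
    linarith
  have hd : ((v : ℝ) - ((2 ^ (100 * f) : ℕ) : ℝ)) / Real.log ((2 ^ (100 * f) : ℕ) : ℝ) ≤
      v / (60 * f) := by
    have hp : 0 < 60 * (f : ℝ) := by positivity
    calc ((v : ℝ) - ((2 ^ (100 * f) : ℕ) : ℝ)) / Real.log ((2 ^ (100 * f) : ℕ) : ℝ)
        ≤ ((v : ℝ) - ((2 ^ (100 * f) : ℕ) : ℝ)) / (60 * f) :=
          div_le_div_of_nonneg_left (by linarith) hp hlog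
      _ ≤ v / (60 * f) := div_le_div_of_nonneg_right (by linarith) hp.le
  have hd0 : 0 ≤ ((v : ℝ) - ((2 ^ (100 * f) : ℕ) : ℝ)) / Real.log ((2 ^ (100 * f) : ℕ) : ℝ) :=
    div_nonneg (by linarith) (by linarith)
  have h4 : (1 + 1 / (f : ℝ) ^ 2) *
      (((v : ℝ) - ((2 ^ (100 * f) : ℕ) : ℝ)) / Real.log ((2 ^ (100 * f) : ℕ) : ℝ)) ≤
      2 * (v / (60 * f)) := mul_le_mul hq hd hd0 (by norm_num)
  have h5 : 2 * ((v : ℝ) / (60 * f)) = v / (30 * f) := by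
    field_simp
    ring
  linarith

theorem fm_lo {f : ℕ} {ω : ℕ → Bool} (hC : ConcAt f ω) {v : ℕ}
    (h1 : 2 * 2 ^ (100 * f) ≤ v) (h2 : v ≤ 2 ^ (1000 * f)) :
    (1 - 1 / (f : ℝ) ^ 2) * (((v : ℝ) - ((2 ^ (100 * f) : ℕ) : ℝ)) / Real.log v) ≤ (ct ω v : ℝ) := by
  have hS0 : 0 < 2 ^ (100 * f) := by positivity
  have h8 := fm_pow8 f
  obtain ⟨h3, -⟩ := hC (2 ^ (100 * f)) v (by omega) h2 h8 (by omega)
  have h6 : (0 : ℝ) ≤ ct ω (2 ^ (100 * f)) := Nat.cast_nonneg _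
  linarith

theorem fm_size1 {f n : ℕ} (hf : 10 ≤ f) (hn1 : 2 ^ (320 * f) ≤ n) :
    16 * 2 ^ (100 * f) ≤ n ∧ 2000 * f < n := by
  have h16 : 16 ≤ 2 ^ (220 * f) := by
    calc 16 = 2 ^ 4 := by norm_num
      _ ≤ 2 ^ (220 * f) := Nat.pow_le_pow_right (by norm_num) (by omega)
  refine ⟨?_, ?_⟩
  · calc 16 * 2 ^ (100 * f) ≤ 2 ^ (220 * f) * 2 ^ (100 * f) := Nat.mul_le_mul_right _ h16
      _ = 2 ^ (320 * f) := by rw [← pow_add]; congr 1; ring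
      _ ≤ n := hn1
  · have h1 : f < 2 ^ f := Nat.lt_two_pow_self
    have h2 : 2 ^ 11 * 2 ^ f ≤ n := by
      rw [← pow_add]
      exact (Nat.pow_le_pow_right (by norm_num) (by omega)).trans hn1
    have h3 : 2 ^ 11 * f < 2 ^ 11 * 2 ^ f := Nat.mul_lt_mul_of_pos_left h1 (by norm_num)
    calc 2000 * f ≤ 2 ^ 11 * f := Nat.mul_le_mul_right _ (by norm_num)
      _ < 2 ^ 11 * 2 ^ f := h3
      _ ≤ n := h2

theorem fm_size2 {f n : ℕ} (hf : 10 ≤ f) (hn0 : 0 < n) (hn2 : n < 2 ^ (320 * (f + 1))) :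
    n ^ 2 ≤ 2 ^ (1000 * f) ∧ Real.log n ≤ 320 * ((f : ℝ) + 1) * Real.log 2 := by
  refine ⟨?_, ?_⟩
  · have h3 : 640 * (f + 1) ≤ 1000 * f := by
      clear hn2
      omega
    have he : 320 * (f + 1) * 2 = 640 * (f + 1) := by ring
    calc n ^ 2 ≤ (2 ^ (320 * (f + 1))) ^ 2 := Nat.pow_le_pow_left hn2.le 2
      _ = 2 ^ (640 * (f + 1)) := by rw [← pow_mul, he]
      _ ≤ 2 ^ (1000 * f) := Nat.pow_le_pow_right (by norm_num) h3
  · have hnr : (0 : ℝ) < n := by exact_mod_cast hn0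
    have h5 : (n : ℝ) ≤ ((2 ^ (320 * (f + 1)) : ℕ) : ℝ) := Nat.cast_le.2 hn2.le
    have h6 := Real.log_le_log hnr h5
    rw [Nat.cast_pow, Real.log_pow, Nat.cast_ofNat] at h6
    refine h6.trans (le_of_eq ?_)
    rw [Nat.cast_mul, Nat.cast_add, Nat.cast_one, Nat.cast_ofNat]

theorem few_many : ∀ᶠ f : ℕ in atTop, ∀ (ω : ℕ → Bool) (n : ℕ), ConcAt f ω →
    2 ^ (320 * f) ≤ n → n < 2 ^ (320 * (f + 1)) →
    n < ct ω (n ^ 2) ∧ 2 * ct ω (n + 1) ≤ n ∧ 3 * n ≤ elt ω n := by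
  filter_upwards [eventually_ge_atTop 10] with f hf ω n hC hn1 hn2
  obtain ⟨hSn', hfn⟩ := fm_size1 hf hn1
  have hn0 : 0 < n := lt_of_le_of_lt (Nat.zero_le _) hfn
  obtain ⟨hpow', hlogn⟩ := fm_size2 hf hn0 hn2
  obtain ⟨S, V, hSn, hpow, hup, hlo⟩ : ∃ S V : ℕ, 16 * S ≤ n ∧ n ^ 2 ≤ V ∧
      (∀ v : ℕ, 2 * S ≤ v → v ≤ V → (ct ω v : ℝ) ≤ (S : ℝ) + v / (30 * f)) ∧
      (∀ v : ℕ, 2 * S ≤ v → v ≤ V →
        (1 - 1 / (f : ℝ) ^ 2) * (((v : ℝ) - (S : ℝ)) / Real.log v) ≤ (ct ω v : ℝ)) :=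
    ⟨2 ^ (100 * f), 2 ^ (1000 * f), hSn', hpow', fun v h1 h2 => fm_up (le_trans (by norm_num) hf) hC h1 h2,
      fun v h1 h2 => fm_lo hC h1 h2⟩
  clear hn1 hn2 hSn' hpow' hC
  have hf1 : (10 : ℝ) ≤ f := by exact_mod_cast hf
  have hf0 : (0 : ℝ) < f := by linarith
  have hn3 : 3 ≤ n := by omega
  have hnsq : 3 * n ≤ n ^ 2 := by
    rw [sq]
    exact Nat.mul_le_mul_right _ hn3
  have hnr : (0 : ℝ) < n := by exact_mod_cast hn0
  have h3r : (3 : ℝ) ≤ n := by exact_mod_cast hn3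
  have hSr : 16 * (S : ℝ) ≤ n := by exact_mod_cast hSn
  have hS0 : (0 : ℝ) ≤ S := Nat.cast_nonneg _
  -- (1)
  have k1 : n < ct ω (n ^ 2) := by
    have h3 := hlo (n ^ 2) (by omega) hpow
    have hlog : Real.log ((n ^ 2 : ℕ) : ℝ) ≤ 500 * f := by
      have h7 := Real.log_two_lt_d9
      rw [Nat.cast_pow, Real.log_pow, Nat.cast_ofNat]
      have h8 : 320 * ((f : ℝ) + 1) * Real.log 2 ≤ 320 * ((f : ℝ) + 1) * 0.6931471808 :=
        mul_le_mul_of_nonneg_left h7.le (by positivity)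
      linarith
    have hlog0 : 0 < Real.log ((n ^ 2 : ℕ) : ℝ) := by
      apply Real.log_pos
      rw [Nat.cast_pow]
      nlinarith
    have hq : (1 : ℝ) / 2 ≤ 1 - 1 / (f : ℝ) ^ 2 := by
      have : 1 / (f : ℝ) ^ 2 ≤ 1 / 2 := by
        apply one_div_le_one_div_of_le (by norm_num)
        nlinarith
      linarith
    have hnum : ((n : ℝ) ^ 2) / 2 ≤ ((n ^ 2 : ℕ) : ℝ) - (S : ℝ) := by
      rw [Nat.cast_pow]
      nlinarith
    have hd : ((n : ℝ) ^ 2) / 2 / (500 * f) ≤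
        (((n ^ 2 : ℕ) : ℝ) - (S : ℝ)) / Real.log ((n ^ 2 : ℕ) : ℝ) := by
      refine div_le_div₀ ?_ hnum hlog0 hlog
      have : (0 : ℝ) ≤ (n : ℝ) ^ 2 / 2 := by positivity
      linarith
    have h4 : 1 / 2 * (((n : ℝ) ^ 2) / 2 / (500 * f)) ≤ (1 - 1 / (f : ℝ) ^ 2) *
        ((((n ^ 2 : ℕ) : ℝ) - (S : ℝ)) / Real.log ((n ^ 2 : ℕ) : ℝ)) :=
      mul_le_mul hq hd (by positivity) (by linarith)
    have h5 : (n : ℝ) < 1 / 2 * (((n : ℝ) ^ 2) / 2 / (500 * f)) := by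
      have h6 : 1 / 2 * (((n : ℝ) ^ 2) / 2 / (500 * f)) = n * (n / (2000 * f)) := by
        field_simp
        ring
      rw [h6]
      have h7 : 1 < (n : ℝ) / (2000 * f) := by
        rw [one_lt_div (by positivity)]
        exact_mod_cast hfn
      nlinarith
    have h7 : (n : ℝ) < ct ω (n ^ 2) := by linarith
    exact_mod_cast h7
  -- (2)
  have k2 : 2 * ct ω (n + 1) ≤ n := by
    have h3 := hup (n + 1) (by omega) (by omega)
    have h4 : ((n + 1 : ℕ) : ℝ) / (30 * f) ≤ n / 4 := by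
      rw [div_le_iff₀ (by positivity)]
      push_cast
      nlinarith
    have h5 : (2 : ℝ) * ct ω (n + 1) ≤ n := by linarith
    exact_mod_cast h5
  refine ⟨k1, k2, ?_⟩
  rw [le_elt_iff (V := n ^ 2) hn0 k1.le]
  have h3 := hup (3 * n) (by omega) (by omega)
  have h4 : ((3 * n : ℕ) : ℝ) / (30 * f) ≤ n / 4 := by
    rw [div_le_iff₀ (by positivity)]
    push_cast
    nlinarith
  have h5 : (ct ω (3 * n) : ℝ) < n := by linarith
  exact_mod_cast h5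

end Pool.Agent.RS88
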