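import Pool.Agent.RS88.Defs

/-!
# Many `m` for which the residue of the `m`-th element is a square

`mf_conc`: let `N = 2 ^ f`. `ConcAt f ω` for `[2^(f/2), 2^f)`: `ct ω N ≥ (1 - 1/f²)(N - 2^(f/2)) / log N`,
`log N = f log 2 ≤ 0.7 f`, so `ct ω N ≥ 1.4 N / f` for large `f`; hence `W ω f N ≤ 0`, `N / f ≤ ct ω N + 1`
and `(2^(f/3))² ≤ ct ω N + 1`. For `[2^(5f/2), 2^(5f))` (natural division):
`ct ω V ≤ 2^(5f/2) + (1 + 1/f²) V / log (2^(5f/2)) ≤ 0.6 V / f`, as `log (2^(5f/2)) ≥ 1.7 f - 1`; so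
`W ω f V ≥ 0.3 V`.

`mf_num`: `2^(2^(f/4)) (1 - 1/(8f))^(2^(f/3)) ≤ exp (2^(f/4) - 2^(f/3)/(8f))`.

`mf`: `V = 2^(5f)`, `pr y ≥ 1/log V ≥ 1/(4f)` for `3 ≤ 2^f ≤ y < V`; `pred_coin` for `T ω y = Tr f (2^f) (2^(f/3)) ω y`
(`tr_dep`), `p = 1/(4f)`, and Borel-Cantelli; `trials`, `card_msq`.
-/

set_option autoImplicit false

namespace Pool.Agent.RS88

open MeasureTheory Filter

theorem mf_first {f : ℕ} (hf : 12 ≤ f) {ω : ℕ → Bool} (hc : ConcAt f ω) :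
    2 ^ f ≤ f * ct ω (2 ^ f) := by
  have hfr : (12 : ℝ) ≤ f := by exact_mod_cast hf
  have hf2 : 1 / (f : ℝ) ^ 2 ≤ 1 / 100 :=
    one_div_le_one_div_of_le (by norm_num) (by nlinarith)
  have l2 := Real.log_two_gt_d9
  have l2' := Real.log_two_lt_d9
  have p1 : 2 ^ (f / 2) * 32 ≤ 2 ^ f := by
    calc 2 ^ (f / 2) * 32 = 2 ^ (f / 2 + 5) := by rw [pow_add]; norm_num
      _ ≤ 2 ^ f := Nat.pow_le_pow_right (by norm_num) (by omega)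
  have p2 : 2 ^ (f / 8) ≤ 2 ^ (f / 2) := Nat.pow_le_pow_right (by norm_num) (by omega)
  have p3 : 1 ≤ 2 ^ (f / 2) := Nat.one_le_two_pow
  have h1 := (hc (2 ^ (f / 2)) (2 ^ f) (by omega)
    (Nat.pow_le_pow_right (by norm_num) (by omega)) p2 (by omega)).1
  have hlog : Real.log ((2 ^ f : ℕ) : ℝ) = f * Real.log 2 := by
    push_cast
    rw [Real.log_pow]
  rw [hlog] at h1
  have q1 : ((2 ^ (f / 2) : ℕ) : ℝ) * 32 ≤ ((2 ^ f : ℕ) : ℝ) := by exact_mod_cast p1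
  have q3 : (0 : ℝ) ≤ ((2 ^ (f / 2) : ℕ) : ℝ) := Nat.cast_nonneg _
  have goal : ((2 ^ f : ℕ) : ℝ) ≤ f * ct ω (2 ^ f) := by
    generalize ((2 ^ f : ℕ) : ℝ) = V at *
    generalize ((2 ^ (f / 2) : ℕ) : ℝ) = U at *
    have hc0 : (0 : ℝ) ≤ ct ω (2 ^ (f / 2)) := Nat.cast_nonneg _
    have hfl : (0 : ℝ) < f * Real.log 2 := by positivity
    set D := (V - U) / (f * Real.log 2) with hD
    have hD0 : 0 ≤ D := div_nonneg (by linarith) hfl.le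
    have hDe : V - U = (f * D) * Real.log 2 := by
      rw [hD]
      field_simp
    have hX0 : 0 ≤ f * D := mul_nonneg (by linarith) hD0
    have hX1 : (f * D) * Real.log 2 ≤ (f * D) * 0.7 :=
      mul_le_mul_of_nonneg_left (by linarith) hX0
    have h2 : (1 - 1 / (f : ℝ) ^ 2) * D ≤ ct ω (2 ^ f) := by linarith
    have h3 : 0.99 * D ≤ (1 - 1 / (f : ℝ) ^ 2) * D :=
      mul_le_mul_of_nonneg_right (by linarith) hD0
    have h4 : (f : ℝ) * (0.99 * D) ≤ f * ct ω (2 ^ f) :=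
      mul_le_mul_of_nonneg_left (h3.trans h2) (by linarith)
    have h5 : (f : ℝ) * (0.99 * D) = 0.99 * (f * D) := by ring
    linarith
  exact_mod_cast goal

theorem mf_second {f : ℕ} (hf : 12 ≤ f) {ω : ℕ → Bool} (hc : ConcAt f ω) :
    2 ^ f + f * (ct ω (2 ^ (5 * f)) + 1) < 2 ^ (5 * f) := by
  have hfr : (12 : ℝ) ≤ f := by exact_mod_cast hf
  have hf2 : 1 / (f : ℝ) ^ 2 ≤ 1 / 100 :=
    one_div_le_one_div_of_le (by norm_num) (by nlinarith)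
  have l2 := Real.log_two_gt_d9
  have l2' := Real.log_two_lt_d9
  have p0 : f < 2 ^ f := Nat.lt_two_pow_self
  have p1 : 2 ^ (5 * f / 2) * 32 ≤ 2 ^ (5 * f) := by
    calc 2 ^ (5 * f / 2) * 32 = 2 ^ (5 * f / 2 + 5) := by rw [pow_add]; norm_num
      _ ≤ 2 ^ (5 * f) := Nat.pow_le_pow_right (by norm_num) (by omega)
  have p2 : 2 ^ (f / 8) ≤ 2 ^ (5 * f / 2) := Nat.pow_le_pow_right (by norm_num) (by omega)
  have p3 : 1 ≤ 2 ^ (5 * f / 2) := Nat.one_le_two_pow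
  have p4 : f * 2 ^ (5 * f / 2) * 32 ≤ 2 ^ (5 * f) := by
    calc f * 2 ^ (5 * f / 2) * 32 ≤ 2 ^ f * 2 ^ (5 * f / 2) * 32 :=
          Nat.mul_le_mul_right _ (Nat.mul_le_mul_right _ p0.le)
      _ = 2 ^ (f + 5 * f / 2 + 5) := by rw [pow_add, pow_add]; norm_num
      _ ≤ 2 ^ (5 * f) := Nat.pow_le_pow_right (by norm_num) (by omega)
  have p5 : 2 ^ f * 32 ≤ 2 ^ (5 * f) := by
    calc 2 ^ f * 32 = 2 ^ (f + 5) := by rw [pow_add]; norm_num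
      _ ≤ 2 ^ (5 * f) := Nat.pow_le_pow_right (by norm_num) (by omega)
  have h1 := (hc (2 ^ (5 * f / 2)) (2 ^ (5 * f)) (by omega)
    (Nat.pow_le_pow_right (by norm_num) (by omega)) p2 (by omega)).2
  have hlog : Real.log ((2 ^ (5 * f / 2) : ℕ) : ℝ) = ((5 * f / 2 : ℕ) : ℝ) * Real.log 2 := by
    push_cast
    rw [Real.log_pow]
  have hk : (5 * (f : ℝ) - 1) / 2 ≤ ((5 * f / 2 : ℕ) : ℝ) := by
    have h : 5 * f ≤ 2 * (5 * f / 2) + 1 := by omega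
    have h' : (5 * (f : ℝ)) ≤ 2 * ((5 * f / 2 : ℕ) : ℝ) + 1 := by exact_mod_cast h
    linarith
  rw [hlog] at h1
  have hu : ct ω (2 ^ (5 * f / 2)) ≤ 2 ^ (5 * f / 2) := Nat.count_le _
  have q1 : (ct ω (2 ^ (5 * f / 2)) : ℝ) ≤ ((2 ^ (5 * f / 2) : ℕ) : ℝ) := by exact_mod_cast hu
  have q3 : (0 : ℝ) ≤ ((2 ^ (5 * f / 2) : ℕ) : ℝ) := Nat.cast_nonneg _
  have q4 : (f : ℝ) * ((2 ^ (5 * f / 2) : ℕ) : ℝ) * 32 ≤ ((2 ^ (5 * f) : ℕ) : ℝ) := by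
    exact_mod_cast p4
  have q5 : ((2 ^ f : ℕ) : ℝ) * 32 ≤ ((2 ^ (5 * f) : ℕ) : ℝ) := by exact_mod_cast p5
  have q6 : (f : ℝ) < ((2 ^ f : ℕ) : ℝ) := by exact_mod_cast p0
  have q7 : (0 : ℝ) < ((2 ^ (5 * f) : ℕ) : ℝ) := by positivity
  have goal : ((2 ^ f : ℕ) : ℝ) + f * (ct ω (2 ^ (5 * f)) + 1) < ((2 ^ (5 * f) : ℕ) : ℝ) := by
    generalize ((2 ^ (5 * f) : ℕ) : ℝ) = V at *
    generalize ((2 ^ (5 * f / 2) : ℕ) : ℝ) = U at *
    generalize ((5 * f / 2 : ℕ) : ℝ) = K at *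
    generalize ((2 ^ f : ℕ) : ℝ) = T at *
    have hK : 1.7 * (f : ℝ) ≤ K * Real.log 2 := by
      have e1 : (5 * (f : ℝ) - 1) / 2 * Real.log 2 ≤ K * Real.log 2 :=
        mul_le_mul_of_nonneg_right hk (by linarith)
      have e2 : (5 * (f : ℝ) - 1) / 2 * 0.6931 ≤ (5 * (f : ℝ) - 1) / 2 * Real.log 2 :=
        mul_le_mul_of_nonneg_left (by linarith) (by linarith)
      linarith
    have hKpos : (0 : ℝ) < 1.7 * (f : ℝ) := by linarith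
    have h2 : (V - U) / (K * Real.log 2) ≤ V / (1.7 * f) :=
      div_le_div₀ q7.le (by linarith) hKpos hK
    have h3 : (1 + 1 / (f : ℝ) ^ 2) * ((V - U) / (K * Real.log 2)) ≤ 1.01 * (V / (1.7 * f)) :=
      mul_le_mul (by linarith) h2 (div_nonneg (by nlinarith) (by linarith)) (by norm_num)
    have h4 : (ct ω (2 ^ (5 * f)) : ℝ) ≤ U + 1.01 * (V / (1.7 * f)) := by linarith
    have h5 : (f : ℝ) * ct ω (2 ^ (5 * f)) ≤ f * (U + 1.01 * (V / (1.7 * f))) :=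
      mul_le_mul_of_nonneg_left h4 (by linarith)
    have h6 : (f : ℝ) * (U + 1.01 * (V / (1.7 * f))) = f * U + 1.01 / 1.7 * V := by
      have : (f : ℝ) ≠ 0 := by linarith
      field_simp
    have h7 : (1.01 / 1.7 : ℝ) * V ≤ 0.6 * V := mul_le_mul_of_nonneg_right (by norm_num) q7.le
    linarith
  exact_mod_cast goal

theorem le_two_pow_third {f : ℕ} (hf : 12 ≤ f) : f ≤ 2 ^ (f / 3) := by
  have key : ∀ k : ℕ, 4 ≤ k → 3 * k + 2 ≤ 2 ^ k := by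
    intro k hk
    induction k, hk using Nat.le_induction with
    | base => norm_num
    | succ k hk ih =>
      rw [pow_succ]
      omega
  have h := key (f / 3) (by omega)
  omega

theorem mf_conc : ∀ᶠ f : ℕ in atTop, ∀ ω : ℕ → Bool, ConcAt f ω →
    W ω f (2 ^ f) ≤ 0 ∧ (((2 ^ (f / 3) : ℕ) : ℤ)) ^ 2 < W ω f (2 ^ (5 * f)) ∧
      2 ^ f / f ≤ ct ω (2 ^ f) + 1 ∧ (2 ^ (f / 3)) ^ 2 ≤ ct ω (2 ^ f) + 1 := by
  filter_upwards [eventually_ge_atTop 12] with f hf ω hc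
  have h1 := mf_first hf hc
  have h2 := mf_second hf hc
  have h3 := le_two_pow_third hf
  have h4 : f * (ct ω (2 ^ f) + 1) = f * ct ω (2 ^ f) + f := by ring
  have h5 : 2 ^ f ≤ f * (ct ω (2 ^ f) + 1) := by omega
  refine ⟨?_, ?_, ?_, ?_⟩
  · unfold W
    have h : ((2 ^ f : ℕ) : ℤ) ≤ f * (ct ω (2 ^ f) + 1) := by exact_mod_cast h5
    linarith
  · unfold W
    have h6 : (2 ^ (f / 3)) ^ 2 ≤ 2 ^ f := by
      rw [← pow_mul]
      exact Nat.pow_le_pow_right (by norm_num) (by omega)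
    have h7 : (2 ^ (f / 3)) ^ 2 + f * (ct ω (2 ^ (5 * f)) + 1) < 2 ^ (5 * f) := by omega
    have h8 : (((2 ^ (f / 3) : ℕ) : ℤ)) ^ 2 + f * (ct ω (2 ^ (5 * f)) + 1) <
        ((2 ^ (5 * f) : ℕ) : ℤ) := by exact_mod_cast h7
    linarith
  · exact Nat.div_le_of_le_mul h5
  · have h6 : (2 ^ (f / 3)) ^ 2 * f ≤ (ct ω (2 ^ f) + 1) * f := by
      calc (2 ^ (f / 3)) ^ 2 * f ≤ (2 ^ (f / 3)) ^ 2 * 2 ^ (f / 3) := Nat.mul_le_mul_left _ h3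
        _ = 2 ^ (3 * (f / 3)) := by
          rw [← pow_succ, ← pow_mul, mul_comm]
        _ ≤ 2 ^ f := Nat.pow_le_pow_right (by norm_num) (by omega)
        _ ≤ f * (ct ω (2 ^ f) + 1) := h5
        _ = (ct ω (2 ^ f) + 1) * f := mul_comm _ _
    exact Nat.le_of_mul_le_mul_right h6 (by omega)

end Pool.Agent.RS88
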