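import Pool.Agent.RS88.DepA

/-!
# The walk `W` is skip-free upwards

`W_succ`: `ct ω (y+1) = ct ω y + (if ω y then 1 else 0)`.

`trials`: for every `1 ≤ s ≤ S` let `y` be the least `y ≥ N` with `W y ≥ s ^ 2` (`V` is such a `y`);
`y > N` since `W N ≤ 0`, and `W y ≤ W (y-1) + 1 ≤ s ^ 2`. So `W y = s ^ 2`, `y ≠ V` since
`W V > S ^ 2`; the `y` of different `s` are different.

`success`: `m = ct ω y + 1`, `elt ω m = y` (`Nat.nth_count`), `W y = s ^ 2` says `y = f m + s ^ 2`, and
`1 ≤ s ^ 2 ≤ S ^ 2 ≤ ct ω N + 1 ≤ m`; so `res ω m = (f m + s ^ 2 - 1) % m + 1 = s ^ 2`.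

`card_msq`: `y ↦ ct ω y + 1` is injective on the `y` with `ω y = true`.
-/

set_option autoImplicit false

namespace Pool.Agent.RS88

open MeasureTheory Filter

theorem tr_dep (f N S y : ℕ) :
    Dep ((Finset.range y : Finset ℕ) : Set ℕ) {ω | Tr f N S ω y} := by
  intro ω ω' h
  have hct : ∀ z, z ≤ y → ct ω z = ct ω' z := by
    intro z
    induction z with
    | zero =>
      intro _
      simp [ct]
    | succ z ih =>
      intro hz
      have h1 := ih (by omega)
      have h2 : ω z = ω' z := h z (by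
        rw [Finset.mem_coe, Finset.mem_range]
        omega)
      unfold ct at h1 ⊢
      rw [Nat.count_succ, Nat.count_succ, h1, h2]
  have hW : ∀ z, z ≤ y → W ω f z = W ω' f z := by
    intro z hz
    unfold W
    rw [hct z hz]
  show Tr f N S ω y ↔ Tr f N S ω' y
  unfold Tr
  rw [hW y le_rfl]
  constructor
  · rintro ⟨hN, s, h1, h2, h3, h4⟩
    exact ⟨hN, s, h1, h2, h3, fun z h5 h6 => by rw [← hW z h6.le]; exact h4 z h5 h6⟩
  · rintro ⟨hN, s, h1, h2, h3, h4⟩
    exact ⟨hN, s, h1, h2, h3, fun z h5 h6 => by rw [hW z h6.le]; exact h4 z h5 h6⟩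

end Pool.Agent.RS88
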