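import Pool.Agent.RS88.Elt

/-!
# RS88/CaseAS8: the residues of the large summand, first case
-/

set_option autoImplicit false

namespace Pool.Agent.RS88.CaseAS8

open MeasureTheory Filter

theorem fib_card {r : ℕ → ℕ} {M : Finset ℕ} {L : ℕ}
    (h : ∀ m ∈ M, ∀ m' ∈ M, m + L ≤ m' → r m ≠ r m') :
    M.card ≤ L * (M.image r).card := by
  classical
  refine Finset.card_le_mul_card_image M L fun b _ => ?_
  rcases (M.filter (fun x => r x = b)).eq_empty_or_nonempty with h0 | h0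
  · rw [h0]
    simp
  · obtain ⟨a, ha, hmin⟩ := Finset.exists_min_image _ (fun x : ℕ => x) h0
    have hsub : M.filter (fun x => r x = b) ⊆ Finset.Ico a (a + L) := by
      intro m hm
      have h1 := hmin m hm
      rw [Finset.mem_Ico]
      refine ⟨h1, ?_⟩
      by_contra h2
      rw [Finset.mem_filter] at ha hm
      exact h a ha.1 m hm.1 (by omega) (ha.2.trans hm.2.symm)
    calc (M.filter (fun x => r x = b)).card ≤ (Finset.Ico a (a + L)).card :=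
          Finset.card_le_card hsub
      _ = L := by simp

theorem pow_pos' (k : ℕ) : 0 < 2 ^ k := Nat.pow_pos (by norm_num)

theorem num1 {f : ℕ} (hf : 16 ≤ f) : 2 ^ (f / 8) ≤ 2 ^ f / f := by
  rw [Nat.le_div_iff_mul_le (by omega)]
  have h1 : f / 2 < 2 ^ (f / 2) := Nat.lt_two_pow_self
  have h2 : f ≤ 2 ^ (f / 2 + 1) := by
    rw [pow_succ]
    omega
  calc 2 ^ (f / 8) * f ≤ 2 ^ (f / 8) * 2 ^ (f / 2 + 1) := Nat.mul_le_mul_left _ h2
    _ = 2 ^ (f / 8 + (f / 2 + 1)) := (pow_add _ _ _).symm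
    _ ≤ 2 ^ f := Nat.pow_le_pow_right (by norm_num) (by omega)

theorem num2 {f : ℕ} (hf : 16 ≤ f) : 1000 * f * 2 ^ (5 * f) + 2 ^ (5 * f) ≤ 2 ^ (15 * f) := by
  have h1 : f ≤ 2 ^ f := Nat.lt_two_pow_self.le
  have h2 : 1000 ≤ 2 ^ f := by
    calc 1000 ≤ 2 ^ 16 := by norm_num
      _ ≤ 2 ^ f := Nat.pow_le_pow_right (by norm_num) hf
  have h3 : 1000 * f * 2 ^ (5 * f) ≤ 2 ^ f * 2 ^ f * 2 ^ (5 * f) :=
    Nat.mul_le_mul_right _ (Nat.mul_le_mul h2 h1)
  have h4 : 2 ^ f * 2 ^ f * 2 ^ (5 * f) = 2 ^ (7 * f) := by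
    rw [← pow_add, ← pow_add]
    congr 1
    omega
  have h5 : 2 ^ (5 * f) ≤ 2 ^ (7 * f) := Nat.pow_le_pow_right (by norm_num) (by omega)
  calc 1000 * f * 2 ^ (5 * f) + 2 ^ (5 * f) ≤ 2 ^ (7 * f) + 2 ^ (7 * f) := by omega
    _ = 2 ^ (7 * f + 1) := by rw [pow_succ]; omega
    _ ≤ 2 ^ (15 * f) := Nat.pow_le_pow_right (by norm_num) (by omega)

theorem caseA : ∀ᶠ f : ℕ in atTop, ∀ (ω : ℕ → Bool) (n : ℕ) (M : Finset ℕ),
    2 ^ (320 * f) ≤ n → Slp f n ω → 2 ^ (15 * f) < elt ω n % n →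
    (∀ m ∈ M, 2 ^ f / f ≤ m ∧ m ≤ 2 ^ (5 * f)) →
    (∀ m ∈ M, 2 ^ (5 * f) < res ω (n - m) ∧ res ω (n - m) ≤ n) ∧
      M.card ≤ 2 ^ (f / 8) * (M.image (fun m => res ω (n - m))).card := by
  filter_upwards [eventually_ge_atTop 16] with f hf ω n M hn hS hR hM
  have a1 : 2 ^ (5 * f) < n := lt_of_lt_of_le (Nat.pow_lt_pow_right (by norm_num) (by omega)) hn
  have a2 : 2 ^ (5 * f) ≤ 2 ^ (100 * f) := Nat.pow_le_pow_right (by norm_num) (by omega)
  have a3 := num1 hf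
  have a4 := num2 hf
  have p5 : 0 < 2 ^ (5 * f) := Nat.pow_pos (by norm_num)
  have p8 : 0 < 2 ^ (f / 8) := Nat.pow_pos (by norm_num)
  have p0 : 0 < n := lt_trans p5 a1
  have a4' : (1000 : ℝ) * f * 2 ^ (5 * f) + 2 ^ (5 * f) ≤ 2 ^ (15 * f) := by exact_mod_cast a4
  have hn0 : (0 : ℝ) < n := by exact_mod_cast p0
  obtain ⟨y, hy⟩ : ∃ y, y = elt ω n := ⟨_, rfl⟩
  obtain ⟨g, hg⟩ : ∃ g, g = y / n := ⟨_, rfl⟩
  obtain ⟨R, hR'⟩ : ∃ R, R = y % n := ⟨_, rfl⟩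
  have hRn : R < n := by
    rw [hR']
    exact Nat.mod_lt _ p0
  rw [← hy, ← hR'] at hR
  have hdiv : y = g * n + R := by
    rw [hg, hR']
    exact (Nat.div_add_mod' y n).symm
  have hdiv' : (y : ℝ) = g * n + R := by exact_mod_cast hdiv
  have hRn' : (R : ℝ) < n := by exact_mod_cast hRn
  have hR0 : (0 : ℝ) ≤ R := Nat.cast_nonneg _
  have hR2 : (2 : ℝ) ^ (15 * f) < R := by exact_mod_cast hR
  obtain ⟨ρ, hρ⟩ : ∃ ρ : ℝ, ρ = (y : ℝ) / n := ⟨_, rfl⟩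
  have hρ0 : ρ * n = y := by
    rw [hρ]
    field_simp
  have hρ1 : (g : ℝ) ≤ ρ := by
    rw [hρ, le_div_iff₀ hn0]
    linarith
  have hρ2 : ρ ≤ g + 1 := by
    rw [hρ, div_le_iff₀ hn0]
    linarith
  have hlo : ∀ k' k : ℕ, n ≤ k' + 2 ^ (100 * f) → k' + 2 ^ (f / 8) ≤ k → k ≤ n →
      (ρ + 1 / 5) * ((k : ℝ) - k') ≤ (elt ω k : ℝ) - elt ω k' := by
    intro k' k h1 h2 h3
    have := hS.lo k' k h1 h2 h3
    rw [← hy, ← hρ] at this
    exact this
  have key : ∀ m ∈ M, m < n ∧ 2 ^ (f / 8) ≤ m ∧ m ≤ 2 ^ (5 * f) ∧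
      ∃ x, elt ω (n - m) = g * (n - m) + x ∧ 2 ^ (5 * f) < x ∧ x ≤ n - m := by
    intro m hm
    obtain ⟨m1, m2⟩ := hM m hm
    have m3 : 2 ^ (f / 8) ≤ m := a3.trans m1
    have m4 : m < n := lt_of_le_of_lt m2 a1
    have m5 : m ≤ 2 ^ (100 * f) := m2.trans a2
    clear a3 m1
    refine ⟨m4, m3, m2, ?_⟩
    obtain ⟨k, hk⟩ : ∃ k, n = k + m := ⟨n - m, by omega⟩
    have hk' : n - m = k := by omega
    rw [hk']
    have l1 := hlo k n (by omega) (by omega) le_rfl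
    have l2 := hS.hi k n (by omega) (by omega) le_rfl
    rw [← hy] at l1 l2
    have hnk : (n : ℝ) = k + m := by exact_mod_cast hk
    have hnk' : (n : ℝ) - k = m := by rw [hnk]; ring
    rw [hnk'] at l1 l2
    have hm0 : (0 : ℝ) ≤ m := Nat.cast_nonneg _
    have hk0 : (0 : ℝ) ≤ k := Nat.cast_nonneg _
    have hg0 : (0 : ℝ) ≤ g := Nat.cast_nonneg _
    have hm2 : (m : ℝ) ≤ 2 ^ (5 * f) := by exact_mod_cast m2
    have u1 : (elt ω k : ℝ) ≤ g * k + k := by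
      have e1 : ρ * k = y - ρ * m := by
        rw [← hρ0, hnk]
        ring
      have e2 : ρ * k ≤ (g + 1) * k := mul_le_mul_of_nonneg_right hρ2 hk0
      nlinarith
    have u2 : (g : ℝ) * k + 2 ^ (5 * f) < elt ω k := by
      have e1 : (1000 : ℝ) * f * m ≤ 1000 * f * 2 ^ (5 * f) :=
        mul_le_mul_of_nonneg_left hm2 (by positivity)
      have e2 : (y : ℝ) = g * k + g * m + R := by
        rw [hdiv', hnk]
        ring
      have e3 : 0 ≤ (g : ℝ) * m := mul_nonneg hg0 hm0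
      linarith
    have u1' : elt ω k ≤ g * k + k := by exact_mod_cast u1
    have u2' : g * k + 2 ^ (5 * f) < elt ω k := by exact_mod_cast u2
    exact ⟨elt ω k - g * k, by omega, by omega, by omega⟩
  refine ⟨?_, ?_⟩
  · intro m hm
    obtain ⟨k1, k2, k3, x, k4, k5, k6⟩ := key m hm
    rw [res_eq (by omega) k6 k4]
    exact ⟨k5, by omega⟩
  · refine fib_card fun m hm m' hm' hmm => ?_
    obtain ⟨k1, k2, k3, x, k4, k5, k6⟩ := key m hm
    obtain ⟨k1', k2', k3', x', k4', k5', k6'⟩ := key m' hm'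
    rw [res_eq (by omega) k6 k4, res_eq (by omega) k6' k4']
    have l1 := hlo (n - m') (n - m) (by omega) (by omega) (by omega)
    have e1 : ((n - m : ℕ) : ℝ) = n - m := by rw [Nat.cast_sub k1.le]
    have e2 : ((n - m' : ℕ) : ℝ) = n - m' := by rw [Nat.cast_sub k1'.le]
    have k4r : (elt ω (n - m) : ℝ) = g * (n - m) + x := by
      rw [k4]
      push_cast
      rw [e1]
    have k4r' : (elt ω (n - m') : ℝ) = g * (n - m') + x' := by
      rw [k4']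
      push_cast
      rw [e2]
    rw [e1, e2, k4r, k4r'] at l1
    have hpos : 0 < 2 ^ (f / 8) := Nat.pow_pos (by norm_num)
    have hmm' : (m : ℝ) < m' := by
      have : m < m' := by omega
      exact_mod_cast this
    have hlt : (x' : ℝ) < x := by
      have e3 : (g : ℝ) * (m' - m) ≤ ρ * (m' - m) :=
        mul_le_mul_of_nonneg_right hρ1 (by linarith)
      nlinarith
    intro hxx
    rw [hxx] at hlt
    exact lt_irrefl _ hlt

end Pool.Agent.RS88.CaseAS8
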