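import Pool.Agent.RS88.Defs

/-!
# The residues of the large summand miss the set with small probability

`bad_le`: if `ω` is in `Bad n L Z T` and `q = ct ω (n+1)` (`≤ n / 2`), then for `m ∈ Msq ω L Z`, `k = n - m` is
`> q` (`m ≤ Z ≤ n/4`) and `≤ ct ω (n^2)`, so by `fill_msq`, `fill_ct`, `fill_res` `ω` is in
`E q R ∩ {no element in R}`, `E q R` = the event of `fill_dep`, `R` = the image, a subset of `(Z, n]` with at least `T`
elements. For fixed `q` the events `E q R` are disjoint; `dep_inter` with `S = range (n^2) \ Icc Z n`, `T = R`, and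
`1 - pr i ≤ 1 - 1 / log n` for `3 ≤ i ≤ n`. Sum over `R` and over `q ≤ n`.

`sum_num`: with `f = Nat.log 2 n / 320`, `T = 2 ^ (f/4 - f/8) ≥ 2 ^ (f/8 - 1)`, `n < 2 ^ (320 (f+1))`:
`(n+1) (1 - 1/log n)^T ≤ (n+1) exp (-T / log n) ≤ n ^ (-2)` for large `n`.
-/

set_option autoImplicit false

namespace Pool.Agent.RS88

open MeasureTheory Filter

theorem Num_ev : ∀ᶠ q : ℕ in atTop, 4 * 2560 ^ 2 * ((q : ℝ) + 1) ^ 2 ≤ 2 ^ q := by
  have h1 := tendsto_pow_const_div_const_pow_of_one_lt 2 (by norm_num : (1 : ℝ) < 2)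
  have h2 : (0 : ℝ) < 1 / (16 * 2560 ^ 2) := by norm_num
  filter_upwards [h1.eventually_lt_const h2, eventually_ge_atTop 1] with q hq hq1
  have hq1' : (1 : ℝ) ≤ q := by exact_mod_cast hq1
  have h3 : (0 : ℝ) < 2 ^ q := by positivity
  rw [div_lt_div_iff₀ h3 (by norm_num)] at hq
  nlinarith

theorem Num_main {n q : ℕ} (hn3 : 3 ≤ n)
    (hq : q = Nat.log 2 n / 320 / 8) (hbig : 4 * 2560 ^ 2 * ((q : ℝ) + 1) ^ 2 ≤ 2 ^ q) :
    ‖((n : ℝ) + 1) * (1 - 1 / Real.log n) ^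
      (2 ^ (Nat.log 2 n / 320 / 4 - Nat.log 2 n / 320 / 8))‖ ≤ 1 / (n : ℝ) ^ 2 := by
  have hn3' : (3 : ℝ) ≤ n := by exact_mod_cast hn3
  have hn0 : (0 : ℝ) < n := by linarith
  have hlog1 : (1 : ℝ) ≤ Real.log n := log_three.trans (Real.log_le_log (by norm_num) hn3')
  have hlog0 : (0 : ℝ) < Real.log n := by linarith
  have hL : Nat.log 2 n + 1 ≤ 2560 * (q + 1) := by omega
  have hlog2 : Real.log n ≤ 2560 * ((q : ℝ) + 1) := by
    have hn2 : n < 2 ^ (2560 * (q + 1)) :=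
      (Nat.lt_pow_succ_log_self (by norm_num) n).trans_le (Nat.pow_le_pow_right (by norm_num) hL)
    have h1 : (n : ℝ) ≤ (2 : ℝ) ^ (2560 * (q + 1)) := by exact_mod_cast hn2.le
    have h2 := Real.log_le_log hn0 h1
    rw [Real.log_pow] at h2
    have h3 : Real.log 2 ≤ 1 := by
      have := Real.log_two_lt_d9
      linarith
    have h4 : ((2560 * (q + 1) : ℕ) : ℝ) * Real.log 2 ≤ ((2560 * (q + 1) : ℕ) : ℝ) * 1 :=
      mul_le_mul_of_nonneg_left h3 (Nat.cast_nonneg _)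
    push_cast at h2 h4
    linarith
  set T : ℕ := 2 ^ (Nat.log 2 n / 320 / 4 - Nat.log 2 n / 320 / 8) with hT
  have hTq : (2 : ℝ) ^ q ≤ T := by
    have h1 : 2 ^ q ≤ T := Nat.pow_le_pow_right (by norm_num) (by omega)
    exact_mod_cast h1
  have hT1 : 4 * Real.log n * Real.log n ≤ T := by
    have h1 : Real.log n * Real.log n ≤ (2560 * ((q : ℝ) + 1)) * (2560 * ((q : ℝ) + 1)) :=
      mul_le_mul hlog2 hlog2 hlog0.le (by positivity)
    nlinarith
  have hx0 : (0 : ℝ) ≤ 1 - 1 / Real.log n := by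
    rw [sub_nonneg, div_le_one hlog0]
    exact hlog1
  have h1 : (1 - 1 / Real.log n) ^ T ≤ Real.exp (-(4 * Real.log n)) := by
    have h2 : 1 - 1 / Real.log n ≤ Real.exp (-(1 / Real.log n)) := Real.one_sub_le_exp_neg _
    have h3 := pow_le_pow_left₀ hx0 h2 T
    refine h3.trans ?_
    rw [← Real.exp_nat_mul, Real.exp_le_exp]
    have h4 : 4 * Real.log n ≤ (T : ℝ) * (1 / Real.log n) := by
      rw [mul_one_div, le_div_iff₀ hlog0]
      exact hT1
    linarith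
  have h5 : Real.exp (-(4 * Real.log n)) = 1 / (n : ℝ) ^ 4 := by
    have h6 : Real.exp (4 * Real.log n) = (n : ℝ) ^ 4 := by
      have h7 := Real.exp_nat_mul (Real.log n) 4
      rw [Real.exp_log hn0] at h7
      exact_mod_cast h7
    rw [Real.exp_neg, h6, one_div]
  rw [h5] at h1
  rw [Real.norm_eq_abs, abs_of_nonneg (mul_nonneg (by positivity) (pow_nonneg hx0 _))]
  have h8 : ((n : ℝ) + 1) * (1 - 1 / Real.log n) ^ T ≤ ((n : ℝ) + 1) * (1 / (n : ℝ) ^ 4) :=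
    mul_le_mul_of_nonneg_left h1 (by positivity)
  refine h8.trans ?_
  rw [mul_one_div, div_le_div_iff₀ (by positivity) (by positivity)]
  have h9 : (n : ℝ) + 1 ≤ (n : ℝ) ^ 2 := by nlinarith
  have h10 : (0 : ℝ) ≤ (n : ℝ) ^ 2 := by positivity
  nlinarith

theorem sum_num : Summable fun n : ℕ => ((n : ℝ) + 1) * (1 - 1 / Real.log n) ^
    (2 ^ (Nat.log 2 n / 320 / 4 - Nat.log 2 n / 320 / 8)) := by
  have h1 : Summable fun n : ℕ => 1 / (n : ℝ) ^ 2 :=
    Real.summable_one_div_nat_pow.2 (by norm_num)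
  refine Summable.of_norm_bounded_eventually_nat h1 ?_
  obtain ⟨Q, hQ⟩ := eventually_atTop.1 Num_ev
  filter_upwards [eventually_ge_atTop (2 ^ (2560 * Q)), eventually_ge_atTop 3] with n hn hn3
  refine Num_main hn3 rfl (hQ _ ?_)
  have h2 : 2560 * Q ≤ Nat.log 2 n := Nat.le_log_of_pow_le (by norm_num) hn
  omega

end Pool.Agent.RS88
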