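import Pool.Agent.RS88.SlopeA

/-!
# RS88/WinS78: the number of elements in an interval near `elt ω n`
-/

set_option autoImplicit false

namespace Pool.Agent.RS88.WinS78

open MeasureTheory Filter Pool.Agent.RS88

theorem pow2 {f n : ℕ} (hf : 10 ≤ f) (hn2 : n < 2 ^ (320 * (f + 1))) :
    2 * n ^ 2 ≤ 2 ^ (1000 * f) := by
  have h3 : 640 * (f + 1) + 1 ≤ 1000 * f := by
    clear hn2
    omega
  have he : 320 * (f + 1) * 2 = 640 * (f + 1) := by ring
  calc 2 * n ^ 2 ≤ 2 * (2 ^ (320 * (f + 1))) ^ 2 :=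
        Nat.mul_le_mul_left _ (Nat.pow_le_pow_left hn2.le 2)
    _ = 2 ^ (640 * (f + 1) + 1) := by rw [← pow_mul, he, pow_succ, mul_comm]
    _ ≤ 2 ^ (1000 * f) := Nat.pow_le_pow_right (by norm_num) h3

/-- the two estimates from the bounds for the logarithms -/
theorem num {f h la lv L : ℝ} (hf : 60000 ≤ f) (hh : 0 ≤ h) (hL : 1 ≤ L) (hL1 : L ≤ 499 * f)
    (hla : L - 102 / 10000 ≤ la) (hlv : lv ≤ L + 7 / 10) (hlv0 : 0 < lv) :
    (1 + 1 / f ^ 2) * (h / la) ≤ h / (L - 1 / 50) ∧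
      h / (600 * f) ≤ (1 - 1 / f ^ 2) * (h / lv) := by
  have hf0 : 0 < f := by linarith
  have hla0 : 0 < la := by linarith
  have hLl : 0 < L - 1 / 50 := by linarith
  refine ⟨?_, ?_⟩
  · rw [← mul_div_assoc, div_le_div_iff₀ hla0 hLl]
    have h1 : 1 / f ^ 2 * (L - 1 / 50) ≤ 84 / 10000 := by
      have h2 : 1 / f ^ 2 * (L - 1 / 50) ≤ 1 / f ^ 2 * (500 * f) :=
        mul_le_mul_of_nonneg_left (by linarith) (by positivity)
      have h3 : 1 / f ^ 2 * (500 * f) = 500 / f := by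
        field_simp
      have h4 : 500 / f ≤ 84 / 10000 := by
        rw [div_le_iff₀ hf0]
        linarith
      linarith
    have h5 : (1 + 1 / f ^ 2) * (L - 1 / 50) ≤ la := by linarith
    calc (1 + 1 / f ^ 2) * h * (L - 1 / 50) = h * ((1 + 1 / f ^ 2) * (L - 1 / 50)) := by ring
      _ ≤ h * la := mul_le_mul_of_nonneg_left h5 hh
  · have h1 : 1 / f ^ 2 ≤ 1 / 6 := by
      apply one_div_le_one_div_of_le (by norm_num)
      nlinarith
    have h2 : h / (500 * f) ≤ h / lv :=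
      div_le_div_of_nonneg_left hh hlv0 (by linarith)
    have h3 : h / (600 * f) = 5 / 6 * (h / (500 * f)) := by
      field_simp
      ring
    rw [h3]
    exact mul_le_mul (by linarith) h2 (by positivity) (by linarith)

theorem window : ∀ᶠ f : ℕ in atTop, ∀ (ω : ℕ → Bool) (n : ℕ), ConcAt f ω →
    2 ^ (320 * f) ≤ n → n < 2 ^ (320 * (f + 1)) → ∀ a h : ℕ,
    99 / 100 * (elt ω n : ℝ) ≤ a → (a : ℝ) + h ≤ 2 * elt ω n → 2 ^ (f / 8) ≤ h →
    (ct ω (a + h) : ℝ) - ct ω a ≤ h / (Real.log (elt ω n) - 1 / 50) ∧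
      (h : ℝ) / (600 * f) ≤ (ct ω (a + h) : ℝ) - ct ω a := by
  filter_upwards [few_many, eventually_ge_atTop 60000] with f hfm hf ω n hC hn1 hn2 a h ha hah hh
  have hf10 : 10 ≤ f := le_trans (by norm_num) hf
  obtain ⟨k1, -, k3⟩ := hfm ω n hC hn1 hn2
  obtain ⟨hSn, hfn⟩ := fm_size1 hf10 hn1
  have hn0 : 0 < n := lt_of_le_of_lt (Nat.zero_le _) hfn
  obtain ⟨-, hlogn⟩ := fm_size2 hf10 hn0 hn2
  have hp2 := pow2 hf10 hn2
  have hyV : elt ω n < n ^ 2 := elt_lt (V := n ^ 2) hn0 k1.le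
  have hS100 : 2 ^ (100 * f) ≤ n := (Nat.le_mul_of_pos_left _ (by norm_num)).trans hSn
  have h8 : 2 ^ (f / 8) ≤ n := (fm_pow8 f).trans hS100
  have hlogS := fm_logS f
  have hlognS : 60 * (f : ℝ) ≤ Real.log n := by
    refine hlogS.trans (Real.log_le_log ?_ (Nat.cast_le.2 hS100))
    exact Nat.cast_pos.2 (by positivity)
  clear hn1 hn2 hfm hSn hS100 hlogS
  have hh0 : 0 < h := lt_of_lt_of_le (by positivity) hh
  have hnr : (0 : ℝ) < n := by exact_mod_cast hn0
  have k3r : 3 * (n : ℝ) ≤ (elt ω n : ℝ) := by exact_mod_cast k3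
  have hna : n ≤ a := by
    have : (n : ℝ) ≤ a := by linarith
    exact_mod_cast this
  have hahN : a + h ≤ 2 * elt ω n := by exact_mod_cast hah
  have hv : a + h ≤ 2 ^ (1000 * f) := by
    refine le_trans (hahN.trans ?_) hp2
    exact Nat.mul_le_mul_left _ hyV.le
  obtain ⟨e1, e2⟩ := hC a (a + h) (Nat.lt_add_of_pos_right hh0) hv (h8.trans hna)
    (by rw [Nat.add_sub_cancel_left]; exact hh)
  have hcast : ((a + h : ℕ) : ℝ) - (a : ℝ) = h := by push_cast; ring
  rw [hcast] at e1 e2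
  clear hC hv hp2 k1 k3
  have hfr : (60000 : ℝ) ≤ f := by exact_mod_cast hf
  have hy0 : (0 : ℝ) < (elt ω n : ℝ) := by linarith
  have hyn : (elt ω n : ℝ) ≤ (n : ℝ) ^ 2 := by exact_mod_cast hyV.le
  have hlog2 := Real.log_two_lt_d9
  have hlog2' := Real.log_two_gt_d9
  have hL1 : Real.log (elt ω n) ≤ 499 * f := by
    have h1 : Real.log (elt ω n) ≤ 2 * Real.log n := by
      have := Real.log_le_log hy0 hyn
      rwa [Real.log_pow, Nat.cast_ofNat] at this
    have h2 : 320 * ((f : ℝ) + 1) * Real.log 2 ≤ 320 * ((f : ℝ) + 1) * 0.6931471808 :=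
      mul_le_mul_of_nonneg_left hlog2.le (by positivity)
    linarith
  have hL0 : 60 * (f : ℝ) ≤ Real.log (elt ω n) :=
    hlognS.trans (Real.log_le_log hnr (by linarith))
  have hla : Real.log (elt ω n) - 102 / 10000 ≤ Real.log a := by
    have h1 : Real.log (99 / 100 * (elt ω n : ℝ)) ≤ Real.log a :=
      Real.log_le_log (by positivity) ha
    rw [Real.log_mul (by norm_num) hy0.ne'] at h1
    have h2 := Real.one_sub_inv_le_log_of_pos (show (0 : ℝ) < 99 / 100 by norm_num)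
    have h3 : (1 : ℝ) - (99 / 100)⁻¹ = -(1 / 99) := by norm_num
    rw [h3] at h2
    linarith
  have har : (1 : ℝ) < (a : ℝ) + h := by
    have h1 : (n : ℝ) ≤ a := by exact_mod_cast hna
    have h2 : (1 : ℝ) ≤ h := by exact_mod_cast hh0
    linarith
  have hlv : Real.log ((a + h : ℕ) : ℝ) ≤ Real.log (elt ω n) + 7 / 10 := by
    have h1 : Real.log ((a + h : ℕ) : ℝ) ≤ Real.log (2 * (elt ω n : ℝ)) := by
      apply Real.log_le_log
      · push_cast
        linarith
      · push_cast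
        exact hah
    rw [Real.log_mul (by norm_num) hy0.ne'] at h1
    linarith
  have hlv0 : 0 < Real.log ((a + h : ℕ) : ℝ) := by
    apply Real.log_pos
    push_cast
    exact har
  obtain ⟨g1, g2⟩ := num (f := f) (h := h) hfr (Nat.cast_nonneg h) (by linarith) hL1 hla hlv hlv0
  exact ⟨e2.trans g1, g2.trans e1⟩

end Pool.Agent.RS88.WinS78
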