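import Pool.Agent.RS88.SlopeA
import Pool.Agent.RS88.WinS78

/-!
# The local slope

`2 ^ (320 f) ≤ n < 2 ^ (320 (f+1))`, `ConcAt f ω`, `y = elt ω n`; `220 f ≤ log n ≤ 222 f + 222`, `log (n^2) ≤ 500 f`.

`few_many`: `n ^ 2 ≤ 2 ^ (1000 f)`. `ct ω (n^2) > n` and `2 * ct ω (n+1) ≤ n`, `ct ω (3 n) < n` (so `3 n ≤ elt ω n` by
`le_elt_iff`) by `ConcAt` for `[2^(100 f), V)` and `ct ω (2^(100 f)) ≤ 2^(100 f)`; `log (2^(100f)) ≥ 60 f`.

`ratio`: with `s = 2^(100 f)`, `h = y / 2` (natural division), `ct ω y = n - 1`,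
`n - 1 ≥ ct ω y - ct ω s ≥ (1 - 1/f²) ((h - s) / log h + (y - h) / log y)`, `log h ≤ log y - 0.69`, so
`n ≥ (1 - 1/f²) (y - s) / log y * (1 + 0.34 / log y)`, and `log y ≤ 500 f`: `n ≥ y / (log y - 0.3)`.

`window`: in an interval `[a, a + h)` with `a ≥ 0.99 y`, `a + h ≤ 2 y`, `h ≥ 2^(f/8)`, there are at most
`(1 + 1/f²) h / log a ≤ h / (log y - 0.02)` elements (`log a ≥ log y - 0.0101`, `log y ≤ 500 f`) and at least `h / (600 f)`.

`slope`: `k', k` as in `Slp.lo`, `a = elt ω k'`. First `a ≥ 0.99 y`: otherwise the interval `[0.99 y, y)` contains at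
most `2^(100 f)` elements, but it contains at least `0.01 y / (600 f)`. `[a, elt ω k)` contains exactly `k - k'` elements.
If `elt ω k - a < (y/n + 1/5)(k - k')`, then the interval `[a, a + h)`, `h = ⌈(y/n + 1/5)(k - k')⌉` contains at least
`k - k'` elements, but at most `h / (log y - 0.02) ≤ ((y/n + 1/5)(k-k') + 1) / (log y - 0.02) < k - k'` by `ratio`
(`y/n + 1/5 ≤ log y - 0.1`, `k - k' ≥ 2^(f/8)` is large). `hi`: if `elt ω k - a > 1000 f (k - k')` then `[a, a + 1000 f (k-k'))`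
contains at most `k - k'` elements, but at least `1000 f (k-k') / (600 f)`.
-/

set_option autoImplicit false

namespace Pool.Agent.RS88

open MeasureTheory Filter

theorem window : ∀ᶠ f : ℕ in atTop, ∀ (ω : ℕ → Bool) (n : ℕ), ConcAt f ω →
    2 ^ (320 * f) ≤ n → n < 2 ^ (320 * (f + 1)) → ∀ a h : ℕ,
    99 / 100 * (elt ω n : ℝ) ≤ a → (a : ℝ) + h ≤ 2 * elt ω n → 2 ^ (f / 8) ≤ h →
    (ct ω (a + h) : ℝ) - ct ω a ≤ h / (Real.log (elt ω n) - 1 / 50) ∧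
      (h : ℝ) / (600 * f) ≤ (ct ω (a + h) : ℝ) - ct ω a :=
  WinS78.window

end Pool.Agent.RS88
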