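import Pool.Agent.RS88.SlopeB
import Pool.Agent.RS88.SlopeC

/-!
# The local slope

`2 ^ (320 f) ≤ n < 2 ^ (320 (f+1))`, `ConcAt f ω`, `y = elt ω n`; `220 f ≤ log n ≤ 222 f + 222`, `log (n^2) ≤ 500 f`.

`few_many`: `n ^ 2 ≤ 2 ^ (1000 f)`. `ct ω (n^2) > n` and `2 * ct ω (n+1) ≤ n`, `ct ω (3 n) < n` (so `3 n ≤ elt ω n` by
`le_elt_iff`) by `ConcAt` for `[2^(100 f), V)` and `ct ω (2^(100 f)) ≤ 2^(100 f)`; `log (2^(100f)) ≥ 60 f`.

`ratio`: with `s = 2^(100 f)`, `h = y / 2` (natural division), `ct ω y = n - 1`,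
`n - 1 ≥ ct ω y - ct ω s ≥ (1 - 1/f²) ((h - s) / log h + (y - h) / log y)`, `log h ≤ log y - 0.69`, so
`n ≥ (1 - 1/f²) (y - s) / log y * (1 + 0.34 / log y)`, and `log y ≤ 500 f`: `n ≥ y / (log y - 0.3)`.

`window`: in an interval `[a, a + h)` with `a ≥ 0.99 y`, `a + h ≤ 2 y`, `h ≥ 2^(f/8)`, there are at most
`(1 + 1/f²) h / log a ≤ h / (log y - 0.02)` elements (`log a ≥ log y - 0.0101`, `log y ≤ 500 f`) and at least `h / (600 f)`.

`slope`: `k', k` as in `Slp.lo`, `a = elt ω k'`. First `a ≥ 0.99 y`: otherwise the interval `[0.99 y, y)` contains at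
most `2^(100 f)` elements, but it contains at least `0.01 y / (600 f)`. `[a, elt ω k)` contains exactly `k - k'` elements.
If `elt ω k - a < (y/n + 1/5)(k - k')`, then the interval `[a, a + h)`, `h = ⌈(y/n + 1/5)(k - k')⌉` contains at least
`k - k'` elements, but at most `h / (log y - 0.02) ≤ ((y/n + 1/5)(k-k') + 1) / (log y - 0.02) < k - k'` by `ratio`
(`y/n + 1/5 ≤ log y - 0.1`, `k - k' ≥ 2^(f/8)` is large). `hi`: if `elt ω k - a > 1000 f (k - k')` then `[a, a + 1000 f (k-k'))`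
contains at most `k - k'` elements, but at least `1000 f (k-k') / (600 f)`.
-/

set_option autoImplicit false

namespace Pool.Agent.RS88

open MeasureTheory Filter

/-- The numbers used below. -/
theorem slope_num {f n : ℕ} (hf : 1 ≤ f) (hn : 2 ^ (320 * f) ≤ n) :
    (2 ^ (100 * f)) ^ 3 ≤ n ∧ 1000 ≤ 2 ^ (100 * f) ∧
      100 * f ≤ 2 ^ (100 * f) ∧ 2 ^ (f / 8) ≤ 2 ^ (100 * f) := by
  refine ⟨?_, ?_, ?_, ?_⟩
  · have h1 : (2 ^ (100 * f)) ^ 3 = 2 ^ (300 * f) := by rw [← pow_mul]; congr 1; ring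
    rw [h1]
    exact le_trans (Nat.pow_le_pow_right (by norm_num) (by omega)) hn
  · have h1 : 2 ^ 10 ≤ 2 ^ (100 * f) := Nat.pow_le_pow_right (by norm_num) (by omega)
    exact le_trans (by norm_num) h1
  · exact (Nat.lt_two_pow_self (n := 100 * f)).le
  · exact Nat.pow_le_pow_right (by norm_num) (by omega)

theorem slope_core {f n P d : ℕ} {ω : ℕ → Bool} (hf1 : 1 ≤ f) (hd1 : 1 ≤ d) (hP3 : P ^ 3 ≤ n)
    (hP1000 : 1000 ≤ P) (hPf : 100 * f ≤ P) (hPd : d ≤ P) (hm : n < ct ω (n ^ 2))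
    (hbig : 3 * n ≤ elt ω n) (hr : (elt ω n : ℝ) / n ≤ Real.log (elt ω n) - 3 / 10)
    (hw : ∀ a h : ℕ,
      99 / 100 * (elt ω n : ℝ) ≤ a → (a : ℝ) + h ≤ 2 * elt ω n → d ≤ h →
      (ct ω (a + h) : ℝ) - ct ω a ≤ h / (Real.log (elt ω n) - 1 / 50) ∧
        (h : ℝ) / (600 * f) ≤ (ct ω (a + h) : ℝ) - ct ω a) :
    (∀ k' k : ℕ, n ≤ k' + P → k' + d ≤ k → k ≤ n →
      ((elt ω n : ℝ) / n + 1 / 5) * ((k : ℝ) - k') ≤ (elt ω k : ℝ) - elt ω k') ∧
    (∀ k' k : ℕ, n ≤ k' + P → k' + d ≤ k → k ≤ n →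
      (elt ω k : ℝ) - elt ω k' ≤ 1000 * f * ((k : ℝ) - k')) := by
  have hP3 : (P : ℝ) ^ 3 ≤ n := by exact_mod_cast hP3
  have hP1000 : (1000 : ℝ) ≤ P := by exact_mod_cast hP1000
  have hPf : (100 * f : ℝ) ≤ P := by exact_mod_cast hPf
  have hPd : (d : ℝ) ≤ P := by exact_mod_cast hPd
  have hnR : (1 : ℝ) ≤ n := by nlinarith [sq_nonneg (P : ℝ)]
  have hn0 : 1 ≤ n := by exact_mod_cast hnR
  set y := elt ω n with hy
  have hbigR : (3 : ℝ) * n ≤ y := by exact_mod_cast hbig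
  have hfR : (1 : ℝ) ≤ f := by exact_mod_cast hf1
  have hdR : (1 : ℝ) ≤ d := by exact_mod_cast hd1
  have hPn : 1000 * (P : ℝ) ≤ n := by nlinarith [sq_nonneg (P : ℝ)]
  have hct : ct ω y = n - 1 := ct_elt hn0 hm.le
  -- facts on the elements
  have key : ∀ k' k : ℕ, n ≤ k' + P → k' + d ≤ k → k ≤ n →
      1 ≤ k' ∧ 99 / 100 * (y : ℝ) ≤ elt ω k' ∧ elt ω k ≤ y ∧ elt ω k' ≤ y ∧
        (ct ω (elt ω k') : ℝ) = (k' : ℝ) - 1 ∧ ct ω (elt ω k) = k - 1 ∧
        ct ω (elt ω k + 1) = k ∧ ((d : ℝ) ≤ (k : ℝ) - k') ∧ ((k : ℝ) - k' ≤ P) := by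
    intro k' k h1 h2 h3
    have h1R : (n : ℝ) ≤ k' + P := by exact_mod_cast h1
    have h2R : (k' : ℝ) + d ≤ k := by exact_mod_cast h2
    have h3R : (k : ℝ) ≤ n := by exact_mod_cast h3
    have hk'1 : 1 ≤ k' := by
      by_contra hcon
      have h0 : n ≤ P := by omega
      have h0R : (n : ℝ) ≤ P := by exact_mod_cast h0
      linarith
    have hk'n : k' < n := by omega
    have hkn : k' < k := by omega
    have hVk : k ≤ ct ω (n ^ 2) := by omega
    have hVk' : k' ≤ ct ω (n ^ 2) := by omega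
    have hctk' : ct ω (elt ω k') = k' - 1 := ct_elt hk'1 hVk'
    have hleky : elt ω k ≤ y := by
      rcases h3.lt_or_eq with h | h
      · exact (elt_strict (by omega) h hm.le).le
      · rw [h]
    have hlek'y : elt ω k' ≤ y := (elt_strict hk'1 hk'n hm.le).le
    refine ⟨hk'1, ?_, hleky, hlek'y, ?_, ct_elt (by omega) hVk, ct_elt_succ (by omega) hVk,
      by linarith, by linarith⟩
    · by_contra hcon
      push Not at hcon
      -- the interval `[A0, y)`
      have hy0 : (0 : ℝ) ≤ y := Nat.cast_nonneg _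
      set A0 : ℕ := ⌈99 / 100 * (y : ℝ)⌉₊ with hA0
      have hA1 : 99 / 100 * (y : ℝ) ≤ A0 := Nat.le_ceil _
      have hA2 : (A0 : ℝ) < 99 / 100 * (y : ℝ) + 1 := Nat.ceil_lt_add_one (by positivity)
      have hA3 : A0 ≤ y := by
        have : (A0 : ℝ) < y := by linarith
        exact_mod_cast this.le
      obtain ⟨h0, hh0⟩ := Nat.exists_eq_add_of_le hA3
      have hh0R : (y : ℝ) = A0 + h0 := by rw [hh0]; push_cast; ring
      have hh1 : 1 / 100 * (y : ℝ) - 1 ≤ h0 := by linarith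
      have hh2 : d ≤ h0 := by
        have : (d : ℝ) ≤ h0 := by linarith
        exact_mod_cast this
      have hw1 := (hw A0 h0 hA1 (by linarith) hh2).2
      rw [← hh0, hct] at hw1
      have hA4 : ct ω (elt ω k') ≤ ct ω A0 := by
        apply ct_mono
        have : (elt ω k' : ℝ) ≤ A0 := by linarith
        exact_mod_cast this
      rw [hctk'] at hA4
      have hA5 : ((k' - 1 : ℕ) : ℝ) ≤ ct ω A0 := by exact_mod_cast hA4
      rw [Nat.cast_sub hk'1] at hA5
      rw [Nat.cast_sub hn0] at hw1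
      push_cast at hA5 hw1
      have hw2 : (h0 : ℝ) / (600 * f) ≤ P := by linarith
      rw [div_le_iff₀ (by positivity)] at hw2
      have hw3 : (h0 : ℝ) ≤ 6 * (P : ℝ) ^ 2 := by nlinarith
      have hw4 : 1000 * (P : ℝ) ^ 2 ≤ P ^ 3 := by nlinarith [sq_nonneg (P : ℝ)]
      have hw5 : 1000 * (P : ℝ) ≤ P ^ 2 := by nlinarith
      linarith
    · rw [hctk', Nat.cast_sub hk'1]
      push_cast
      ring
  refine ⟨?_, ?_⟩
  · intro k' k h1 h2 h3
    obtain ⟨hk'1, ha, hky, hk'y, hca, hcb, hcb1, hd, hD⟩ := key k' k h1 h2 h3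
    clear key
    by_contra hcon
    push Not at hcon
    set a := elt ω k' with haa
    set b := elt ω k with hbb
    have hD0 : (0 : ℝ) < (k : ℝ) - k' := by linarith
    have hq3 : (3 : ℝ) ≤ (y : ℝ) / n := by rw [le_div_iff₀ (by linarith)]; exact hbigR
    have hqn : (y : ℝ) / n * n = y := by field_simp
    set q : ℝ := (y : ℝ) / n with hq
    set h : ℕ := ⌈(q + 1 / 5) * ((k : ℝ) - k')⌉₊ with hh
    have hh1 : (q + 1 / 5) * ((k : ℝ) - k') ≤ h := Nat.le_ceil _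
    have hh2 : (h : ℝ) < (q + 1 / 5) * ((k : ℝ) - k') + 1 :=
      Nat.ceil_lt_add_one (by positivity)
    have hba : b < a + h := by
      have : (b : ℝ) < a + h := by linarith
      exact_mod_cast this
    have hcount : k ≤ ct ω (a + h) := by
      rw [← hcb1]
      exact ct_mono hba
    have hcountR : (k : ℝ) ≤ ct ω (a + h) := by exact_mod_cast hcount
    have hk'yR : (a : ℝ) ≤ y := by exact_mod_cast hk'y
    have hq1 : q * ((k : ℝ) - k') ≤ y / 1000 := by
      have h5 : q * ((k : ℝ) - k') ≤ q * P := mul_le_mul_of_nonneg_left hD (by linarith)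
      have h6 : q * (1000 * P) ≤ q * n := mul_le_mul_of_nonneg_left hPn (by linarith)
      linarith
    have hup : (a : ℝ) + h ≤ 2 * y := by linarith
    have hlow : d ≤ h := by
      have h7 : 3 * ((k : ℝ) - k') ≤ (q + 1 / 5) * ((k : ℝ) - k') :=
        mul_le_mul_of_nonneg_right (by linarith) hD0.le
      have : (d : ℝ) ≤ h := by linarith
      exact_mod_cast this
    have hw1 := (hw a h ha hup hlow).1
    have hL : 0 < Real.log y - 1 / 50 := by linarith
    rw [le_div_iff₀ hL] at hw1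
    rw [hca] at hw1
    have hw2 : ((k : ℝ) - k' + 1) * (Real.log y - 1 / 50) ≤ h :=
      le_trans (mul_le_mul_of_nonneg_right (by linarith) hL.le) hw1
    have hw3 : (q + 1 / 5) * ((k : ℝ) - k') ≤ (Real.log y - 1 / 10) * ((k : ℝ) - k') :=
      mul_le_mul_of_nonneg_right (by linarith) hD0.le
    have hw4 : ((k : ℝ) - k' + 1) * (Real.log y - 1 / 50) =
      (Real.log y - 1 / 10) * ((k : ℝ) - k') + 8 / 100 * ((k : ℝ) - k') +
        (Real.log y - 1 / 50) := by ring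
    linarith
  · intro k' k h1 h2 h3
    obtain ⟨hk'1, ha, hky, hk'y, hca, hcb, hcb1, hd, hD⟩ := key k' k h1 h2 h3
    clear key
    by_contra hcon
    push Not at hcon
    set a := elt ω k' with haa
    set b := elt ω k with hbb
    have hD0 : (0 : ℝ) < (k : ℝ) - k' := by linarith
    have hkk : k' ≤ k := by omega
    have hk1 : 1 ≤ k := by omega
    set h : ℕ := 1000 * f * (k - k') with hh
    have hhR : (h : ℝ) = 1000 * f * ((k : ℝ) - k') := by
      rw [hh]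
      push_cast [Nat.cast_sub hkk]
      ring
    have hba : a + h ≤ b := by
      have : (a : ℝ) + h ≤ b := by linarith
      exact_mod_cast this
    have hkyR : (b : ℝ) ≤ y := by exact_mod_cast hky
    have hbaR : (a : ℝ) + h ≤ b := by exact_mod_cast hba
    have hy0 : (0 : ℝ) ≤ y := Nat.cast_nonneg _
    have hfD : (k : ℝ) - k' ≤ f * ((k : ℝ) - k') := by nlinarith
    have hlow : d ≤ h := by
      have : (d : ℝ) ≤ h := by rw [hhR]; linarith
      exact_mod_cast this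
    have hw1 := (hw a h ha (by linarith) hlow).2
    have hc1 : ct ω (a + h) ≤ k - 1 := by rw [← hcb]; exact ct_mono hba
    have hc2 : (ct ω (a + h) : ℝ) ≤ (k : ℝ) - 1 := by
      have : (ct ω (a + h) : ℝ) ≤ ((k - 1 : ℕ) : ℝ) := by exact_mod_cast hc1
      rw [Nat.cast_sub hk1] at this
      push_cast at this
      exact this
    rw [hca, div_le_iff₀ (by positivity), hhR] at hw1
    have hw2 : ((ct ω (a + h) : ℝ) - (k' - 1)) * (600 * f) ≤ ((k : ℝ) - k') * (600 * f) :=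
      mul_le_mul_of_nonneg_right (by linarith) (by positivity)
    linarith

theorem slope : ∀ᶠ f : ℕ in atTop, ∀ (ω : ℕ → Bool) (n : ℕ), ConcAt f ω →
    2 ^ (320 * f) ≤ n → n < 2 ^ (320 * (f + 1)) → Slp f n ω := by
  filter_upwards [ratio, window, few_many, eventually_ge_atTop 1] with f hr hw hfm hf1 ω n hc hn1 hn2
  obtain ⟨hm, hfew, hbig⟩ := hfm ω n hc hn1 hn2
  obtain ⟨hP3, hP1000, hPf, hPd⟩ := slope_num hf1 hn1
  obtain ⟨hlo, hhi⟩ := slope_core hf1 Nat.one_le_two_pow hP3 hP1000 hPf hPd hm hbig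
    (hr ω n hc hn1 hn2) (hw ω n hc hn1 hn2)
  exact ⟨hm, hfew, hbig, hlo, hhi⟩

end Pool.Agent.RS88
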