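import Pool.Agent.RS88.MF
import Pool.Agent.RS88.Slope
import Pool.Agent.RS88.CaseA
import Pool.Agent.RS88.CaseB
import Pool.Agent.RS88.Cnt
import Pool.Agent.RS88.Num

/-!
# Assembly

Almost surely: `conc`, `mf` (used for `f` and for `16 f`), and by Borel-Cantelli (`bad_le`, `sum_num`) for large `n`, with
`f = Nat.log 2 n / 320`, `T = 2 ^ (f/4 - f/8)`, `ω` is neither in `Bad n (2^f/f) (2^(5f)) T` nor in
`Bad n (2^(16f)/(16f)) (2^(80f)) T`. `2^(320 f) ≤ n < 2^(320 (f+1))`; `slope` gives `Slp f n ω`; `caseA` or `caseB` for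
`M = Msq ω L Z` (its elements are in `[L, Z]`: `m ≤ ct ω Z ≤ Z`), `2^(f/4) ≤ M.card` gives `T ≤` number of residues. As `ω` is not
bad, some `m ∈ M` has `ω (res ω (n-m)) = true`; take `k = n - m`.
-/

set_option autoImplicit false

namespace Pool.Agent.RS88

open MeasureTheory Filter

/-- the level of `n` -/
def Main_F (n : ℕ) : ℕ := Nat.log 2 n / 320

theorem Main_two {f : ℕ} (hf : 1 ≤ f) : 2 * f ≤ 2 ^ f := by
  obtain ⟨g, rfl⟩ : ∃ g, f = g + 1 := ⟨f - 1, by omega⟩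
  have h : g < 2 ^ g := Nat.lt_two_pow_self
  rw [pow_succ]
  omega

theorem Main_lo {n : ℕ} (hn : 1 ≤ n) : 2 ^ (320 * Main_F n) ≤ n := by
  have h1 : 320 * Main_F n ≤ Nat.log 2 n := by unfold Main_F; omega
  exact (Nat.pow_le_pow_right (by norm_num) h1).trans (Nat.pow_log_le_self 2 (by omega))

theorem Main_hi (n : ℕ) : n < 2 ^ (320 * (Main_F n + 1)) := by
  have h1 : Nat.log 2 n + 1 ≤ 320 * (Main_F n + 1) := by unfold Main_F; omega
  exact (Nat.lt_pow_succ_log_self (by norm_num) n).trans_le (Nat.pow_le_pow_right (by norm_num) h1)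

theorem Main_ge {b n : ℕ} (hn : 2 ^ (320 * b) ≤ n) : b ≤ Main_F n := by
  have h1 : 320 * b ≤ Nat.log 2 n := by
    have h2 := Nat.log_mono_right (b := 2) hn
    rwa [Nat.log_pow (by norm_num)] at h2
  unfold Main_F
  omega

theorem Main_tend : Tendsto Main_F atTop atTop :=
  tendsto_atTop.2 fun b => (eventually_ge_atTop (2 ^ (320 * b))).mono fun _ h => Main_ge h

theorem Main_tend16 : Tendsto (fun n => 16 * Main_F n) atTop atTop :=
  tendsto_atTop.2 fun b => (eventually_ge_atTop (2 ^ (320 * b))).mono fun _ h => by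
    have := Main_ge h
    omega

/-- Borel-Cantelli -/
theorem Main_bc (L Z : ℕ → ℕ) (hZ : ∀ n, 2 ^ 320 ≤ n → 4 * Z n ≤ n ∧ 3 ≤ Z n) :
    ∀ᵐ ω ∂mu, ∀ᶠ n : ℕ in atTop,
      ω ∉ Bad n (L n) (Z n) (2 ^ (Main_F n / 4 - Main_F n / 8)) := by
  have hs : Summable fun n : ℕ => mu.real
      {ω | 2 ^ 320 ≤ n ∧ ω ∈ Bad n (L n) (Z n) (2 ^ (Main_F n / 4 - Main_F n / 8))} := by
    refine Summable.of_nonneg_of_le (fun n => measureReal_nonneg) (fun n => ?_) sum_num.abs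
    by_cases hn : 2 ^ 320 ≤ n
    · refine le_trans (measureReal_mono (fun ω hω => hω.2) (measure_ne_top _ _)) ?_
      exact (bad_le (hZ n hn).1 (hZ n hn).2).trans (le_abs_self _)
    · have e : {ω | 2 ^ 320 ≤ n ∧ ω ∈ Bad n (L n) (Z n) (2 ^ (Main_F n / 4 - Main_F n / 8))} = ∅ :=
        Set.eq_empty_of_forall_notMem fun ω hω => hn hω.1
      rw [e, measureReal_empty]
      exact abs_nonneg _
  have h1 := ae_eventually_notMem (μ := mu)
    (s := fun n : ℕ => {ω | 2 ^ 320 ≤ n ∧ ω ∈ Bad n (L n) (Z n) (2 ^ (Main_F n / 4 - Main_F n / 8))}) (by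
      have h2 := hs.tsum_ofReal_ne_top
      have h3 : ∑' n : ℕ, ENNReal.ofReal (mu.real
          {ω | 2 ^ 320 ≤ n ∧ ω ∈ Bad n (L n) (Z n) (2 ^ (Main_F n / 4 - Main_F n / 8))}) =
          ∑' n : ℕ, mu
            {ω | 2 ^ 320 ≤ n ∧ ω ∈ Bad n (L n) (Z n) (2 ^ (Main_F n / 4 - Main_F n / 8))} :=
        tsum_congr fun n => ENNReal.ofReal_toReal (measure_ne_top mu _)
      rw [← h3]
      exact h2)
  filter_upwards [h1] with ω hω
  filter_upwards [hω, eventually_ge_atTop (2 ^ 320)] with n hn h2 h3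
  exact hn ⟨h2, h3⟩

theorem Main_pick {ω : ℕ → Bool} {f n L Z : ℕ} (hS : Slp f n ω)
    (hcard : 2 ^ (f / 4) ≤ (Msq ω L Z).card)
    (hres : ∀ m ∈ Msq ω L Z, Z < res ω (n - m) ∧ res ω (n - m) ≤ n)
    (himg : (Msq ω L Z).card ≤ 2 ^ (f / 8) * ((Msq ω L Z).image (fun m => res ω (n - m))).card)
    (hb : ω ∉ Bad n L Z (2 ^ (f / 4 - f / 8))) (hL : 2 ≤ L) (hZ : 4 * Z ≤ n) (h3 : 3 ≤ Z) :
    ∃ k m : ℕ, 2 ≤ k ∧ 2 ≤ m ∧ k + m = n ∧ ω (res ω k) = true ∧ IsSquare (res ω m) := by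
  have hT : 2 ^ (f / 4 - f / 8) ≤ ((Msq ω L Z).image (fun m => res ω (n - m))).card := by
    have h1 : 2 ^ (f / 8) * 2 ^ (f / 4 - f / 8) ≤
        2 ^ (f / 8) * ((Msq ω L Z).image (fun m => res ω (n - m))).card := by
      rw [← pow_add, show f / 8 + (f / 4 - f / 8) = f / 4 by omega]
      exact hcard.trans himg
    exact Nat.le_of_mul_le_mul_left h1 (by positivity)
  have hex : ∃ m ∈ Msq ω L Z, ω (res ω (n - m)) = true := by
    by_contra hcon
    push Not at hcon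
    exact hb ⟨hS.many, hS.few, hT, fun m hm => ⟨(hres m hm).1, (hres m hm).2, by
      simpa using hcon m hm⟩⟩
  obtain ⟨m, hm, hω⟩ := hex
  have hm' := hm
  unfold Msq at hm'
  rw [Finset.mem_filter, Finset.mem_range] at hm'
  exact ⟨n - m, m, by omega, by omega, by omega, hω, hm'.2.2.2.2⟩

theorem main : ∀ᵐ ω ∂mu, ∀ᶠ n : ℕ in atTop, ∃ k m : ℕ, 2 ≤ k ∧ 2 ≤ m ∧ k + m = n ∧
    ω (res ω k) = true ∧ IsSquare (res ω m) := by
  have hZ2 : ∀ c, 2 ≤ c → c ≤ 80 → ∀ n, 2 ^ 320 ≤ n →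
      4 * 2 ^ (c * Main_F n) ≤ n ∧ 3 ≤ 2 ^ (c * Main_F n) := by
    intro c hc2 hc n hn
    have h1 : 1 ≤ Main_F n := Main_ge hn
    have h2 := Main_lo (n := n) (le_trans Nat.one_le_two_pow hn)
    constructor
    · refine le_trans ?_ h2
      rw [show (4 : ℕ) = 2 ^ 2 by norm_num, ← pow_add]
      exact Nat.pow_le_pow_right (by norm_num) (by nlinarith)
    · calc 3 ≤ 2 ^ 2 := by norm_num
        _ ≤ 2 ^ (c * Main_F n) := Nat.pow_le_pow_right (by norm_num) (by nlinarith)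
  have b1 := Main_bc (fun n => 2 ^ Main_F n / Main_F n) (fun n => 2 ^ (5 * Main_F n))
    (hZ2 5 (by norm_num) (by norm_num))
  have b2 := Main_bc (fun n => 2 ^ (16 * Main_F n) / (16 * Main_F n))
    (fun n => 2 ^ (80 * Main_F n)) (hZ2 80 (by norm_num) (by norm_num))
  filter_upwards [conc, mf, b1, b2] with ω hc hm hb1 hb2
  filter_upwards [Main_tend.eventually hc, Main_tend.eventually hm, Main_tend16.eventually hm,
    Main_tend.eventually slope, Main_tend.eventually caseA, Main_tend.eventually caseB, hb1, hb2,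
    eventually_ge_atTop (2 ^ 320)] with n g1 g2 g3 g4 g5 g6 g7 g8 g9
  have hf1 : 1 ≤ Main_F n := Main_ge g9
  have hlo := Main_lo (n := n) (le_trans Nat.one_le_two_pow g9)
  have hS := g4 ω n g1 hlo (Main_hi n)
  have hmem : ∀ L Z m, m ∈ Msq ω L Z → L ≤ m ∧ m ≤ Z := by
    intro L Z m hm
    unfold Msq at hm
    rw [Finset.mem_filter, Finset.mem_range] at hm
    exact ⟨hm.2.1, by omega⟩
  rcases Nat.lt_or_ge (2 ^ (15 * Main_F n)) (elt ω n % n) with h | h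
  · obtain ⟨k1, k2⟩ := g5 ω n (Msq ω (2 ^ Main_F n / Main_F n) (2 ^ (5 * Main_F n))) hlo hS h
      (fun m hm => hmem _ _ m hm)
    refine Main_pick hS g2 k1 k2 g7 ?_ (hZ2 5 (by norm_num) (by norm_num) n g9).1
      (hZ2 5 (by norm_num) (by norm_num) n g9).2
    rw [Nat.le_div_iff_mul_le (by omega)]
    exact Main_two hf1
  · obtain ⟨k1, k2⟩ := g6 ω n (Msq ω (2 ^ (16 * Main_F n) / (16 * Main_F n))
      (2 ^ (80 * Main_F n))) hlo hS h (fun m hm => hmem _ _ m hm)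
    have g3' : 2 ^ (Main_F n / 4) ≤ (Msq ω (2 ^ (16 * Main_F n) / (16 * Main_F n))
        (2 ^ (80 * Main_F n))).card := by
      rw [show 5 * (16 * Main_F n) = 80 * Main_F n by ring] at g3
      exact (Nat.pow_le_pow_right (by norm_num) (by omega)).trans g3
    refine Main_pick hS g3' k1 k2 g8 ?_ (hZ2 80 (by norm_num) (by norm_num) n g9).1
      (hZ2 80 (by norm_num) (by norm_num) n g9).2
    rw [Nat.le_div_iff_mul_le (by omega)]
    exact Main_two (by omega)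

end Pool.Agent.RS88
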