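import Pool.Agent.RS88.Defs

/-!
# Concentration of the number of elements in long intervals

`hoeff`: Hoeffding's inequality (Mathlib: `ProbabilityTheory.HasSubgaussianMGF`, or by hand with the
moment generating function) for the `v - u` independent indicators of `ω m = true`, `u ≤ m < v`, with
the means `pr m`; `ct ω v - ct ω u` is the number of `m ∈ [u, v)` with `ω m = true`.

`conc`: for `3 ≤ u ≤ m < v` one has `1 / log v ≤ pr m ≤ 1 / log u`. If `ConcAt f ω` fails there are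
`u, v` with `v ≤ 2 ^ (1000 f)`, `v - u ≥ 2 ^ (f/8)` and a deviation of at least
`t = (1 / f ^ 2) * (v - u) / log v` from the mean (`log u ≤ log v`), so the probability is at most
`2 ^ (2000 f + 2) * 2 * exp (- 2 (v - u) / (f ^ 4 * log v ^ 2))`, `log v ≤ 1000 f`:
`exp (- 2 * 2 ^ (f/8) / (10 ^ 6 * f ^ 6))`. Summable (`conc_num`); Borel-Cantelli
(`measure_limsup_atTop_eq_zero` or `ae_eventually_notMem`).
-/

set_option autoImplicit false

namespace Pool.Agent.RS88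

open MeasureTheory Filter

theorem conc_num_ev : ∀ᶠ g : ℕ in atTop,
    1001 * 10 ^ 6 * (8 * ((g : ℝ) + 1)) ^ 7 ≤ (2 : ℝ) ^ g := by
  have h := (tendsto_pow_const_div_const_pow_of_one_lt 7 (r := (2 : ℝ))
    (by norm_num)).comp (tendsto_add_atTop_nat 1)
  have h2 := h.eventually (gt_mem_nhds (show (0 : ℝ) < 1 / (2 * (1001 * 10 ^ 6 * 8 ^ 7)) by
    norm_num))
  filter_upwards [h2] with g hg
  have h3 : ((g : ℝ) + 1) ^ 7 / (2 : ℝ) ^ (g + 1) < 1 / (2 * (1001 * 10 ^ 6 * 8 ^ 7)) := by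
    have := hg
    simp only [Function.comp_apply] at this
    push_cast at this
    exact this
  rw [div_lt_div_iff₀ (by positivity) (by positivity)] at h3
  have h4 : (2 : ℝ) ^ (g + 1) = 2 * 2 ^ g := by ring
  rw [h4] at h3
  have h5 : (8 * ((g : ℝ) + 1)) ^ 7 = 8 ^ 7 * ((g : ℝ) + 1) ^ 7 := by rw [mul_pow]
  rw [h5]
  nlinarith

theorem conc_num : Summable fun f : ℕ => (2 : ℝ) ^ (2001 * f) *
    Real.exp (-(2 * 2 ^ (f / 8) / (10 ^ 6 * (f : ℝ) ^ 6))) := by
  have htd : Tendsto (fun f : ℕ => f / 8) atTop atTop :=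
    tendsto_atTop_atTop.2 fun b => ⟨8 * b, fun a ha =>
      (Nat.le_div_iff_mul_le (by norm_num)).2 (by omega)⟩
  refine Summable.of_norm_bounded_eventually_nat summable_geometric_two ?_
  filter_upwards [htd.eventually conc_num_ev, eventually_ge_atTop 1] with f hf hf1
  have hf0 : (0 : ℝ) < f := by exact_mod_cast hf1
  rw [Real.norm_eq_abs, abs_of_pos (by positivity)]
  have h1 : (f : ℝ) ≤ 8 * (((f / 8 : ℕ) : ℝ) + 1) := by
    have : f ≤ 8 * (f / 8 + 1) := by omega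
    exact_mod_cast this
  have h2 : (f : ℝ) ^ 7 ≤ (8 * (((f / 8 : ℕ) : ℝ) + 1)) ^ 7 := pow_le_pow_left₀ hf0.le h1 7
  have h3 : 2002 * (f : ℝ) ≤ 2 * 2 ^ (f / 8) / (10 ^ 6 * (f : ℝ) ^ 6) := by
    rw [le_div_iff₀ (by positivity)]
    have h4 : 2002 * (f : ℝ) * (10 ^ 6 * (f : ℝ) ^ 6) = 2 * (1001 * 10 ^ 6 * (f : ℝ) ^ 7) := by ring
    rw [h4]
    nlinarith
  have h5 : Real.exp (-1) ≤ 1 / 2 := by
    rw [Real.exp_neg, one_div]
    apply inv_anti₀ (by norm_num)
    have := Real.add_one_le_exp (1 : ℝ)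
    linarith
  have h6 : Real.exp (-(2 * 2 ^ (f / 8) / (10 ^ 6 * (f : ℝ) ^ 6))) ≤ (1 / 2) ^ (2002 * f) := by
    calc Real.exp (-(2 * 2 ^ (f / 8) / (10 ^ 6 * (f : ℝ) ^ 6)))
        ≤ Real.exp (((2002 * f : ℕ) : ℝ) * (-1)) := by
          apply Real.exp_le_exp.2
          push_cast
          linarith
      _ = Real.exp (-1) ^ (2002 * f) := Real.exp_nat_mul _ _
      _ ≤ (1 / 2) ^ (2002 * f) := pow_le_pow_left₀ (Real.exp_pos _).le h5 _
  calc (2 : ℝ) ^ (2001 * f) * Real.exp (-(2 * 2 ^ (f / 8) / (10 ^ 6 * (f : ℝ) ^ 6)))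
      ≤ (2 : ℝ) ^ (2001 * f) * (1 / 2) ^ (2002 * f) :=
        mul_le_mul_of_nonneg_left h6 (by positivity)
    _ = (1 / 2) ^ f := by
        have h7 : 2002 * f = 2001 * f + f := by ring
        rw [h7, pow_add, ← mul_assoc, ← mul_pow]
        norm_num

end Pool.Agent.RS88
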