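import Pool.Agent.RS88.Hoeff
import Pool.Agent.RS88.ConcNum

/-!
# Concentration of the number of elements in long intervals

`hoeff`: Hoeffding's inequality (Mathlib: `ProbabilityTheory.HasSubgaussianMGF`, or by hand with the
moment generating function) for the `v - u` independent indicators of `ω m = true`, `u ≤ m < v`, with
the means `pr m`; `ct ω v - ct ω u` is the number of `m ∈ [u, v)` with `ω m = true`.

`conc`: for `3 ≤ u ≤ m < v` one has `1 / log v ≤ pr m ≤ 1 / log u`. If `ConcAt f ω` fails there are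
`u, v` with `v ≤ 2 ^ (1000 f)`, `v - u ≥ 2 ^ (f/8)` and a deviation of at least
`t = (1 / f ^ 2) * (v - u) / log v` from the mean (`log u ≤ log v`), so the probability is at most
`2 ^ (2000 f + 2) * 2 * exp (- 2 (v - u) / (f ^ 4 * log v ^ 2))`, `log v ≤ 1000 f`:
`exp (- 2 * 2 ^ (f/8) / (10 ^ 6 * f ^ 6))`. Summable (`conc_num`); Borel-Cantelli
(`measure_limsup_atTop_eq_zero` or `ae_eventually_notMem`).
-/

set_option autoImplicit false

namespace Pool.Agent.RS88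

open MeasureTheory Filter

/-- the bad event of the pair `u, v` -/
def Conc_bad (f u v : ℕ) : Set (ℕ → Bool) :=
  {ω | 1 / (f : ℝ) ^ 2 * (((v : ℝ) - u) / Real.log v) ≤
    |((ct ω v : ℝ) - ct ω u) - ∑ m ∈ Finset.Ico u v, pr m|}

/-- the sum of the means -/
theorem Conc_mean {u v : ℕ} (hu : 3 ≤ u) (huv : u < v) :
    ((v : ℝ) - u) / Real.log v ≤ ∑ m ∈ Finset.Ico u v, pr m ∧
      ∑ m ∈ Finset.Ico u v, pr m ≤ ((v : ℝ) - u) / Real.log u := by
  have hu3 : (3 : ℝ) ≤ u := by exact_mod_cast hu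
  have hlu : 1 ≤ Real.log u := log_three.trans (Real.log_le_log (by norm_num) hu3)
  have hcard : ((Finset.Ico u v).card : ℝ) = (v : ℝ) - u := by
    rw [Nat.card_Ico, Nat.cast_sub huv.le]
  have hb : ∀ m ∈ Finset.Ico u v, 1 / Real.log v ≤ pr m ∧ pr m ≤ 1 / Real.log u := by
    intro m hm
    rw [Finset.mem_Ico] at hm
    have h1 : (u : ℝ) ≤ m := by exact_mod_cast hm.1
    have h2 : (m : ℝ) ≤ v := by exact_mod_cast hm.2.le
    have h3 : Real.log u ≤ Real.log m := Real.log_le_log (by linarith) h1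
    have h4 : Real.log m ≤ Real.log v := Real.log_le_log (by linarith) h2
    unfold pr
    rw [if_pos (hu.trans hm.1)]
    exact ⟨one_div_le_one_div_of_le (by linarith) h4, one_div_le_one_div_of_le (by linarith) h3⟩
  constructor
  · have := Finset.card_nsmul_le_sum (Finset.Ico u v) pr (1 / Real.log v) fun m hm => (hb m hm).1
    rw [nsmul_eq_mul, hcard] at this
    calc ((v : ℝ) - u) / Real.log v = ((v : ℝ) - u) * (1 / Real.log v) := by ring
      _ ≤ _ := this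
  · have := Finset.sum_le_card_nsmul (Finset.Ico u v) pr (1 / Real.log u) fun m hm => (hb m hm).2
    rw [nsmul_eq_mul, hcard] at this
    calc _ ≤ ((v : ℝ) - u) * (1 / Real.log u) := this
      _ = ((v : ℝ) - u) / Real.log u := by ring

/-- the probability of a bad event -/
theorem Conc_prob {f u v : ℕ} (hf : 1 ≤ f) (huv : u < v) (hv : v ≤ 2 ^ (1000 * f)) (hu : 3 ≤ u)
    (hd : 2 ^ (f / 8) ≤ v - u) :
    mu.real (Conc_bad f u v) ≤ 2 * Real.exp (-(2 * 2 ^ (f / 8) / (10 ^ 6 * (f : ℝ) ^ 6))) := by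
  have hf0 : (0 : ℝ) < f := by exact_mod_cast hf
  have huv' : (0 : ℝ) < (v : ℝ) - u := by
    have : (u : ℝ) < v := by exact_mod_cast huv
    linarith
  have hu3 : (3 : ℝ) ≤ u := by exact_mod_cast hu
  have hv3 : (3 : ℝ) ≤ v := by linarith
  have hlv : 1 ≤ Real.log v := log_three.trans (Real.log_le_log (by norm_num) hv3)
  have hlv2 : Real.log v ≤ 1000 * f := by
    have h1 : (v : ℝ) ≤ 2 ^ (1000 * f) := by exact_mod_cast hv
    have h2 := Real.log_le_log (by linarith) h1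
    rw [Real.log_pow] at h2
    have h3 : Real.log 2 ≤ 1 := by
      have := Real.log_le_sub_one_of_pos (show (0 : ℝ) < 2 by norm_num)
      linarith
    push_cast at h2
    have h4 : 1000 * (f : ℝ) * Real.log 2 ≤ 1000 * f * 1 :=
      mul_le_mul_of_nonneg_left h3 (by positivity)
    linarith
  have hd' : (2 : ℝ) ^ (f / 8) ≤ (v : ℝ) - u := by
    have h1 : ((2 ^ (f / 8) : ℕ) : ℝ) ≤ ((v - u : ℕ) : ℝ) := by exact_mod_cast hd
    rw [Nat.cast_sub huv.le] at h1
    push_cast at h1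
    exact h1
  have h1 := hoeff u v huv (1 / (f : ℝ) ^ 2 * (((v : ℝ) - u) / Real.log v)) (by positivity)
  refine (show mu.real (Conc_bad f u v) ≤ _ from h1).trans ?_
  refine mul_le_mul_of_nonneg_left (Real.exp_le_exp.2 (neg_le_neg ?_)) (by norm_num)
  have h2 : 2 * (1 / (f : ℝ) ^ 2 * (((v : ℝ) - u) / Real.log v)) ^ 2 / ((v : ℝ) - u) =
      2 * ((v : ℝ) - u) / ((f : ℝ) ^ 4 * Real.log v ^ 2) := by
    field_simp
  rw [h2]
  have h3 : (f : ℝ) ^ 4 * Real.log v ^ 2 ≤ 10 ^ 6 * (f : ℝ) ^ 6 := by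
    have h4 : Real.log v ^ 2 ≤ (1000 * f) ^ 2 := pow_le_pow_left₀ (by linarith) hlv2 2
    calc (f : ℝ) ^ 4 * Real.log v ^ 2 ≤ (f : ℝ) ^ 4 * (1000 * f) ^ 2 :=
          mul_le_mul_of_nonneg_left h4 (by positivity)
      _ = 10 ^ 6 * (f : ℝ) ^ 6 := by ring
  have h5 : (0 : ℝ) < (f : ℝ) ^ 4 * Real.log v ^ 2 := by positivity
  exact div_le_div₀ (by positivity) (mul_le_mul_of_nonneg_left hd' (by norm_num)) h5 h3

/-- the failure of `ConcAt` -/
theorem Conc_sub {f : ℕ} (hf : 16 ≤ f) :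
    {ω | ¬ ConcAt f ω} ⊆ ⋃ p ∈ (Finset.range (2 ^ (1000 * f) + 1) ×ˢ
      Finset.range (2 ^ (1000 * f) + 1)).filter (fun p => p.1 < p.2 ∧ 2 ^ (f / 8) ≤ p.1 ∧
        2 ^ (f / 8) ≤ p.2 - p.1), Conc_bad f p.1 p.2 := by
  intro ω hω
  have hω' : ¬ ConcAt f ω := hω
  unfold ConcAt at hω'
  push Not at hω'
  obtain ⟨u, v, huv, hv, hu, hd, h⟩ := hω'
  rw [Set.mem_iUnion₂]
  refine ⟨(u, v), ?_, ?_⟩
  · rw [Finset.mem_filter, Finset.mem_product, Finset.mem_range, Finset.mem_range]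
    exact ⟨⟨by show u < _; omega, by show v < _; omega⟩, huv, hu, hd⟩
  · have h4 : 2 ^ 2 ≤ 2 ^ (f / 8) := Nat.pow_le_pow_right (by norm_num) (by omega)
    have hu3 : 3 ≤ u := by omega
    have hu3' : (3 : ℝ) ≤ u := by exact_mod_cast hu3
    have huv' : (u : ℝ) < v := by exact_mod_cast huv
    have hlu : 1 ≤ Real.log u := log_three.trans (Real.log_le_log (by norm_num) hu3')
    have hluv : Real.log u ≤ Real.log v := Real.log_le_log (by linarith) huv'.le
    obtain ⟨m1, m2⟩ := Conc_mean hu3 huv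
    have hq : 0 ≤ 1 / (f : ℝ) ^ 2 := by positivity
    have hle : ((v : ℝ) - u) / Real.log v ≤ ((v : ℝ) - u) / Real.log u :=
      div_le_div_of_nonneg_left (by linarith) (by linarith) hluv
    have hle2 := mul_le_mul_of_nonneg_left hle hq
    show 1 / (f : ℝ) ^ 2 * (((v : ℝ) - u) / Real.log v) ≤
      |((ct ω v : ℝ) - ct ω u) - ∑ m ∈ Finset.Ico u v, pr m|
    by_cases hc : (1 - 1 / (f : ℝ) ^ 2) * (((v : ℝ) - u) / Real.log v) ≤ (ct ω v : ℝ) - ct ω u
    · have h5 := h hc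
      refine le_trans ?_ (le_abs_self _)
      linarith
    · rw [not_le] at hc
      refine le_trans ?_ (neg_le_abs _)
      linarith

theorem Conc_real {f : ℕ} (hf : 16 ≤ f) :
    mu.real {ω | ¬ ConcAt f ω} ≤ (2 : ℝ) ^ (2001 * f) *
      Real.exp (-(2 * 2 ^ (f / 8) / (10 ^ 6 * (f : ℝ) ^ 6))) := by
  set E : ℝ := Real.exp (-(2 * 2 ^ (f / 8) / (10 ^ 6 * (f : ℝ) ^ 6))) with hE
  have hE0 : 0 < E := Real.exp_pos _
  set N : ℕ := 2 ^ (1000 * f) + 1 with hN
  have h4 : 2 ^ 2 ≤ 2 ^ (f / 8) := Nat.pow_le_pow_right (by norm_num) (by omega)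
  have h1 := (measureReal_mono (Conc_sub hf) (measure_ne_top mu _)).trans
    (measureReal_biUnion_finset_le _ _)
  refine h1.trans ?_
  have h2 : ∀ p ∈ (Finset.range N ×ˢ Finset.range N).filter (fun p => p.1 < p.2 ∧
      2 ^ (f / 8) ≤ p.1 ∧ 2 ^ (f / 8) ≤ p.2 - p.1), mu.real (Conc_bad f p.1 p.2) ≤ 2 * E := by
    intro p hp
    rw [Finset.mem_filter, Finset.mem_product, Finset.mem_range, Finset.mem_range] at hp
    exact Conc_prob (by omega) hp.2.1 (by omega) (by omega) hp.2.2.2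
  refine (Finset.sum_le_card_nsmul _ _ _ h2).trans ?_
  rw [nsmul_eq_mul]
  have h3 : ((Finset.range N ×ˢ Finset.range N).filter (fun p => p.1 < p.2 ∧
      2 ^ (f / 8) ≤ p.1 ∧ 2 ^ (f / 8) ≤ p.2 - p.1)).card ≤ N * N := by
    refine (Finset.card_filter_le _ _).trans ?_
    rw [Finset.card_product, Finset.card_range]
  have h5 : N ≤ 2 ^ (1000 * f + 1) := by
    rw [hN, pow_succ]
    have : 1 ≤ 2 ^ (1000 * f) := Nat.one_le_two_pow
    omega
  have h6 : N * N * 2 ≤ 2 ^ (2001 * f) := by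
    calc N * N * 2 ≤ 2 ^ (1000 * f + 1) * 2 ^ (1000 * f + 1) * 2 :=
          Nat.mul_le_mul_right _ (Nat.mul_le_mul h5 h5)
      _ = 2 ^ (2000 * f + 3) := by ring
      _ ≤ 2 ^ (2001 * f) := Nat.pow_le_pow_right (by norm_num) (by omega)
  have h7 : (((Finset.range N ×ˢ Finset.range N).filter (fun p => p.1 < p.2 ∧
      2 ^ (f / 8) ≤ p.1 ∧ 2 ^ (f / 8) ≤ p.2 - p.1)).card : ℝ) * 2 ≤ 2 ^ (2001 * f) := by
    have := (Nat.mul_le_mul_right 2 h3).trans h6
    exact_mod_cast this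
  calc _ = (((Finset.range N ×ˢ Finset.range N).filter (fun p => p.1 < p.2 ∧
      2 ^ (f / 8) ≤ p.1 ∧ 2 ^ (f / 8) ≤ p.2 - p.1)).card : ℝ) * 2 * E := by ring
    _ ≤ 2 ^ (2001 * f) * E := mul_le_mul_of_nonneg_right h7 hE0.le

theorem conc : ∀ᵐ ω ∂mu, ∀ᶠ f : ℕ in atTop, ConcAt f ω := by
  set s : ℕ → Set (ℕ → Bool) := fun f => if 16 ≤ f then {ω | ¬ ConcAt f ω} else ∅ with hs
  have h1 : ∀ f, mu (s f) ≤ ENNReal.ofReal ((2 : ℝ) ^ (2001 * f) *
      Real.exp (-(2 * 2 ^ (f / 8) / (10 ^ 6 * (f : ℝ) ^ 6)))) := by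
    intro f
    by_cases hf : 16 ≤ f
    · rw [hs]
      simp only [if_pos hf]
      rw [← ofReal_measureReal (measure_ne_top mu _)]
      exact ENNReal.ofReal_le_ofReal (Conc_real hf)
    · rw [hs]
      simp only [if_neg hf]
      rw [measure_empty]
      exact zero_le
  have h2 : ∑' f, mu (s f) ≠ ⊤ :=
    ne_top_of_le_ne_top (conc_num.tsum_ofReal_ne_top) (ENNReal.tsum_le_tsum h1)
  filter_upwards [ae_eventually_notMem h2] with ω hω
  filter_upwards [hω, eventually_ge_atTop 16] with f hf hf16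
  by_contra hc
  apply hf
  rw [hs]
  simp only [if_pos hf16]
  exact hc

end Pool.Agent.RS88
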