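import Mathlib

/-!
# Cramer's random model: prime and square residues of `p_k` modulo `k` (definitions)

MP_9be292_nt, paper proof: note 3656. A random set is given by `ω : ℕ → Bool` (`m` is in the set if
`ω m = true`), under the product measure `mu`. `elt ω k` = the `k`-th element, `res ω k` = its least
positive residue modulo `k`.
-/

set_option autoImplicit false

namespace Pool.Agent.RS88

open MeasureTheory Filter

/-- Cramer's probability: `1 / log m` for `m ≥ 3`, and `0` for `m ≤ 2`. -/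
noncomputable def pr (m : ℕ) : ℝ := if 3 ≤ m then 1 / Real.log m else 0

theorem log_three : (1 : ℝ) ≤ Real.log 3 := by
  rw [Real.le_log_iff_exp_le (by norm_num)]
  have := Real.exp_one_lt_d9
  linarith

theorem pr_nonneg (m : ℕ) : 0 ≤ pr m := by
  unfold pr
  split_ifs
  · exact div_nonneg zero_le_one (Real.log_natCast_nonneg m)
  · exact le_rfl

theorem pr_le_one (m : ℕ) : pr m ≤ 1 := by
  unfold pr
  split_ifs with h
  · have h3 : (3 : ℝ) ≤ m := by exact_mod_cast h
    have h1 : (1 : ℝ) ≤ Real.log m := log_three.trans (Real.log_le_log (by norm_num) h3)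
    rw [div_le_one (by linarith)]
    exact h1
  · exact zero_le_one

/-- The coin for the integer `m`: `true` with probability `pr m`. -/
noncomputable def coin (m : ℕ) : Measure Bool :=
  ENNReal.ofReal (pr m) • Measure.dirac true + ENNReal.ofReal (1 - pr m) • Measure.dirac false

instance (m : ℕ) : IsProbabilityMeasure (coin m) := by
  constructor
  unfold coin
  simp only [Measure.coe_add, Measure.coe_smul, Pi.add_apply, Pi.smul_apply, measure_univ,
    smul_eq_mul, mul_one]
  rw [← ENNReal.ofReal_add (pr_nonneg m) (sub_nonneg.2 (pr_le_one m))]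
  simp

/-- The law of the random set. -/
noncomputable def mu : Measure (ℕ → Bool) := Measure.infinitePi coin

instance : IsProbabilityMeasure mu := by unfold mu; infer_instance

/-- The number of elements `< y`. -/
def ct (ω : ℕ → Bool) (y : ℕ) : ℕ := Nat.count (fun m => ω m = true) y

/-- The `k`-th element of the set (`k ≥ 1`). -/
noncomputable def elt (ω : ℕ → Bool) (k : ℕ) : ℕ := Nat.nth (fun m => ω m = true) (k - 1)

/-- The least positive residue of the `k`-th element modulo `k`. -/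
noncomputable def res (ω : ℕ → Bool) (k : ℕ) : ℕ := (elt ω k - 1) % k + 1

open Classical in
/-- The `m ≥ L` such that the `m`-th element is `< Z` and has a square as residue. -/
noncomputable def Msq (ω : ℕ → Bool) (L Z : ℕ) : Finset ℕ :=
  (Finset.range (Z + 1)).filter fun m => L ≤ m ∧ 1 ≤ m ∧ m ≤ ct ω Z ∧ IsSquare (res ω m)

/-- Concentration at level `f`. -/
def ConcAt (f : ℕ) (ω : ℕ → Bool) : Prop :=
  ∀ u v : ℕ, u < v → v ≤ 2 ^ (1000 * f) → 2 ^ (f / 8) ≤ u → 2 ^ (f / 8) ≤ v - u →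
    (1 - 1 / (f : ℝ) ^ 2) * (((v : ℝ) - u) / Real.log v) ≤ (ct ω v : ℝ) - ct ω u ∧
      (ct ω v : ℝ) - ct ω u ≤ (1 + 1 / (f : ℝ) ^ 2) * (((v : ℝ) - u) / Real.log u)

/-- The walk of `elt ω k - f k`. -/
def W (ω : ℕ → Bool) (f y : ℕ) : ℤ := (y : ℤ) - f * (ct ω y + 1)

/-- `y` is the first time `≥ N` at which the walk reaches a square `s ^ 2`, `1 ≤ s ≤ S`. -/
def Tr (f N S : ℕ) (ω : ℕ → Bool) (y : ℕ) : Prop :=
  N ≤ y ∧ ∃ s : ℕ, 1 ≤ s ∧ s ≤ S ∧ W ω f y = (s : ℤ) ^ 2 ∧
    ∀ y', N ≤ y' → y' < y → W ω f y' < (s : ℤ) ^ 2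

/-- The local slope of the sequence of the elements before the `n`-th one. -/
structure Slp (f n : ℕ) (ω : ℕ → Bool) : Prop where
  many : n < ct ω (n ^ 2)
  few : 2 * ct ω (n + 1) ≤ n
  big : 3 * n ≤ elt ω n
  lo : ∀ k' k : ℕ, n ≤ k' + 2 ^ (100 * f) → k' + 2 ^ (f / 8) ≤ k → k ≤ n →
    ((elt ω n : ℝ) / n + 1 / 5) * ((k : ℝ) - k') ≤ (elt ω k : ℝ) - elt ω k'
  hi : ∀ k' k : ℕ, n ≤ k' + 2 ^ (100 * f) → k' + 2 ^ (f / 8) ≤ k → k ≤ n →
    (elt ω k : ℝ) - elt ω k' ≤ 1000 * f * ((k : ℝ) - k')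

end Pool.Agent.RS88
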