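import Pool.Agent.RS88.Defs

/-!
# Events of finitely many coordinates

`meas`: `E` is the preimage under the (measurable) restriction to `S → Bool` of a subset of a finite
discrete space. `indep`: `iIndepFun_infinitePi` (`mu = Measure.infinitePi coin`). `dep_inter`:
`E ∩ {no element in T}`: induction on `T` with `dep_false`, or the independence of the restrictions to
`S` and to `T`.
-/

set_option autoImplicit false

namespace Pool.Agent.RS88

open MeasureTheory Filter

/-- `E` depends on the coordinates in `S` only. -/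
def Dep (S : Set ℕ) (E : Set (ℕ → Bool)) : Prop :=
  ∀ ω ω' : ℕ → Bool, (∀ i ∈ S, ω i = ω' i) → (ω ∈ E ↔ ω' ∈ E)

theorem Dep.meas {S : Finset ℕ} {E : Set (ℕ → Bool)} (h : Dep (S : Set ℕ) E) :
    MeasurableSet E := by
  have hr : Measurable (fun (ω : ℕ → Bool) (i : S) => ω i) :=
    measurable_pi_lambda _ fun i => measurable_pi_apply _
  have h1 : E = (fun (ω : ℕ → Bool) (i : S) => ω i) ⁻¹'
      ((fun (ω : ℕ → Bool) (i : S) => ω i) '' E) := by
    refine Set.Subset.antisymm (Set.subset_preimage_image _ _) ?_
    rintro ω ⟨ω', h1, h2⟩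
    exact (h ω' ω fun i hi => congrFun h2 ⟨i, hi⟩).1 h1
  rw [h1]
  exact hr (Set.toFinite _).measurableSet

theorem mu_true (m : ℕ) : mu.real {ω | ω m = true} = pr m := by
  have h1 : {ω : ℕ → Bool | ω m = true} =
      (Function.eval m : (ℕ → Bool) → Bool) ⁻¹' ({true} : Set Bool) := rfl
  have h2 := (measurePreserving_eval_infinitePi coin m).measure_preimage
    (MeasurableSet.singleton true).nullMeasurableSet
  rw [measureReal_def, h1, mu, h2, coin]
  simp only [Measure.coe_add, Measure.coe_smul, Pi.add_apply, Pi.smul_apply, smul_eq_mul,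
    Measure.dirac_apply, Set.indicator_of_mem (Set.mem_singleton true), Pi.one_apply, mul_one]
  rw [Set.indicator_of_notMem (by simp), mul_zero, add_zero, ENNReal.toReal_ofReal (pr_nonneg m)]

theorem indep : ProbabilityTheory.iIndepFun (fun (m : ℕ) (ω : ℕ → Bool) => ω m) mu := by
  rw [ProbabilityTheory.iIndepFun_iff_map_fun_eq_infinitePi_map
    (fun m => measurable_pi_apply m)]
  have h1 : ∀ m : ℕ, mu.map (fun ω => ω m) = coin m := fun m => by
    rw [mu]
    exact Measure.infinitePi_map_eval coin m
  have h2 : (fun m : ℕ => mu.map (fun ω => ω m)) = coin := funext h1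
  have h3 : mu.map (fun (ω : ℕ → Bool) (i : ℕ) => ω i) = mu := Measure.map_id
  rw [h3]
  simp only [h1]
  rfl

end Pool.Agent.RS88
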