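import Pool.Agent.RS88.Elt
import Pool.Agent.RS88.DepA

/-!
# Forgetting the elements in `[Z, n]`, keeping their number

`fill n Z q ω` has the elements of `ω` outside of `[Z, n]`, and the first `q - ct ω Z` integers of `[Z, n]`.
`fill_msq`: `Msq ω L Z` depends on the elements `< Z` only. `fill_ct`: if `ct ω (n+1) = q` then
`q - ct ω Z ≤ n + 1 - Z`, so `fill` has `q` elements `≤ n`; above `n` both sets are equal. `fill_res`: the `k`-th elements
agree for `q < k` (both sets have the same counting function above `n`, and `k`-th element `> n`).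
`fill_dep`: `ct (fill ..) y`, hence the finitely many elements of `fill` below `n ^ 2`, are functions of `ω` on
`[0, n^2) \ [Z, n]`; if `n < ct (fill ..) (n^2)` the `k`-th elements, `k ≤ n`, are among them.
-/

set_option autoImplicit false

namespace Pool.Agent.RS88

open MeasureTheory Filter

/-- The set with the same elements outside of `[Z, n]`, filled up. -/
def fill (n Z q : ℕ) (ω : ℕ → Bool) (i : ℕ) : Bool :=
  if i < Z ∨ n < i then ω i else decide (i < Z + (q - ct ω Z))

theorem fillA_elt_congr {ω ω' : ℕ → Bool} {m V V' : ℕ} (h1 : 1 ≤ m) (hV : m ≤ ct ω V)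
    (hV' : m ≤ ct ω' V') (h : ct ω (elt ω' m) = ct ω' (elt ω' m))
    (h' : ct ω' (elt ω m) = ct ω (elt ω m)) : elt ω m = elt ω' m := by
  refine le_antisymm ?_ ?_
  · rw [le_elt_iff h1 hV', h', ct_elt h1 hV]
    omega
  · rw [le_elt_iff h1 hV, h, ct_elt h1 hV']
    omega

theorem fillA_ct_congr {ω ω' : ℕ → Bool} {y : ℕ} (h : ∀ i < y, ω i = ω' i) :
    ct ω y = ct ω' y := by
  unfold ct
  induction y with
  | zero => simp
  | succ y ih =>
    rw [Nat.count_succ, Nat.count_succ, ih fun i hi => h i (by omega), h y (by omega)]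

theorem fillA_low {n Z q : ℕ} {ω : ℕ → Bool} {y : ℕ} (hy : y ≤ Z) :
    ct (fill n Z q ω) y = ct ω y := by
  refine fillA_ct_congr fun i hi => ?_
  unfold fill
  rw [if_pos (Or.inl (by omega))]

theorem fill_msq (n Z q L : ℕ) (ω : ℕ → Bool) : Msq (fill n Z q ω) L Z = Msq ω L Z := by
  unfold Msq
  refine Finset.filter_congr fun m _ => ?_
  rw [fillA_low le_rfl]
  refine and_congr_right fun _ => and_congr_right fun h1 => and_congr_right fun h2 => ?_
  have h3 : m ≤ ct (fill n Z q ω) Z := by rw [fillA_low le_rfl]; exact h2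
  have h4 := elt_lt h1 h2
  have h5 := elt_lt h1 h3
  have h6 : elt (fill n Z q ω) m = elt ω m :=
    fillA_elt_congr h1 h3 h2 (fillA_low h4.le) (fillA_low h5.le).symm
  unfold res
  rw [h6]

theorem fillA_count (d m : ℕ) : Nat.count (fun k => k < d) m = min d m := by
  induction m with
  | zero => simp
  | succ m ih =>
    rw [Nat.count_succ, ih]
    split_ifs with h
    · omega
    · omega

theorem fill_ct {n Z q : ℕ} {ω : ℕ → Bool} (hZ : Z ≤ n) (h : ct ω (n + 1) = q) {y : ℕ}
    (hy : n < y) : ct (fill n Z q ω) y = ct ω y := by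
  -- up to `n`
  have e1 : n + 1 = Z + (n + 1 - Z) := by omega
  have hq : q = ct ω Z + Nat.count (fun k => ω (Z + k) = true) (n + 1 - Z) := by
    rw [← h]
    unfold ct
    conv_lhs => rw [e1]
    exact Nat.count_add _ _ _
  have hle : Nat.count (fun k => ω (Z + k) = true) (n + 1 - Z) ≤ n + 1 - Z := Nat.count_le _
  have h1 : ct (fill n Z q ω) (n + 1) = q := by
    have h2 : ct (fill n Z q ω) (n + 1) = ct (fill n Z q ω) Z +
        Nat.count (fun k => fill n Z q ω (Z + k) = true) (n + 1 - Z) := by
      unfold ct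
      conv_lhs => rw [e1]
      exact Nat.count_add _ _ _
    have h3 : Nat.count (fun k => fill n Z q ω (Z + k) = true) (n + 1 - Z) =
        Nat.count (fun k => k < q - ct ω Z) (n + 1 - Z) := by
      have : ∀ m, m ≤ n + 1 - Z → Nat.count (fun k => fill n Z q ω (Z + k) = true) m =
          Nat.count (fun k => k < q - ct ω Z) m := by
        intro m
        induction m with
        | zero => intro _; simp
        | succ m ih =>
          intro hm
          rw [Nat.count_succ, Nat.count_succ, ih (by omega)]
          congr 1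
          have e : (fill n Z q ω (Z + m) = true) ↔ m < q - ct ω Z := by
            unfold fill
            rw [if_neg (by omega), decide_eq_true_iff]
            omega
          simp only [e]
      exact this _ le_rfl
    rw [h2, h3, fillA_count, fillA_low le_rfl]
    omega
  -- above `n`
  have e2 : y = (n + 1) + (y - (n + 1)) := by omega
  have h4 : ∀ ω' : ℕ → Bool, ct ω' y = ct ω' (n + 1) +
      Nat.count (fun k => ω' (n + 1 + k) = true) (y - (n + 1)) := by
    intro ω'
    unfold ct
    conv_lhs => rw [e2]
    exact Nat.count_add _ _ _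
  have h5 : ∀ k, fill n Z q ω (n + 1 + k) = ω (n + 1 + k) := by
    intro k
    unfold fill
    rw [if_pos (Or.inr (by omega))]
  rw [h4, h4, h1, h]
  simp only [h5]

theorem fill_res {n Z q k V : ℕ} {ω : ℕ → Bool} (hZ : Z ≤ n) (h : ct ω (n + 1) = q)
    (hq : q < k) (hk : k ≤ ct ω V) : res (fill n Z q ω) k = res ω k := by
  have h1 : 1 ≤ k := by omega
  have hV : n < V := by
    by_contra hc
    have : ct ω V ≤ ct ω (n + 1) := ct_mono (by omega)
    omega
  have hk' : k ≤ ct (fill n Z q ω) V := by rw [fill_ct hZ h hV]; exact hk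
  have h2 : n + 1 ≤ elt ω k := (le_elt_iff h1 hk).2 (by omega)
  have h3 : n + 1 ≤ elt (fill n Z q ω) k := by
    rw [le_elt_iff h1 hk', fill_ct hZ h (by omega)]
    omega
  have h4 : elt (fill n Z q ω) k = elt ω k :=
    fillA_elt_congr h1 hk' hk (fill_ct hZ h (by omega)) (fill_ct hZ h (by omega)).symm
  unfold res
  rw [h4]

end Pool.Agent.RS88
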