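import Pool.Agent.RS88.Conc
import Pool.Agent.RS88.SlopeA

/-!
# The random set is almost surely infinite

From `conc` and `few_many`: for large `f` and `n = 2 ^ (320 f)` there are more than `n` elements
below `n ^ 2`.
-/

set_option autoImplicit false

namespace Pool.Agent.RS88

open MeasureTheory Filter

theorem inf_set : ∀ᵐ ω ∂mu, {m : ℕ | ω m = true}.Infinite := by
  filter_upwards [conc] with ω hω
  intro hfin
  have h1 : ∀ y, ct ω y ≤ hfin.toFinset.card := by
    intro y
    unfold ct
    rw [Nat.count_eq_card_filter_range]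
    refine Finset.card_le_card fun m hm => ?_
    rw [Set.Finite.mem_toFinset]
    exact (Finset.mem_filter.1 hm).2
  obtain ⟨f, ⟨hf1, hf2⟩, hf3⟩ := ((hω.and few_many).and
    (eventually_ge_atTop hfin.toFinset.card)).exists
  have h2 := (hf2 ω (2 ^ (320 * f)) hf1 le_rfl (Nat.pow_lt_pow_right (by norm_num) (by omega))).1
  have h3 := h1 ((2 ^ (320 * f)) ^ 2)
  have h4 : f < 2 ^ f := Nat.lt_two_pow_self
  have h5 : 2 ^ f ≤ 2 ^ (320 * f) := Nat.pow_le_pow_right (by norm_num) (by omega)
  omega

end Pool.Agent.RS88
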