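import Pool.Agent.RS88.MFS96

/-!
# Many `m` for which the residue of the `m`-th element is a square

`mf_conc`: let `N = 2 ^ f`. `ConcAt f ω` for `[2^(f/2), 2^f)`: `ct ω N ≥ (1 - 1/f²)(N - 2^(f/2)) / log N`,
`log N = f log 2 ≤ 0.7 f`, so `ct ω N ≥ 1.4 N / f` for large `f`; hence `W ω f N ≤ 0`, `N / f ≤ ct ω N + 1`
and `(2^(f/3))² ≤ ct ω N + 1`. For `[2^(5f/2), 2^(5f))` (natural division):
`ct ω V ≤ 2^(5f/2) + (1 + 1/f²) V / log (2^(5f/2)) ≤ 0.6 V / f`, as `log (2^(5f/2)) ≥ 1.7 f - 1`; so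
`W ω f V ≥ 0.3 V`.

`mf_num`: `2^(2^(f/4)) (1 - 1/(8f))^(2^(f/3)) ≤ exp (2^(f/4) - 2^(f/3)/(8f))`.

`mf`: `V = 2^(5f)`, `pr y ≥ 1/log V ≥ 1/(4f)` for `3 ≤ 2^f ≤ y < V`; `pred_coin` for `T ω y = Tr f (2^f) (2^(f/3)) ω y`
(`tr_dep`), `p = 1/(4f)`, and Borel-Cantelli; `trials`, `card_msq`.
-/

set_option autoImplicit false

namespace Pool.Agent.RS88

open MeasureTheory Filter

theorem mf : ∀ᵐ ω ∂mu, ∀ᶠ f : ℕ in atTop,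
    2 ^ (f / 4) ≤ (Msq ω (2 ^ f / f) (2 ^ (5 * f))).card :=
  MFS96.mf

end Pool.Agent.RS88
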