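import Pool.Agent.RS88.Defs

/-!
# Many `m` for which the residue of the `m`-th element is a square

`mf_conc`: let `N = 2 ^ f`. `ConcAt f ω` for `[2^(f/2), 2^f)`: `ct ω N ≥ (1 - 1/f²)(N - 2^(f/2)) / log N`,
`log N = f log 2 ≤ 0.7 f`, so `ct ω N ≥ 1.4 N / f` for large `f`; hence `W ω f N ≤ 0`, `N / f ≤ ct ω N + 1`
and `(2^(f/3))² ≤ ct ω N + 1`. For `[2^(5f/2), 2^(5f))` (natural division):
`ct ω V ≤ 2^(5f/2) + (1 + 1/f²) V / log (2^(5f/2)) ≤ 0.6 V / f`, as `log (2^(5f/2)) ≥ 1.7 f - 1`; so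
`W ω f V ≥ 0.3 V`.

`mf_num`: `2^(2^(f/4)) (1 - 1/(8f))^(2^(f/3)) ≤ exp (2^(f/4) - 2^(f/3)/(8f))`.

`mf`: `V = 2^(5f)`, `pr y ≥ 1/log V ≥ 1/(4f)` for `3 ≤ 2^f ≤ y < V`; `pred_coin` for `T ω y = Tr f (2^f) (2^(f/3)) ω y`
(`tr_dep`), `p = 1/(4f)`, and Borel-Cantelli; `trials`, `card_msq`.
-/

set_option autoImplicit false

namespace Pool.Agent.RS88

open MeasureTheory Filter

theorem mfn_pow (g : ℕ) (hg : 22 ≤ g) : 4800 * (g + 1) ^ 2 ≤ 2 ^ g := by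
  induction g, hg using Nat.le_induction with
  | base => norm_num
  | succ g hg ih =>
    rw [pow_succ 2 g]
    nlinarith

theorem mfn_nat {f : ℕ} (hf : 528 ≤ f) : 8 * f * (2 ^ (f / 4) + f) ≤ 2 ^ (f / 3) := by
  have h1 : f / 4 + f / 24 ≤ f / 3 := by omega
  have h2 : 2 ^ (f / 4) * 2 ^ (f / 24) ≤ 2 ^ (f / 3) := by
    rw [← pow_add]
    exact Nat.pow_le_pow_right (by norm_num) h1
  refine le_trans ?_ h2
  have h3 := mfn_pow (f / 24) (by omega)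
  have h4 : f ≤ 24 * (f / 24 + 1) := by omega
  have h5 : 1 ≤ 2 ^ (f / 4) := Nat.one_le_pow _ _ (by norm_num)
  have h6 : 8 * f * (1 + f) ≤ 4800 * (f / 24 + 1) ^ 2 := by
    have h7 : 1 + f ≤ 25 * (f / 24 + 1) := by omega
    calc 8 * f * (1 + f) ≤ 8 * (24 * (f / 24 + 1)) * (25 * (f / 24 + 1)) :=
          Nat.mul_le_mul (Nat.mul_le_mul_left _ h4) h7
      _ = 4800 * (f / 24 + 1) ^ 2 := by ring
  calc 8 * f * (2 ^ (f / 4) + f) ≤ 8 * f * (2 ^ (f / 4) + 2 ^ (f / 4) * f) := by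
        refine Nat.mul_le_mul_left _ (Nat.add_le_add_left ?_ _)
        exact Nat.le_mul_of_pos_left _ h5
    _ = 2 ^ (f / 4) * (8 * f * (1 + f)) := by ring
    _ ≤ 2 ^ (f / 4) * 2 ^ (f / 24) := Nat.mul_le_mul_left _ (h6.trans h3)

theorem mf_num : Summable fun f : ℕ =>
    (2 : ℝ) ^ (2 ^ (f / 4)) * (1 - 1 / (4 * (f : ℝ)) / 2) ^ (2 ^ (f / 3)) := by
  refine Summable.of_norm_bounded_eventually_nat Real.summable_exp_neg_nat ?_
  filter_upwards [eventually_ge_atTop 528] with f hf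
  have hfR : (528 : ℝ) ≤ f := by exact_mod_cast hf
  have hf0 : (0 : ℝ) < f := by linarith
  have hx0 : 0 ≤ 1 - 1 / (4 * (f : ℝ)) / 2 := by
    have h1 : 1 / (4 * (f : ℝ)) ≤ 1 := by
      rw [div_le_one (by positivity)]
      linarith
    linarith
  have hx1 : 1 - 1 / (4 * (f : ℝ)) / 2 ≤ Real.exp (-(1 / (8 * (f : ℝ)))) := by
    have h1 := Real.add_one_le_exp (-(1 / (8 * (f : ℝ))))
    have h2 : 1 / (4 * (f : ℝ)) / 2 = 1 / (8 * (f : ℝ)) := by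
      field_simp
      norm_num
    rw [h2]
    linarith
  rw [Real.norm_of_nonneg (by positivity)]
  have h2e : (2 : ℝ) ≤ Real.exp 1 := by
    have := Real.add_one_le_exp (1 : ℝ)
    linarith
  have hn : (8 * (f : ℝ)) * (2 ^ (f / 4) + f) ≤ 2 ^ (f / 3) := by
    exact_mod_cast mfn_nat hf
  calc (2 : ℝ) ^ (2 ^ (f / 4)) * (1 - 1 / (4 * (f : ℝ)) / 2) ^ (2 ^ (f / 3))
      ≤ (Real.exp 1) ^ (2 ^ (f / 4)) * (Real.exp (-(1 / (8 * (f : ℝ))))) ^ (2 ^ (f / 3)) := by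
        refine mul_le_mul (pow_le_pow_left₀ (by norm_num) h2e _) (pow_le_pow_left₀ hx0 hx1 _)
          (by positivity) (by positivity)
    _ = Real.exp ((2 : ℝ) ^ (f / 4) - (2 : ℝ) ^ (f / 3) / (8 * f)) := by
        rw [← Real.exp_nat_mul, ← Real.exp_nat_mul, ← Real.exp_add]
        congr 1
        push_cast
        ring
    _ ≤ Real.exp (-(f : ℝ)) := by
        apply Real.exp_le_exp.2
        have h3 : (2 : ℝ) ^ (f / 4) + f ≤ (2 : ℝ) ^ (f / 3) / (8 * f) := by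
          rw [le_div_iff₀ (by positivity)]
          linarith
        linarith

end Pool.Agent.RS88
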