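import Pool.Agent.RS88.PredS38

/-!
# Predictable coins

The trials `T ω y` depend on the coordinates `< y`. Proof in `PredS38`.
-/

set_option autoImplicit false

namespace Pool.Agent.RS88

open MeasureTheory Filter

open Classical in
theorem pred_coin {p : ℝ} (hp0 : 0 ≤ p) (hp1 : p ≤ 1) (u v : ℕ)
    (T : (ℕ → Bool) → ℕ → Prop)
    (hT : ∀ y, Dep ((Finset.range y : Finset ℕ) : Set ℕ) {ω | T ω y})
    (hp : ∀ y, u ≤ y → y < v → p ≤ pr y) (N t : ℕ) :
    mu.real {ω | N ≤ ((Finset.Ico u v).filter (fun y => T ω y)).card ∧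
      ((Finset.Ico u v).filter (fun y => T ω y ∧ ω y = true)).card < t} ≤
      2 ^ t * (1 - p / 2) ^ N :=
  pred_coin38 hp0 hp1 u v T hT hp N t

end Pool.Agent.RS88
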