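import Pool.Agent.RS88.Defs

/-!
# The walk `W` is skip-free upwards

`W_succ`: `ct ω (y+1) = ct ω y + (if ω y then 1 else 0)`.

`trials`: for every `1 ≤ s ≤ S` let `y` be the least `y ≥ N` with `W y ≥ s ^ 2` (`V` is such a `y`);
`y > N` since `W N ≤ 0`, and `W y ≤ W (y-1) + 1 ≤ s ^ 2`. So `W y = s ^ 2`, `y ≠ V` since
`W V > S ^ 2`; the `y` of different `s` are different.

`success`: `m = ct ω y + 1`, `elt ω m = y` (`Nat.nth_count`), `W y = s ^ 2` says `y = f m + s ^ 2`, and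
`1 ≤ s ^ 2 ≤ S ^ 2 ≤ ct ω N + 1 ≤ m`; so `res ω m = (f m + s ^ 2 - 1) % m + 1 = s ^ 2`.

`card_msq`: `y ↦ ct ω y + 1` is injective on the `y` with `ω y = true`.
-/

set_option autoImplicit false

namespace Pool.Agent.RS88

open MeasureTheory Filter

theorem success {ω : ℕ → Bool} {f N V S L y : ℕ} (hy : Tr f N S ω y) (ht : ω y = true)
    (hV : y < V) (hS : S ^ 2 ≤ ct ω N + 1) (hL : L ≤ ct ω N + 1) :
    ct ω y + 1 ∈ Msq ω L V := by
  classical
  obtain ⟨hN, s, hs1, hsS, hW, -⟩ := hy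
  have hmono : ct ω N ≤ ct ω y := Nat.count_monotone _ hN
  have hle : ct ω y ≤ y := Nat.count_le _
  have hsucc : ct ω (y + 1) = ct ω y + 1 := by
    unfold ct
    rw [Nat.count_succ, if_pos ht]
  have hV' : ct ω (y + 1) ≤ ct ω V := Nat.count_monotone _ hV
  have hs2 : s ^ 2 ≤ S ^ 2 := Nat.pow_le_pow_left hsS 2
  have hs0 : 1 ≤ s ^ 2 := Nat.one_le_pow _ _ hs1
  rw [Msq, Finset.mem_filter, Finset.mem_range]
  refine ⟨by omega, by omega, by omega, by omega, ?_⟩
  have helt : elt ω (ct ω y + 1) = y := by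
    unfold elt ct
    rw [Nat.add_sub_cancel]
    exact Nat.nth_count ht
  have hy2 : y = f * (ct ω y + 1) + s ^ 2 := by
    unfold W at hW
    have h2 : (y : ℤ) = ((f * (ct ω y + 1) + s ^ 2 : ℕ) : ℤ) := by
      push_cast
      linarith
    exact_mod_cast h2
  have hres : res ω (ct ω y + 1) = s ^ 2 := by
    unfold res
    rw [helt]
    have h3 : y - 1 = f * (ct ω y + 1) + (s ^ 2 - 1) := by omega
    rw [h3, Nat.mul_add_mod_self_right, Nat.mod_eq_of_lt (by omega)]
    omega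
  rw [hres]
  exact ⟨s, by ring⟩

open Classical in
theorem card_msq {ω : ℕ → Bool} {f N V S L : ℕ} (hS : S ^ 2 ≤ ct ω N + 1)
    (hL : L ≤ ct ω N + 1) :
    ((Finset.Ico N V).filter (fun y => Tr f N S ω y ∧ ω y = true)).card ≤ (Msq ω L V).card := by
  refine Finset.card_le_card_of_injOn (fun y => ct ω y + 1) ?_ ?_
  · intro y hy
    rw [Finset.mem_coe, Finset.mem_filter, Finset.mem_Ico] at hy
    exact success hy.2.1 hy.2.2 hy.1.2 hS hL
  · intro y hy z hz hyz
    rw [Finset.mem_coe, Finset.mem_filter] at hy hz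
    have h1 : ct ω y = ct ω z := Nat.succ_injective hyz
    exact Nat.count_injective hy.2.2 hz.2.2 h1

end Pool.Agent.RS88
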