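import Pool.Agent.RS88.Conc
import Pool.Agent.RS88.Pred
import Pool.Agent.RS88.SkipA
import Pool.Agent.RS88.SkipB
import Pool.Agent.RS88.SkipC
import Pool.Agent.RS88.MFc
import Pool.Agent.RS88.MFn

/-!
# RS88/MFS96: proof of `mf`
-/

set_option autoImplicit false

namespace Pool.Agent.RS88.MFS96

open MeasureTheory Filter Pool.Agent.RS88

theorem pr_ge {f y : ℕ} (hf : 2 ≤ f) (h1 : 2 ^ f ≤ y) (h2 : y < 2 ^ (5 * f)) :
    1 / (4 * (f : ℝ)) ≤ pr y := by
  have h4 : 2 ^ 2 ≤ 2 ^ f := Nat.pow_le_pow_right (by norm_num) hf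
  have h3 : 3 ≤ y := by
    have : (2 : ℕ) ^ 2 = 4 := by norm_num
    omega
  have hy3 : (3 : ℝ) ≤ y := by exact_mod_cast h3
  unfold pr
  rw [if_pos h3]
  have hpos : 0 < Real.log y := Real.log_pos (by linarith)
  have hle : Real.log y ≤ 4 * (f : ℝ) := by
    have e1 : Real.log y ≤ Real.log ((2 : ℝ) ^ (5 * f)) := by
      apply Real.log_le_log (by linarith)
      exact_mod_cast h2.le
    rw [Real.log_pow] at e1
    have e2 := Real.log_two_lt_d9
    have hf0 : (0 : ℝ) ≤ f := Nat.cast_nonneg f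
    push_cast at e1
    nlinarith
  exact one_div_le_one_div_of_le hpos hle

open Classical in
theorem mf : ∀ᵐ ω ∂mu, ∀ᶠ f : ℕ in atTop,
    2 ^ (f / 4) ≤ (Msq ω (2 ^ f / f) (2 ^ (5 * f))).card := by
  set B : ℕ → Set (ℕ → Bool) := fun f =>
    {ω | 2 ≤ f ∧ (2 ^ (f / 3) ≤ ((Finset.Ico (2 ^ f) (2 ^ (5 * f))).filter
        (fun y => Tr f (2 ^ f) (2 ^ (f / 3)) ω y)).card ∧
      ((Finset.Ico (2 ^ f) (2 ^ (5 * f))).filter
        (fun y => Tr f (2 ^ f) (2 ^ (f / 3)) ω y ∧ ω y = true)).card < 2 ^ (f / 4))} with hB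
  have hBle : ∀ f, mu (B f) ≤ ENNReal.ofReal
      ((2 : ℝ) ^ (2 ^ (f / 4)) * (1 - 1 / (4 * (f : ℝ)) / 2) ^ (2 ^ (f / 3))) := by
    intro f
    by_cases hf : 2 ≤ f
    · have hf2 : (2 : ℝ) ≤ f := by exact_mod_cast hf
      have hp0 : 0 ≤ 1 / (4 * (f : ℝ)) := by positivity
      have hp1 : 1 / (4 * (f : ℝ)) ≤ 1 := by
        rw [div_le_one (by linarith)]
        linarith
      have h1 := pred_coin hp0 hp1 (2 ^ f) (2 ^ (5 * f))
        (fun ω y => Tr f (2 ^ f) (2 ^ (f / 3)) ω y)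
        (fun y => tr_dep f (2 ^ f) (2 ^ (f / 3)) y)
        (fun y hy1 hy2 => pr_ge hf hy1 hy2) (2 ^ (f / 3)) (2 ^ (f / 4))
      have h2 : B f = {ω | 2 ^ (f / 3) ≤ ((Finset.Ico (2 ^ f) (2 ^ (5 * f))).filter
          (fun y => Tr f (2 ^ f) (2 ^ (f / 3)) ω y)).card ∧
        ((Finset.Ico (2 ^ f) (2 ^ (5 * f))).filter
          (fun y => Tr f (2 ^ f) (2 ^ (f / 3)) ω y ∧ ω y = true)).card < 2 ^ (f / 4)} := by
        ext ω
        simp only [hB, Set.mem_ofPred_eq, hf, true_and]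
      rw [h2, ← ofReal_measureReal]
      exact ENNReal.ofReal_le_ofReal h1
    · have h2 : B f = ∅ := by
        ext ω
        simp only [hB, Set.mem_ofPred_eq, hf, false_and, Set.mem_empty_iff_false]
      rw [h2, measure_empty]
      exact bot_le
  have hsum : (∑' f, mu (B f)) ≠ ⊤ := by
    refine ne_top_of_le_ne_top mf_num.tsum_ofReal_ne_top (ENNReal.tsum_le_tsum hBle)
  have hae := ae_eventually_notMem hsum
  filter_upwards [hae, conc] with ω h1 h2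
  filter_upwards [h1, h2, mf_conc, eventually_ge_atTop 2] with f h3 h4 h5 h6
  obtain ⟨a1, a2, a3, a4⟩ := h5 ω h4
  have hNV : 2 ^ f ≤ 2 ^ (5 * f) := Nat.pow_le_pow_right (by norm_num) (by omega)
  have k1 := trials hNV a1 a2
  have k2 := card_msq (f := f) (V := 2 ^ (5 * f)) a4 a3
  by_contra hlt
  push Not at hlt
  exact h3 ⟨h6, k1, lt_of_le_of_lt k2 hlt⟩

end Pool.Agent.RS88.MFS96
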