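import Pool.Agent.RS88.Dep

/-!
# Predictable coins, proof (helper38)

Induction on `v - u`, peeling off the first index, for an event `E` that depends on the coordinates `< u`.
-/

set_option autoImplicit false

namespace Pool.Agent.RS88

open MeasureTheory Filter

theorem Dep.inter38 {S : Set ℕ} {E F : Set (ℕ → Bool)} (hE : Dep S E) (hF : Dep S F) :
    Dep S (E ∩ F) := fun ω ω' h => by
  rw [Set.mem_inter_iff, Set.mem_inter_iff, hE ω ω' h, hF ω ω' h]

theorem Dep.compl38 {S : Set ℕ} {E : Set (ℕ → Bool)} (hE : Dep S E) : Dep S Eᶜ := fun ω ω' h => by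
  rw [Set.mem_compl_iff, Set.mem_compl_iff, hE ω ω' h]

theorem Dep.mono38 {S S' : Set ℕ} {E : Set (ℕ → Bool)} (hE : Dep S E) (h : S ⊆ S') : Dep S' E :=
  fun ω ω' hh => hE ω ω' fun i hi => hh i (h hi)

theorem dep_coord38 {S : Set ℕ} {m : ℕ} (hm : m ∈ S) (b : Bool) : Dep S {ω : ℕ → Bool | ω m = b} :=
  fun ω ω' h => by
    rw [Set.mem_setOf_eq, Set.mem_setOf_eq, h m hm]

open Classical in
theorem pred_aux38 {p : ℝ} (hp0 : 0 ≤ p) (hp1 : p ≤ 1) (T : (ℕ → Bool) → ℕ → Prop)
    (hT : ∀ y, Dep ((Finset.range y : Finset ℕ) : Set ℕ) {ω | T ω y}) (n : ℕ) :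
    ∀ u v : ℕ, v - u = n → (∀ y, u ≤ y → y < v → p ≤ pr y) → ∀ (N t : ℕ) (E : Set (ℕ → Bool)),
    Dep ((Finset.range u : Finset ℕ) : Set ℕ) E →
    mu.real (E ∩ {ω | N ≤ ((Finset.Ico u v).filter (fun y => T ω y)).card ∧
      ((Finset.Ico u v).filter (fun y => T ω y ∧ ω y = true)).card < t}) ≤
      mu.real E * (2 ^ t * (1 - p / 2) ^ N) := by
  have hc0 : 0 < 1 - p / 2 := by linarith
  induction n with
  | zero =>
    intro u v huv hp N t E hE
    have hIco : Finset.Ico u v = ∅ := Finset.Ico_eq_empty (by omega)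
    rcases Nat.eq_zero_or_pos N with rfl | hN
    · refine (measureReal_mono Set.inter_subset_left).trans ?_
      have h2 : (1 : ℝ) ≤ 2 ^ t := one_le_pow₀ (by norm_num)
      calc mu.real E = mu.real E * 1 := (mul_one _).symm
        _ ≤ mu.real E * (2 ^ t * (1 - p / 2) ^ 0) := by
          apply mul_le_mul_of_nonneg_left _ measureReal_nonneg
          simpa using h2
    · have : E ∩ {ω | N ≤ ((Finset.Ico u v).filter (fun y => T ω y)).card ∧
          ((Finset.Ico u v).filter (fun y => T ω y ∧ ω y = true)).card < t} = ∅ := by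
        ext ω
        simp only [hIco, Finset.filter_empty, Finset.card_empty, Set.mem_inter_iff, Set.mem_setOf_eq,
          Set.mem_empty_iff_false, iff_false, not_and]
        intro _ h
        omega
      rw [this, measureReal_empty]
      positivity
  | succ n ih =>
    intro u v huv hp N t E hE
    have huv' : u < v := by omega
    have hIco : Finset.Ico u v = insert u (Finset.Ico (u + 1) v) := by
      ext y
      simp only [Finset.mem_Ico, Finset.mem_insert]
      omega
    have hni : u ∉ Finset.Ico (u + 1) v := by simp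
    rcases Nat.eq_zero_or_pos N with rfl | hN
    · refine (measureReal_mono Set.inter_subset_left).trans ?_
      have h2 : (1 : ℝ) ≤ 2 ^ t := one_le_pow₀ (by norm_num)
      calc mu.real E = mu.real E * 1 := (mul_one _).symm
        _ ≤ mu.real E * (2 ^ t * (1 - p / 2) ^ 0) := by
          apply mul_le_mul_of_nonneg_left _ measureReal_nonneg
          simpa using h2
    rcases Nat.eq_zero_or_pos t with rfl | ht
    · have : E ∩ {ω | N ≤ ((Finset.Ico u v).filter (fun y => T ω y)).card ∧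
          ((Finset.Ico u v).filter (fun y => T ω y ∧ ω y = true)).card < 0} = ∅ := by
        ext ω
        simp
      rw [this, measureReal_empty]
      positivity
    obtain ⟨N, rfl⟩ := Nat.exists_eq_succ_of_ne_zero hN.ne'
    obtain ⟨t, rfl⟩ := Nat.exists_eq_succ_of_ne_zero ht.ne'
    simp only [Nat.succ_eq_add_one]
    set Tu : Set (ℕ → Bool) := {ω | T ω u} with hTu
    set R : ℕ → ℕ → Set (ℕ → Bool) := fun N t =>
      {ω | N ≤ ((Finset.Ico (u + 1) v).filter (fun y => T ω y)).card ∧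
        ((Finset.Ico (u + 1) v).filter (fun y => T ω y ∧ ω y = true)).card < t} with hR
    have hsub : E ∩ {ω | N + 1 ≤ ((Finset.Ico u v).filter (fun y => T ω y)).card ∧
        ((Finset.Ico u v).filter (fun y => T ω y ∧ ω y = true)).card < t + 1} ⊆
        ((E ∩ Tu ∩ {ω | ω u = true}) ∩ R N t) ∪ (((E ∩ Tu ∩ {ω | ω u = false}) ∩ R N (t + 1)) ∪
          ((E ∩ Tuᶜ) ∩ R (N + 1) (t + 1))) := by
      rintro ω ⟨hωE, h1, h2⟩
      by_cases hTω : T ω u
      · by_cases hω : ω u = true
        · left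
          rw [hIco, Finset.filter_insert, if_pos hTω, Finset.card_insert_of_notMem
            (fun h => hni (Finset.mem_filter.1 h).1)] at h1
          rw [hIco, Finset.filter_insert, if_pos ⟨hTω, hω⟩, Finset.card_insert_of_notMem
            (fun h => hni (Finset.mem_filter.1 h).1)] at h2
          exact ⟨⟨⟨hωE, hTω⟩, hω⟩, by omega, by omega⟩
        · right; left
          rw [hIco, Finset.filter_insert, if_pos hTω, Finset.card_insert_of_notMem
            (fun h => hni (Finset.mem_filter.1 h).1)] at h1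
          rw [hIco, Finset.filter_insert, if_neg (fun h => hω h.2)] at h2
          exact ⟨⟨⟨hωE, hTω⟩, by simpa using hω⟩, by omega, h2⟩
      · right; right
        rw [hIco, Finset.filter_insert, if_neg hTω] at h1
        rw [hIco, Finset.filter_insert, if_neg (fun h => hTω h.1)] at h2
        exact ⟨⟨hωE, hTω⟩, h1, h2⟩
    have hsubr : ((Finset.range u : Finset ℕ) : Set ℕ) ⊆ ((Finset.range (u + 1) : Finset ℕ) : Set ℕ) := by
      intro i hi
      simp only [Finset.coe_range, Set.mem_Iio] at hi ⊢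
      omega
    have hmem : u ∈ ((Finset.range (u + 1) : Finset ℕ) : Set ℕ) := by simp
    have hET : Dep ((Finset.range u : Finset ℕ) : Set ℕ) (E ∩ Tu) := hE.inter38 (hT u)
    have hp' : ∀ y, u + 1 ≤ y → y < v → p ≤ pr y := fun y h1 h2 => hp y (by omega) h2
    have i1 := ih (u + 1) v (by omega) hp' N t _ ((hET.mono38 hsubr).inter38 (dep_coord38 hmem true))
    have i2 := ih (u + 1) v (by omega) hp' N (t + 1) _
      ((hET.mono38 hsubr).inter38 (dep_coord38 hmem false))
    have i3 := ih (u + 1) v (by omega) hp' (N + 1) (t + 1) _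
      ((hE.inter38 (hT u).compl38).mono38 hsubr)
    have hu : u ∉ Finset.range u := by simp
    rw [dep_true hET hu] at i1
    rw [dep_false hET hu] at i2
    have hadd : mu.real (E ∩ Tu) + mu.real (E ∩ Tuᶜ) = mu.real E := by
      rw [← Set.diff_eq]
      exact measureReal_inter_add_diff (hT u).meas
    have hpu := hp u le_rfl huv'
    have hb : mu.real (E ∩ Tu) * pr u * (2 ^ t * (1 - p / 2) ^ N) +
        mu.real (E ∩ Tu) * (1 - pr u) * (2 ^ (t + 1) * (1 - p / 2) ^ N) ≤
        mu.real (E ∩ Tu) * (2 ^ (t + 1) * (1 - p / 2) ^ (N + 1)) := by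
      have h0 : 0 ≤ mu.real (E ∩ Tu) * (2 ^ (t + 1) * (1 - p / 2) ^ N) := by positivity
      have e1 : mu.real (E ∩ Tu) * pr u * (2 ^ t * (1 - p / 2) ^ N) +
        mu.real (E ∩ Tu) * (1 - pr u) * (2 ^ (t + 1) * (1 - p / 2) ^ N) =
        (mu.real (E ∩ Tu) * (2 ^ (t + 1) * (1 - p / 2) ^ N)) * (1 - pr u / 2) := by ring
      have e2 : mu.real (E ∩ Tu) * (2 ^ (t + 1) * (1 - p / 2) ^ (N + 1)) =
        (mu.real (E ∩ Tu) * (2 ^ (t + 1) * (1 - p / 2) ^ N)) * (1 - p / 2) := by ring
      rw [e1, e2]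
      exact mul_le_mul_of_nonneg_left (by linarith) h0
    calc mu.real (E ∩ {ω | N + 1 ≤ ((Finset.Ico u v).filter (fun y => T ω y)).card ∧
        ((Finset.Ico u v).filter (fun y => T ω y ∧ ω y = true)).card < t + 1})
        ≤ mu.real (((E ∩ Tu ∩ {ω | ω u = true}) ∩ R N t) ∪
          (((E ∩ Tu ∩ {ω | ω u = false}) ∩ R N (t + 1)) ∪ ((E ∩ Tuᶜ) ∩ R (N + 1) (t + 1)))) :=
          measureReal_mono hsub
      _ ≤ mu.real ((E ∩ Tu ∩ {ω | ω u = true}) ∩ R N t) +
          (mu.real ((E ∩ Tu ∩ {ω | ω u = false}) ∩ R N (t + 1)) +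
            mu.real ((E ∩ Tuᶜ) ∩ R (N + 1) (t + 1))) :=
          (measureReal_union_le _ _).trans (add_le_add_right (measureReal_union_le _ _) _)
      _ ≤ mu.real (E ∩ Tu) * pr u * (2 ^ t * (1 - p / 2) ^ N) +
          (mu.real (E ∩ Tu) * (1 - pr u) * (2 ^ (t + 1) * (1 - p / 2) ^ N) +
            mu.real (E ∩ Tuᶜ) * (2 ^ (t + 1) * (1 - p / 2) ^ (N + 1))) :=
          add_le_add i1 (add_le_add i2 i3)
      _ ≤ mu.real (E ∩ Tu) * (2 ^ (t + 1) * (1 - p / 2) ^ (N + 1)) +
            mu.real (E ∩ Tuᶜ) * (2 ^ (t + 1) * (1 - p / 2) ^ (N + 1)) := by linarith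
      _ = mu.real E * (2 ^ (t + 1) * (1 - p / 2) ^ (N + 1)) := by rw [← hadd]; ring

open Classical in
theorem pred_coin38 {p : ℝ} (hp0 : 0 ≤ p) (hp1 : p ≤ 1) (u v : ℕ)
    (T : (ℕ → Bool) → ℕ → Prop)
    (hT : ∀ y, Dep ((Finset.range y : Finset ℕ) : Set ℕ) {ω | T ω y})
    (hp : ∀ y, u ≤ y → y < v → p ≤ pr y) (N t : ℕ) :
    mu.real {ω | N ≤ ((Finset.Ico u v).filter (fun y => T ω y)).card ∧
      ((Finset.Ico u v).filter (fun y => T ω y ∧ ω y = true)).card < t} ≤
      2 ^ t * (1 - p / 2) ^ N := by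
  have h := pred_aux38 hp0 hp1 T hT (v - u) u v rfl hp N t Set.univ (fun _ _ _ => Iff.rfl)
  rwa [Set.univ_inter, probReal_univ, one_mul] at h

end Pool.Agent.RS88
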