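import Pool.Agent.RS88.SlopeA
import Pool.Agent.RS88.Elt

/-!
# The ratio `elt ω n / n` and the logarithm
-/

set_option autoImplicit false

namespace Pool.Agent.RS88

open MeasureTheory Filter

theorem RatioS83_num {Y n l lh d s h : ℝ} (hl : 100 ≤ l) (hd0 : 0 ≤ d) (hd : d * l ≤ 1 / 2000)
    (hY : 0 < Y) (hs : s ≤ d * Y) (hh : 99 / 200 * Y ≤ h)
    (hlh0 : 0 < lh) (hlh : lh ≤ l - 69 / 100)
    (hn : (1 - d) * ((h - s) / lh) + (1 - d) * ((Y - h) / l) ≤ n) :
    Y ≤ n * (l - 3 / 10) := by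
  have hl0 : 0 < l := by linarith
  have hd1 : d ≤ 1 / 2000 := by nlinarith
  have hd2 : d ≤ 1 / 200000 := by nlinarith
  have hs2 : s ≤ 1 / 2000 * Y := by nlinarith
  have hhs : 0 < h - s := by nlinarith
  have h1 : (h - s) * (l + 69 / 100) / l ^ 2 ≤ (h - s) / lh := by
    rw [div_le_div_iff₀ (by positivity) hlh0]
    have h2 : (l + 69 / 100) * lh ≤ l ^ 2 := by nlinarith
    nlinarith
  have h3 : (Y - h) * l / l ^ 2 = (Y - h) / l := by
    field_simp
  have h4 : (1 - d) * (((h - s) * (l + 69 / 100) + (Y - h) * l) / l ^ 2) ≤ n := by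
    refine le_trans ?_ hn
    rw [add_div, mul_add, h3]
    have h5 : (1 - d) * ((h - s) * (l + 69 / 100) / l ^ 2) ≤ (1 - d) * ((h - s) / lh) :=
      mul_le_mul_of_nonneg_left h1 (by linarith)
    linarith
  have h6 : Y * (l - d * l + 34 / 100) ≤ (h - s) * (l + 69 / 100) + (Y - h) * l := by
    nlinarith
  have h7 : (1 - d) * (Y * (l - d * l + 34 / 100) / l ^ 2) ≤ n := by
    refine le_trans ?_ h4
    apply mul_le_mul_of_nonneg_left _ (by linarith)
    exact div_le_div_of_nonneg_right h6 (by positivity)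
  have h8 : l ^ 2 ≤ (1 - d) * (l - d * l + 34 / 100) * (l - 3 / 10) := by
    have a1 : l - 3 / 10 - d * l ≤ (1 - d) * (l - 3 / 10) := by nlinarith
    have a2 : 0 < l - d * l + 34 / 100 := by nlinarith
    have a3 : (l - 3 / 10 - d * l) * (l - d * l + 34 / 100) ≤
        (1 - d) * (l - 3 / 10) * (l - d * l + 34 / 100) := mul_le_mul_of_nonneg_right a1 a2.le
    have a4 : l ^ 2 ≤ (l - 3 / 10 - d * l) * (l - d * l + 34 / 100) := by
      have b0 : 0 ≤ d * l := by positivity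
      nlinarith
    nlinarith
  have h9 : (1 - d) * (Y * (l - d * l + 34 / 100) / l ^ 2) * (l - 3 / 10) ≤ n * (l - 3 / 10) :=
    mul_le_mul_of_nonneg_right h7 (by linarith)
  refine le_trans ?_ h9
  have h10 : (1 - d) * (Y * (l - d * l + 34 / 100) / l ^ 2) * (l - 3 / 10) =
      Y * ((1 - d) * (l - d * l + 34 / 100) * (l - 3 / 10)) / l ^ 2 := by ring
  rw [h10, le_div_iff₀ (by positivity)]
  exact mul_le_mul_of_nonneg_left h8 hY.le

theorem RatioS83_main {f : ℕ} (hf : 1000000 ≤ f) {ω : ℕ → Bool} {n : ℕ} (hc : ConcAt f ω)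
    (hn1 : 2 ^ (320 * f) ≤ n) (hn2 : n < 2 ^ (320 * (f + 1)))
    (hfm : n < ct ω (n ^ 2) ∧ 2 * ct ω (n + 1) ≤ n ∧ 3 * n ≤ elt ω n) :
    (elt ω n : ℝ) / n ≤ Real.log (elt ω n) - 3 / 10 := by
  obtain ⟨hm, -, h3⟩ := hfm
  have hnpos : 1 ≤ n := le_trans Nat.one_le_two_pow hn1
  obtain ⟨E, hE⟩ : ∃ E, E = 320 * (f + 1) := ⟨_, rfl⟩
  rw [← hE] at hn2
  have hylt : elt ω n < n ^ 2 := elt_lt hnpos hm.le
  have hct : ct ω (elt ω n) = n - 1 := ct_elt hnpos hm.le
  set y : ℕ := elt ω n with hy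
  -- sizes
  have e1 : (2 : ℕ) ^ (f / 8) ≤ 2 ^ (100 * f) := Nat.pow_le_pow_right (by norm_num) (by omega)
  have e2 : (2 : ℕ) ^ (100 * f) + 2 ^ (100 * f) ≤ 2 ^ (320 * f) := by
    have : (2 : ℕ) ^ (100 * f + 1) ≤ 2 ^ (320 * f) :=
      Nat.pow_le_pow_right (by norm_num) (by omega)
    rw [pow_succ] at this
    omega
  have e3 : n ^ 2 ≤ 2 ^ (1000 * f) := by
    have a : n ^ 2 ≤ (2 ^ E) ^ 2 := Nat.pow_le_pow_left hn2.le 2
    rw [← pow_mul] at a
    exact a.trans (Nat.pow_le_pow_right (by norm_num) (by omega))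
  have e4 : (2 : ℕ) ^ (102 * f) ≤ 2 ^ (320 * f) :=
    Nat.pow_le_pow_right (by norm_num) (by omega)
  have e5 : f ^ 2 * 2 ^ (100 * f) ≤ 2 ^ (320 * f) := by
    have a : f ^ 2 ≤ (2 ^ f) ^ 2 := Nat.pow_le_pow_left (Nat.lt_two_pow_self).le 2
    have b : (2 ^ f) ^ 2 * 2 ^ (100 * f) = 2 ^ (102 * f) := by
      rw [← pow_mul, ← pow_add]
      congr 1
      omega
    calc f ^ 2 * 2 ^ (100 * f) ≤ (2 ^ f) ^ 2 * 2 ^ (100 * f) := Nat.mul_le_mul_right _ a
      _ = 2 ^ (102 * f) := b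
      _ ≤ _ := e4
  have e6 : 1 ≤ (2 : ℕ) ^ (f / 8) := Nat.one_le_two_pow
  have e7 : 100 ≤ (2 : ℕ) ^ (320 * f) := by
    have a : 320 * f < 2 ^ (320 * f) := Nat.lt_two_pow_self
    omega
  set s : ℕ := 2 ^ (100 * f) with hs
  set B : ℕ := 2 ^ (320 * f) with hB
  set A : ℕ := 2 ^ (f / 8) with hA
  have hh2 : 2 * (y / 2) ≤ y := by omega
  have hh3 : y ≤ 2 * (y / 2) + 1 := by omega
  set h : ℕ := y / 2 with hh
  have c1 := (hc s h (by omega) (by omega) (by omega) (by omega)).1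
  have c2 := (hc h y (by omega) (by omega) (by omega) (by omega)).1
  -- logs
  have hy3 : (3 : ℝ) * n ≤ y := by exact_mod_cast h3
  have hyB : (B : ℝ) ≤ y := by
    have : B ≤ y := by omega
    exact_mod_cast this
  have hB0 : (0 : ℝ) < B := by
    have : 0 < B := by omega
    exact_mod_cast this
  have hy0 : (0 : ℝ) < y := by linarith
  have hlogB : Real.log B = 320 * f * Real.log 2 := by
    rw [hB]
    push_cast
    rw [Real.log_pow]
    push_cast
    ring
  have hl2a := Real.log_two_gt_d9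
  have hl2b := Real.log_two_lt_d9
  have hfR : (1000000 : ℝ) ≤ f := by exact_mod_cast hf
  have hl1 : 200 * (f : ℝ) ≤ Real.log y := by
    have a := Real.log_le_log hB0 hyB
    rw [hlogB] at a
    nlinarith
  have hl2 : Real.log y ≤ 500 * f := by
    have a : (y : ℝ) ≤ ((2 ^ E) ^ 2 : ℕ) := by
      have a1 : y ≤ (2 ^ E) ^ 2 :=
        hylt.le.trans (Nat.pow_le_pow_left hn2.le 2)
      exact_mod_cast a1
    have b := Real.log_le_log hy0 a
    push_cast at b
    rw [Real.log_pow, Real.log_pow] at b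
    push_cast at b
    have hER : (E : ℝ) = 320 * (f + 1) := by exact_mod_cast hE
    rw [hER] at b
    nlinarith
  have hf0 : (0 : ℝ) < f := by linarith
  have hfsq : (0 : ℝ) < (f : ℝ) ^ 2 := by positivity
  have hsY : (s : ℝ) ≤ 1 / (f : ℝ) ^ 2 * y := by
    have a : f ^ 2 * s ≤ y := by
      have : f ^ 2 * s ≤ B := e5
      omega
    have b : (f : ℝ) ^ 2 * s ≤ y := by exact_mod_cast a
    rw [one_div_mul_eq_div, le_div_iff₀ hfsq]
    linarith
  have hhR : (y : ℝ) ≤ 2 * h + 1 := by exact_mod_cast hh3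
  have hhR2 : (2 : ℝ) * h ≤ y := by exact_mod_cast hh2
  have hy100 : (100 : ℝ) ≤ y := by
    have : (100 : ℝ) ≤ B := by exact_mod_cast e7
    linarith
  have hh0 : (1 : ℝ) < h := by linarith
  have hlh0 : 0 < Real.log h := Real.log_pos hh0
  have hlh : Real.log h ≤ Real.log y - 69 / 100 := by
    have a : Real.log ((2 : ℝ) * h) ≤ Real.log y := Real.log_le_log (by linarith) hhR2
    rw [Real.log_mul (by norm_num) (by linarith)] at a
    linarith
  have hnR : (ct ω y : ℝ) ≤ n := by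
    have : ct ω y ≤ n := by omega
    exact_mod_cast this
  have hs0 : (0 : ℝ) ≤ ct ω s := Nat.cast_nonneg _
  have hn0 : (0 : ℝ) < n := by
    have : 0 < n := by omega
    exact_mod_cast this
  rw [div_le_iff₀ hn0]
  have hfin := RatioS83_num (Y := (y : ℝ)) (n := (n : ℝ)) (l := Real.log y) (lh := Real.log h)
    (d := 1 / (f : ℝ) ^ 2) (s := (s : ℝ)) (h := (h : ℝ)) (by linarith) (by positivity)
    (by
      have a : 1 / (f : ℝ) ^ 2 * Real.log y ≤ 1 / (f : ℝ) ^ 2 * (500 * f) :=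
        mul_le_mul_of_nonneg_left hl2 (by positivity)
      have b : 1 / (f : ℝ) ^ 2 * (500 * f) = 500 / f := by
        field_simp
      have c : 500 / (f : ℝ) ≤ 1 / 2000 := by
        rw [div_le_div_iff₀ hf0 (by norm_num)]
        linarith
      linarith)
    hy0 hsY (by linarith) hlh0 hlh (by linarith)
  linarith

theorem ratio83 : ∀ᶠ f : ℕ in atTop, ∀ (ω : ℕ → Bool) (n : ℕ), ConcAt f ω →
    2 ^ (320 * f) ≤ n → n < 2 ^ (320 * (f + 1)) →
    (elt ω n : ℝ) / n ≤ Real.log (elt ω n) - 3 / 10 := by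
  filter_upwards [few_many, eventually_ge_atTop 1000000] with f hfm hf ω n hc h1 h2
  exact RatioS83_main hf hc h1 h2 (hfm ω n hc h1 h2)

end Pool.Agent.RS88
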