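import Pool.Agent.RS88.SlopeA

/-!
# The local slope

`2 ^ (320 f) ≤ n < 2 ^ (320 (f+1))`, `ConcAt f ω`, `y = elt ω n`; `220 f ≤ log n ≤ 222 f + 222`, `log (n^2) ≤ 500 f`.

`few_many`: `n ^ 2 ≤ 2 ^ (1000 f)`. `ct ω (n^2) > n` and `2 * ct ω (n+1) ≤ n`, `ct ω (3 n) < n` (so `3 n ≤ elt ω n` by
`le_elt_iff`) by `ConcAt` for `[2^(100 f), V)` and `ct ω (2^(100 f)) ≤ 2^(100 f)`; `log (2^(100f)) ≥ 60 f`.

`ratio`: with `s = 2^(100 f)`, `h = y / 2` (natural division), `ct ω y = n - 1`,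
`n - 1 ≥ ct ω y - ct ω s ≥ (1 - 1/f²) ((h - s) / log h + (y - h) / log y)`, `log h ≤ log y - 0.69`, so
`n ≥ (1 - 1/f²) (y - s) / log y * (1 + 0.34 / log y)`, and `log y ≤ 500 f`: `n ≥ y / (log y - 0.3)`.

`window`: in an interval `[a, a + h)` with `a ≥ 0.99 y`, `a + h ≤ 2 y`, `h ≥ 2^(f/8)`, there are at most
`(1 + 1/f²) h / log a ≤ h / (log y - 0.02)` elements (`log a ≥ log y - 0.0101`, `log y ≤ 500 f`) and at least `h / (600 f)`.

`slope`: `k', k` as in `Slp.lo`, `a = elt ω k'`. First `a ≥ 0.99 y`: otherwise the interval `[0.99 y, y)` contains at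
most `2^(100 f)` elements, but it contains at least `0.01 y / (600 f)`. `[a, elt ω k)` contains exactly `k - k'` elements.
If `elt ω k - a < (y/n + 1/5)(k - k')`, then the interval `[a, a + h)`, `h = ⌈(y/n + 1/5)(k - k')⌉` contains at least
`k - k'` elements, but at most `h / (log y - 0.02) ≤ ((y/n + 1/5)(k-k') + 1) / (log y - 0.02) < k - k'` by `ratio`
(`y/n + 1/5 ≤ log y - 0.1`, `k - k' ≥ 2^(f/8)` is large). `hi`: if `elt ω k - a > 1000 f (k - k')` then `[a, a + 1000 f (k-k'))`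
contains at most `k - k'` elements, but at least `1000 f (k-k') / (600 f)`.
-/

set_option autoImplicit false

namespace Pool.Agent.RS88

open MeasureTheory Filter

/-- the real inequality -/
theorem ratio_real {F Y H S N L : ℝ} (hF : 20000 ≤ F) (hS : 1 ≤ S) (hL : 1 ≤ L) (hL2 : L ≤ 500 * F)
    (hH1 : Y / 2 - 1 / 2 ≤ H) (hH2 : H ≤ Y / 2) (hSY : 100000 * F * S ≤ Y) (hN0 : 0 < N)
    (hN : (1 - 1 / F ^ 2) * ((H - S) / (L - 0.69) + (Y - H) / L) ≤ N) :
    Y / N ≤ L - 3 / 10 := by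
  have hF0 : 0 < F := by linarith
  have hL0 : 0 < L := by linarith
  have hY : 2000000000 * S ≤ Y := by nlinarith
  have hL69 : 0 < L - 0.69 := by norm_num; linarith
  have hHS : 0 ≤ H - S := by linarith
  have hYH : 0 ≤ Y - H := by linarith
  rw [div_le_iff₀ hN0]
  have e1 : (H - S) * (1 + 0.39 / L) ≤ (L - 3 / 10) * ((H - S) / (L - 0.69)) := by
    have h1 : 0.39 / L ≤ 0.39 / (L - 0.69) :=
      div_le_div_of_nonneg_left (by norm_num) hL69 (by norm_num)
    have h2 : (L - 3 / 10) * ((H - S) / (L - 0.69)) = (H - S) * (1 + 0.39 / (L - 0.69)) := by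
      field_simp
      ring
    rw [h2]
    exact mul_le_mul_of_nonneg_left (by linarith) hHS
  have e2 : (L - 3 / 10) * ((Y - H) / L) = (Y - H) * (1 - 0.3 / L) := by
    field_simp
    ring
  have e3 : (L - 3 / 10) * ((H - S) / (L - 0.69) + (Y - H) / L) ≥
      Y - S + (0.39 * (H - S) - 0.3 * (Y - H)) / L := by
    rw [mul_add, e2]
    have h1 : Y - S + (0.39 * (H - S) - 0.3 * (Y - H)) / L =
        (H - S) * (1 + 0.39 / L) + (Y - H) * (1 - 0.3 / L) := by
      field_simp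
      ring
    rw [h1]
    linarith
  have e4 : 0.04 * Y / L ≤ (0.39 * (H - S) - 0.3 * (Y - H)) / L := by
    apply div_le_div_of_nonneg_right _ hL0.le
    norm_num
    linarith
  have hY00 : 0 ≤ 0.04 * Y := by norm_num; linarith
  have e5 : 0.04 * Y / (500 * F) ≤ 0.04 * Y / L :=
    div_le_div_of_nonneg_left hY00 hL0 hL2
  have e6 : S ≤ 0.00001 * (Y / F) := by
    have : 100000 * S ≤ Y / F := by
      rw [le_div_iff₀ hF0]
      linarith
    norm_num
    linarith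
  have e7 : 0.04 * Y / (500 * F) = 0.00008 * (Y / F) := by
    field_simp
    ring
  have e8 : Y * (1 + 0.00007 / F) ≤ (L - 3 / 10) * ((H - S) / (L - 0.69) + (Y - H) / L) := by
    have h1 : Y * (1 + 0.00007 / F) = Y + 0.00007 * (Y / F) := by
      field_simp
    rw [h1]
    norm_num at *
    linarith
  have e9 : 1 ≤ (1 - 1 / F ^ 2) * (1 + 0.00007 / F) := by
    obtain ⟨j, hj⟩ : ∃ j : ℝ, j = 1 / F := ⟨_, rfl⟩
    have hj0 : 0 < j := by rw [hj]; positivity
    have hj1 : j ≤ 1 / 20000 := by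
      rw [hj]
      exact one_div_le_one_div_of_le (by norm_num) hF
    have h1 : (1 - 1 / F ^ 2) * (1 + 0.00007 / F) = (1 - j ^ 2) * (1 + 0.00007 * j) := by
      rw [hj]
      field_simp
    rw [h1]
    norm_num
    nlinarith [mul_pos hj0 hj0]
  have hY0 : 0 ≤ Y := by linarith
  have hF2 : 0 ≤ 1 - 1 / F ^ 2 := by
    have : 1 / F ^ 2 ≤ 1 := by
      rw [div_le_one (by positivity)]
      nlinarith
    linarith
  calc Y ≤ Y * ((1 - 1 / F ^ 2) * (1 + 0.00007 / F)) := le_mul_of_one_le_right hY0 e9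
    _ = (1 - 1 / F ^ 2) * (Y * (1 + 0.00007 / F)) := by ring
    _ ≤ (1 - 1 / F ^ 2) * ((L - 3 / 10) * ((H - S) / (L - 0.69) + (Y - H) / L)) :=
        mul_le_mul_of_nonneg_left e8 hF2
    _ = (L - 3 / 10) * ((1 - 1 / F ^ 2) * ((H - S) / (L - 0.69) + (Y - H) / L)) := by ring
    _ ≤ (L - 3 / 10) * N := mul_le_mul_of_nonneg_left hN (by linarith)

theorem ratio_nat {f n y a b c d k : ℕ} (hf : 20000 ≤ f) (ha : a = 320 * f) (hb : b = 320 * (f + 1))
    (hc : c = 100 * f) (hd : d = f / 8) (hk : k = 1000 * f) (hn1 : 2 ^ a ≤ n)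
    (hn2 : n < 2 ^ b) (h3 : 3 * n ≤ y) (hy2 : y < n ^ 2) :
    1 ≤ 2 ^ c ∧ 2 ^ d ≤ 2 ^ c ∧ 100000 * f * 2 ^ c ≤ y ∧
      y ≤ 2 ^ k ∧ Real.log y ≤ 500 * f := by
  have e1 : d ≤ c := by omega
  have e2 : 17 + f + c ≤ a := by omega
  have e3 : b * 2 ≤ k := by omega
  have hny : n ≤ y := le_trans (Nat.le_mul_of_pos_left n (by norm_num)) h3
  have hn0 : 1 ≤ n := le_trans Nat.one_le_two_pow hn1
  refine ⟨Nat.one_le_two_pow, Nat.pow_le_pow_right (by norm_num) e1, ?_, ?_, ?_⟩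
  · have b1 : f ≤ 2 ^ f := Nat.lt_two_pow_self.le
    have b2 : 100000 ≤ 2 ^ 17 := by norm_num
    have b3 : 2 ^ 17 * 2 ^ f * 2 ^ c ≤ 2 ^ a := by
      rw [← pow_add, ← pow_add]
      exact Nat.pow_le_pow_right (by norm_num) e2
    exact (Nat.mul_le_mul_right _ (Nat.mul_le_mul b2 b1)).trans (b3.trans (hn1.trans hny))
  · have c1 : y ≤ (2 ^ b) ^ 2 := hy2.le.trans (Nat.pow_le_pow_left hn2.le 2)
    have c2 : 2 ^ (b * 2) ≤ 2 ^ k := Nat.pow_le_pow_right (by norm_num) e3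
    rw [← pow_mul] at c1
    exact c1.trans c2
  · have b1 : Real.log y ≤ Real.log ((n : ℝ) ^ 2) := by
      apply Real.log_le_log
      · have : 0 < y := lt_of_lt_of_le hn0 hny
        exact Nat.cast_pos.2 this
      · rw [← Nat.cast_pow]
        exact Nat.cast_le.2 hy2.le
    rw [Real.log_pow] at b1
    have b2 : Real.log n ≤ Real.log ((2 : ℝ) ^ b) := by
      apply Real.log_le_log
      · exact Nat.cast_pos.2 hn0
      · have b0 : ((n : ℕ) : ℝ) ≤ ((2 ^ b : ℕ) : ℝ) := Nat.cast_le.2 hn2.le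
        rwa [Nat.cast_pow, Nat.cast_ofNat] at b0
    rw [Real.log_pow] at b2
    have b3 := Real.log_two_lt_d9
    have b4 : (20000 : ℝ) ≤ f := by exact_mod_cast hf
    have b5 : ((b : ℕ) : ℝ) = 320 * ((f : ℝ) + 1) := by rw [hb]; push_cast; ring
    rw [b5] at b2
    have b6 : 320 * ((f : ℝ) + 1) * Real.log 2 ≤ 320 * ((f : ℝ) + 1) * 0.6931471808 :=
      mul_le_mul_of_nonneg_left b3.le (by positivity)
    norm_num at b1 b6 ⊢
    linarith

theorem ratio : ∀ᶠ f : ℕ in atTop, ∀ (ω : ℕ → Bool) (n : ℕ), ConcAt f ω →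
    2 ^ (320 * f) ≤ n → n < 2 ^ (320 * (f + 1)) →
    (elt ω n : ℝ) / n ≤ Real.log (elt ω n) - 3 / 10 := by
  filter_upwards [few_many, eventually_ge_atTop 20000] with f hfm hf ω n hC hn1 hn2
  obtain ⟨h1, h2, h3⟩ := hfm ω n hC hn1 hn2
  have hn0 : 1 ≤ n := le_trans Nat.one_le_two_pow hn1
  have hy2 : elt ω n < n ^ 2 := elt_lt hn0 h1.le
  have hct : ct ω (elt ω n) = n - 1 := ct_elt hn0 h1.le
  obtain ⟨hs1, a1, a2, a3, hL2⟩ := ratio_nat hf rfl rfl rfl rfl rfl hn1 hn2 h3 hy2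
  clear hn1 hn2 hy2 hfm
  unfold ConcAt at hC
  generalize elt ω n = y at *
  generalize 2 ^ (100 * f) = s at *
  generalize 2 ^ (f / 8) = t at *
  generalize 2 ^ (1000 * f) = V at *
  obtain ⟨h, hh⟩ : ∃ h, h = y / 2 := ⟨_, rfl⟩
  have a2' : 4 * s + 2 ≤ y := by nlinarith
  have c1 := (hC s h (by omega) (by omega) a1 (by omega)).1
  have c2 := (hC h y (by omega) a3 (by omega) (by omega)).1
  have hL1 : 1 ≤ Real.log y := by
    refine log_three.trans (Real.log_le_log (by norm_num) ?_)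
    have : 3 ≤ y := by omega
    exact_mod_cast this
  have hh0 : 3 ≤ h := by
    have : 20000 * 100000 ≤ y := by nlinarith
    omega
  have hhR : (3 : ℝ) ≤ h := by exact_mod_cast hh0
  have hlh : 0 < Real.log h := Real.log_pos (by linarith)
  have hH2 : (h : ℝ) ≤ (y : ℝ) / 2 := by
    have : 2 * h ≤ y := by omega
    have : (2 : ℝ) * h ≤ y := by exact_mod_cast this
    linarith
  have hH1 : (y : ℝ) / 2 - 1 / 2 ≤ h := by
    have : y ≤ 2 * h + 1 := by omega
    have : (y : ℝ) ≤ 2 * h + 1 := by exact_mod_cast this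
    linarith
  have hy0 : (0 : ℝ) < y := by
    have : 0 < y := by omega
    exact_mod_cast this
  have hlog : Real.log h ≤ Real.log y - 0.69 := by
    have b1 : Real.log h ≤ Real.log ((y : ℝ) / 2) := Real.log_le_log (by linarith) hH2
    rw [Real.log_div hy0.ne' (by norm_num)] at b1
    have b2 := Real.log_two_gt_d9
    norm_num at b2 ⊢
    linarith
  have hsh : (s : ℝ) ≤ h := by
    have : s ≤ h := by omega
    exact_mod_cast this
  have d1 : ((h : ℝ) - s) / (Real.log y - 0.69) ≤ ((h : ℝ) - s) / Real.log h :=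
    div_le_div_of_nonneg_left (by linarith) hlh hlog
  have hfR : (20000 : ℝ) ≤ f := by exact_mod_cast hf
  have d2 : 0 ≤ 1 - 1 / (f : ℝ) ^ 2 := by
    have : 1 / (f : ℝ) ^ 2 ≤ 1 := by
      rw [div_le_one (by positivity)]
      nlinarith
    linarith
  refine ratio_real (F := f) (Y := y) (H := h) (S := s) hfR (by exact_mod_cast hs1) hL1 hL2 hH1 hH2
    (by exact_mod_cast a2) (by exact_mod_cast hn0) ?_
  have d3 : (1 - 1 / (f : ℝ) ^ 2) * (((h : ℝ) - s) / (Real.log y - 0.69)) ≤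
      (1 - 1 / (f : ℝ) ^ 2) * (((h : ℝ) - s) / Real.log h) := mul_le_mul_of_nonneg_left d1 d2
  have d4 : (ct ω y : ℝ) ≤ n := by
    rw [hct]
    exact_mod_cast Nat.sub_le n 1
  have d5 : (0 : ℝ) ≤ ct ω s := Nat.cast_nonneg _
  rw [mul_add]
  linarith

end Pool.Agent.RS88
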